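import Pool.Agent.Helper69.QH.FixV

/-!
Project QH: fixed `v ≥ 2` and all large concurrences.
-/

set_option autoImplicit false

namespace Pool.Agent.Helper69.QH

open Pool.Agent.Helper69.WV Pool.Agent.Helper53.BN Pool.Agent.Helper69.QB Pool.Agent.Helper69.QC
open Pool.Agent.Helper69.QD Pool.Agent.Helper69.QG Pool.Agent.Helper52.VB

theorem nb_le_top {k l v b : ℕ} (hk : 4 ≤ k) (hv : 2 ≤ v) (hN : NB k l v b) :
    b ≤ (l / (k - 1) + 1) * C2 v := by
  have hC : (0 : ℝ) < (C2 v : ℝ) := by exact_mod_cast c2pos hv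
  have hk1 : 0 < k - 1 := by omega
  have hk1r : (0 : ℝ) < (k : ℝ) - 1 := by
    have : (4 : ℝ) ≤ (k : ℝ) := by exact_mod_cast hk
    linarith
  have h3 := nb_le_beta (by omega) hv hN
  have h4 := beta_le k l (by omega)
  have h5 : (l : ℝ) / ((k : ℝ) - 1) ≤ ((l / (k - 1) + 1 : ℕ) : ℝ) := by
    rw [div_le_iff₀ hk1r]
    have h6 : l ≤ (l / (k - 1) + 1) * (k - 1) := by
      have := Nat.div_add_mod l (k - 1)
      have := Nat.mod_lt l hk1
      nlinarith
    have h7 : (l : ℝ) ≤ ((l / (k - 1) + 1 : ℕ) : ℝ) * ((k - 1 : ℕ) : ℝ) := by exact_mod_cast h6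
    rwa [Nat.cast_sub (by omega), Nat.cast_one] at h7
  have h8 : (b : ℝ) ≤ ((l / (k - 1) + 1 : ℕ) : ℝ) * (C2 v : ℝ) :=
    h3.trans (mul_le_mul_of_nonneg_right (h4.trans h5) hC.le)
  exact_mod_cast h8

/-- There is a design with `b QQ = l C2 v + e`. -/
def TE (k l v e : ℕ) : Prop := ∃ b, NB k l v b ∧ b * QQ v k = l * C2 v + e

theorem te_mono {k l l₀ v e b₀ n : ℕ} (h0 : NB k l₀ v b₀) (h0' : b₀ * QQ v k = l₀ * C2 v)
    (h : TE k l v e) : TE k (n * l₀ + l) v e := by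
  obtain ⟨b, hb, hbe⟩ := h
  refine ⟨n * b₀ + b, nb_add (nb_mul h0 n) hb, ?_⟩
  have : (n * b₀ + b) * QQ v k = n * (b₀ * QQ v k) + b * QQ v k := by ring
  rw [this, h0', hbe]
  ring

/-- The complete set of the numbers of blocks for fixed `v ≥ 2` and all large `l`. -/
theorem complete_two (k v : ℕ) (hk : 4 ≤ k) (hv : 2 ≤ v) :
    ∃ (L P : ℕ) (E F : ℕ → Finset ℕ), 0 < P ∧ ∀ l, L ≤ l → Adm k l v → ∀ b : ℕ,
      NB k l v b ↔ (l * C2 v ≤ b * QQ v k ∧ b * QQ v k - l * C2 v ∉ E (l % P)) ∧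
        b ≤ (l / (k - 1) + 1) * C2 v ∧ (l / (k - 1) + 1) * C2 v - b ∉ F (l % (k - 1)) := by
  classical
  obtain ⟨c, hc, _, h⟩ := exact_low k hk
  obtain ⟨c', hc'⟩ := exists_nat_ge c
  obtain ⟨l₀, hl₀, -, hmin⟩ := minimal_all k hk
  obtain ⟨b₀, hb₀, hb₀'⟩ := hmin v hv
  have hC0 := c2pos hv
  have hC : (0 : ℝ) < (C2 v : ℝ) := by exact_mod_cast hC0
  have hQ : 0 < QQ v k := by
    rcases Nat.eq_zero_or_pos (QQ v k) with h0 | h0
    · rw [h0, mul_zero] at hb₀'
      have : 0 < l₀ * C2 v := Nat.mul_pos hl₀ hC0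
      omega
    · exact h0
  set B : ℕ := (c' + 1) * C2 v + 1 with hB
  have h1 : ∀ r s, ∃ L, ∀ l', l' % (k - 1) = r → TQ k l' v s → ∀ l, L ≤ l → l % (k - 1) = r →
      TQ k l v s := by
    intro r s
    by_cases hex : ∃ l', l' % (k - 1) = r ∧ TQ k l' v s
    · obtain ⟨l0, hl0, hT0⟩ := hex
      exact ⟨l0, fun _ _ _ l hl hlr => tq_mono (by omega) (hl0.trans hlr.symm) hl hT0⟩
    · exact ⟨0, fun l' h2 h3 => absurd ⟨l', h2, h3⟩ hex⟩
  have h2 : ∀ r e, ∃ L, ∀ l', l' % l₀ = r → TE k l' v e → ∀ l, L ≤ l → l % l₀ = r →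
      TE k l v e := by
    intro r e
    by_cases hex : ∃ l', l' % l₀ = r ∧ TE k l' v e
    · obtain ⟨l0, hl0, hT0⟩ := hex
      refine ⟨l0, fun _ _ _ l hl hlr => ?_⟩
      obtain ⟨n, hn⟩ := (Nat.modEq_iff_dvd' hl).1 (show l0 ≡ l [MOD l₀] from hl0.trans hlr.symm)
      have h3 : l = n * l₀ + l0 := by
        rw [mul_comm n l₀, ← hn]
        omega
      rw [h3]
      exact te_mono hb₀ hb₀' hT0
    · exact ⟨0, fun l' h2 h3 => absurd ⟨l', h2, h3⟩ hex⟩
  choose L2 hL2 using h1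
  choose L3 hL3 using h2
  refine ⟨2 + ∑ r ∈ Finset.range (k - 1), ∑ s ∈ Finset.range B, L2 r s +
      ∑ r ∈ Finset.range l₀, ∑ s ∈ Finset.range B, L3 r s, l₀,
    fun r => (Finset.range B).filter fun s => ¬ ∃ l', l' % l₀ = r ∧ TE k l' v s,
    fun r => (Finset.range B).filter fun s => ¬ ∃ l', l' % (k - 1) = r ∧ TQ k l' v s, hl₀,
    fun l hl hadm b => ?_⟩
  obtain ⟨A, hA, hex, -⟩ := h l (by omega)
  have hk1 : 0 < k - 1 := by omega
  constructor
  · intro hN
    have h3 := lower_bound hv hN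
    have h4 := nb_le_top hk hv hN
    refine ⟨⟨h3, fun hmem => ?_⟩, h4, fun hmem => ?_⟩
    · exact (Finset.mem_filter.1 hmem).2 ⟨l, rfl, b, hN, by omega⟩
    · exact (Finset.mem_filter.1 hmem).2 ⟨l, rfl, b, hN, by omega⟩
  · rintro ⟨⟨h2, h2'⟩, h3, h4⟩
    set e : ℕ := b * QQ v k - l * C2 v with he
    have hbe : b * QQ v k = l * C2 v + e := by omega
    set s : ℕ := (l / (k - 1) + 1) * C2 v - b with hs
    have hbs : b + s = (l / (k - 1) + 1) * C2 v := by omega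
    by_cases heB : e < B
    · have h5 : ∃ l', l' % l₀ = l % l₀ ∧ TE k l' v e := by
        by_contra hcon
        exact h2' (Finset.mem_filter.2 ⟨Finset.mem_range.2 heB, hcon⟩)
      obtain ⟨l', hl', hT⟩ := h5
      have h6 : L3 (l % l₀) e ≤ ∑ r ∈ Finset.range l₀, ∑ s ∈ Finset.range B, L3 r s := by
        refine le_trans (Finset.single_le_sum (f := fun s => L3 (l % l₀) s)
          (fun _ _ => Nat.zero_le _) (Finset.mem_range.2 heB)) ?_
        exact Finset.single_le_sum (f := fun r => ∑ s ∈ Finset.range B, L3 r s)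
          (fun _ _ => Nat.zero_le _) (Finset.mem_range.2 (Nat.mod_lt l hl₀))
      obtain ⟨b', hb', hbe'⟩ := hL3 (l % l₀) e l' hl' hT l (by omega) rfl
      have h7 : b' * QQ v k = b * QQ v k := by omega
      rwa [Nat.eq_of_mul_eq_mul_right hQ h7] at hb'
    by_cases hsB : s < B
    · have h5 : ∃ l', l' % (k - 1) = l % (k - 1) ∧ TQ k l' v s := by
        by_contra hcon
        exact h4 (Finset.mem_filter.2 ⟨Finset.mem_range.2 hsB, hcon⟩)
      obtain ⟨l', hl', hT⟩ := h5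
      have h6 : L2 (l % (k - 1)) s ≤
          ∑ r ∈ Finset.range (k - 1), ∑ s ∈ Finset.range B, L2 r s := by
        refine le_trans (Finset.single_le_sum (f := fun s => L2 (l % (k - 1)) s)
          (fun _ _ => Nat.zero_le _) (Finset.mem_range.2 hsB)) ?_
        exact Finset.single_le_sum (f := fun r => ∑ s ∈ Finset.range B, L2 r s)
          (fun _ _ => Nat.zero_le _) (Finset.mem_range.2 (Nat.mod_lt l hk1))
      obtain ⟨b', hb', hbs'⟩ := hL2 (l % (k - 1)) s l' hl' hT l (by omega) rfl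
      have : b' = b := by omega
      rwa [this] at hb'
    · have h6 := mul_le_mul_of_nonneg_right hc' hC.le
      refine hex v hv hadm b ?_ ?_
      · have h5 := min_le_left (c * (C2 v : ℝ)) (A * e0 k l v)
        have h8 : (b : ℝ) * (QQ v k : ℝ) = l * (C2 v : ℝ) + e := by exact_mod_cast hbe
        have h9 : ((c' : ℝ) + 1) * (C2 v : ℝ) + 1 ≤ e := by
          have : B ≤ e := not_lt.1 heB
          exact_mod_cast this
        linarith
      · have h5 := min_le_left (c * (C2 v : ℝ)) (A * e2 k l v)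
        have h7 := mul_le_mul_of_nonneg_right (beta_ge k l (by omega)) hC.le
        have h8 : (b : ℝ) + s = (((l / (k - 1) : ℕ) : ℝ) + 1) * (C2 v : ℝ) := by
          exact_mod_cast hbs
        have h9 : ((c' : ℝ) + 1) * (C2 v : ℝ) + 1 ≤ s := by
          have : B ≤ s := not_lt.1 hsB
          exact_mod_cast this
        linarith

end Pool.Agent.Helper69.QH
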