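import Pool.Agent.Helper69.QG.Gt
import Pool.Agent.Helper69.QD.Low
import Pool.Agent.Helper53.BN.Closure

/-!
Project QH, piece TU: the upper end for concurrences divisible by `k - 1`, uniformly.
-/

set_option autoImplicit false

namespace Pool.Agent.Helper69.QH

open Pool.Agent.Helper69.WV Pool.Agent.Helper53.BN Pool.Agent.Helper69.QB Pool.Agent.Helper69.QC
open Pool.Agent.Helper69.QD Pool.Agent.Helper69.QG

/-- There is a design with `T` blocks less than the upper bound `l / (k - 1) C2 v`. -/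
def TP (k l v T : ℕ) : Prop := ∃ b, NB k l v b ∧ b + T = l / (k - 1) * C2 v

private theorem TU_C2 (v : ℕ) : 2 * C2 v = v * (v - 1) := by
  unfold C2
  exact Nat.two_mul_div_two_of_even (Nat.even_mul_pred_self v)

private theorem TU_mono {a b : ℕ} (h : a ≤ b) : C2 a ≤ C2 b := by
  unfold C2
  exact Nat.div_le_div_right (Nat.mul_le_mul h (by omega))

private theorem TU_cast (v : ℕ) (hv : 1 ≤ v) : (C2 v : ℝ) = (v : ℝ) * ((v : ℝ) - 1) / 2 := by
  have h := congrArg (Nat.cast : ℕ → ℝ) (TU_C2 v)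
  push_cast [Nat.cast_sub hv] at h
  linarith

private theorem TU_ge (v : ℕ) : v ≤ C2 v + 1 := by
  have h := TU_C2 v
  rcases Nat.lt_or_ge v 2 with h2 | h2
  · omega
  · have h3 : 2 * (v - 1) ≤ v * (v - 1) := Nat.mul_le_mul_right _ h2
    omega

/-- `sub_triv` (in `v`), and `nb_add` with `nb_triv` (in `l`). -/
theorem tp_mono {k l l' v v' T : ℕ} (hk : 2 ≤ k) (hl : k - 1 ∣ l) (hl' : k - 1 ∣ l')
    (hll : l ≤ l') (hvv : v ≤ v') (h : TP k l v T) : TP k l' v' T := by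
  obtain ⟨b, hb, hbT⟩ := h
  obtain ⟨p, rfl⟩ := hl
  obtain ⟨q, rfl⟩ := hl'
  have hk1 : 0 < k - 1 := by omega
  have hpq : p ≤ q := Nat.le_of_mul_le_mul_left hll hk1
  obtain ⟨r, rfl⟩ := Nat.exists_eq_add_of_le hpq
  have h1 := sub_triv hk (Dvd.intro p rfl) hvv hb
  have h2 := nb_add h1 (nb_triv hk r v')
  have h3 : (k - 1) * p + r * (k - 1) = (k - 1) * (p + r) := by ring
  rw [h3] at h2
  refine ⟨_, h2, ?_⟩
  rw [Nat.mul_div_cancel_left _ hk1] at hbT ⊢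
  rw [Nat.mul_div_cancel_left _ hk1]
  obtain ⟨d, hd⟩ := Nat.exists_eq_add_of_le (TU_mono hvv)
  rw [hd, Nat.add_sub_cancel_left]
  nlinarith [hbT]

/-- Let `F` be the set of the `T < C` for which there are no `l`, `v` with `k - 1 ∣ l` and `TP k l v T`; for the other
`T < C` choose `l`, `v`; `L`, `V` are the sums (or maxima) of these numbers; `tp_mono`. -/
theorem top_stable (k : ℕ) (hk : 2 ≤ k) (C : ℕ) : ∃ (F : Finset ℕ) (L V : ℕ),
    (∀ T ∈ F, T < C) ∧ ∀ l, L ≤ l → k - 1 ∣ l → ∀ v, V ≤ v → ∀ T, T < C →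
      (TP k l v T ↔ T ∉ F) := by
  classical
  have hex : ∀ T : ℕ, ∃ p : ℕ × ℕ, (∃ l v, k - 1 ∣ l ∧ TP k l v T) →
      k - 1 ∣ p.1 ∧ TP k p.1 p.2 T := by
    intro T
    by_cases h : ∃ l v, k - 1 ∣ l ∧ TP k l v T
    · obtain ⟨l, v, h1, h2⟩ := h
      exact ⟨(l, v), fun _ => ⟨h1, h2⟩⟩
    · exact ⟨(0, 0), fun h' => absurd h' h⟩
  choose f hf using hex
  refine ⟨(Finset.range C).filter (fun T => ¬ ∃ l v, k - 1 ∣ l ∧ TP k l v T),
    ∑ T ∈ Finset.range C, (f T).1, ∑ T ∈ Finset.range C, (f T).2, ?_, ?_⟩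
  · intro T hT
    exact Finset.mem_range.1 (Finset.mem_filter.1 hT).1
  · intro l hl hkl v hv T hT
    have hTr : T ∈ Finset.range C := Finset.mem_range.2 hT
    rw [Finset.mem_filter]
    constructor
    · intro h h2
      exact h2.2 ⟨l, v, hkl, h⟩
    · intro h
      have h2 : ∃ l v, k - 1 ∣ l ∧ TP k l v T := by
        by_contra h3
        exact h ⟨hTr, h3⟩
      obtain ⟨h3, h4⟩ := hf T h2
      have h5 : (f T).1 ≤ ∑ T ∈ Finset.range C, (f T).1 :=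
        Finset.single_le_sum (f := fun T => (f T).1) (fun _ _ => Nat.zero_le _) hTr
      have h6 : (f T).2 ≤ ∑ T ∈ Finset.range C, (f T).2 :=
        Finset.single_le_sum (f := fun T => (f T).2) (fun _ _ => Nat.zero_le _) hTr
      exact tp_mono hk h3 hkl (h5.trans hl) (h6.trans hv) h4

/-- Let `l₁ = (k - 1) (2 k (c + 2))` (or any other large multiple of `k - 1`), `C0`, `v₀` from `sharp k l₁` (`e0 = 1` and `e1 = 1`, since `k - 1 ∣ l₁`):
for `v ≥ v₀` all `b` with `l₁ C2 v / C2 k + C0 ≤ b ≤ l₁ / (k - 1) C2 v - C0` (`beta_eq`) are numbers of blocks for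
`l₁`. So `TP k l₁ v T` for `C0 ≤ T ≤ c C2 v` and large `v`, since `l₁ / (k - 1) - l₁ / C2 k ≥ c + 1`; `tp_mono` in `l`. -/
theorem top_mid (k : ℕ) (hk : 3 ≤ k) (c : ℕ) : ∃ C L V : ℕ, ∀ l, L ≤ l → k - 1 ∣ l → ∀ v,
    V ≤ v → ∀ T, C ≤ T → T ≤ c * C2 v → TP k l v T := by
  have hk1 : 0 < k - 1 := by omega
  have hq6 : 6 * (c + 2) ≤ 2 * k * (c + 2) := Nat.mul_le_mul_right _ (by omega)
  have hl2 : 2 ≤ (k - 1) * (2 * k * (c + 2)) := by
    have : 1 * (2 * k * (c + 2)) ≤ (k - 1) * (2 * k * (c + 2)) := Nat.mul_le_mul_right _ hk1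
    omega
  obtain ⟨C0, v0, hs⟩ := sharp k ((k - 1) * (2 * k * (c + 2))) hk hl2
  refine ⟨C0, (k - 1) * (2 * k * (c + 2)), v0 + C0 + 2, fun l hl hkl v hv T hT hTc => ?_⟩
  refine tp_mono (by omega) (Dvd.intro _ rfl) hkl hl le_rfl ?_
  have hadm : Adm k ((k - 1) * (2 * k * (c + 2))) v := by
    right
    have : Even (2 * k * (c + 2)) := by
      rw [mul_assoc]
      exact even_two_mul _
    exact (this.mul_left _).mul_right _
  have he0 : e0 k ((k - 1) * (2 * k * (c + 2))) v = 1 :=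
    if_pos (Dvd.dvd.mul_right (Dvd.intro _ rfl) _)
  have he1 : e1 k ((k - 1) * (2 * k * (c + 2))) v = 1 := if_pos (Dvd.intro _ rfl)
  have hTq : T ≤ 2 * k * (c + 2) * C2 v :=
    hTc.trans (Nat.mul_le_mul_right _ (by omega))
  have hkr : (3 : ℝ) ≤ k := by exact_mod_cast hk
  have hcast : ((k - 1 : ℕ) : ℝ) = (k : ℝ) - 1 := by
    rw [Nat.cast_sub (by omega), Nat.cast_one]
  have hC2k : (C2 k : ℝ) = (k : ℝ) * ((k : ℝ) - 1) / 2 := TU_cast k (by omega)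
  have hv1 : ((C0 : ℕ) : ℝ) + 1 ≤ (C2 v : ℝ) := by
    have := TU_ge v
    have h2 : C0 + 1 ≤ C2 v := by omega
    exact_mod_cast h2
  have hb := hs v (by omega) hadm (2 * k * (c + 2) * C2 v - T)
  rw [he0, he1, beta_eq k _ (by omega) (Dvd.intro _ rfl)] at hb
  have hbc : ((2 * k * (c + 2) * C2 v - T : ℕ) : ℝ) =
      2 * (k : ℝ) * ((c : ℝ) + 2) * (C2 v : ℝ) - T := by
    rw [Nat.cast_sub hTq]
    push_cast
    ring
  have hTr : (T : ℝ) ≤ (c : ℝ) * (C2 v : ℝ) := by exact_mod_cast hTc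
  have hTr0 : ((C0 : ℕ) : ℝ) ≤ (T : ℝ) := by exact_mod_cast hT
  have hc0 : (0 : ℝ) ≤ (c : ℝ) := Nat.cast_nonneg c
  have hv0 : (0 : ℝ) ≤ (C2 v : ℝ) := Nat.cast_nonneg _
  have hlow : (((k - 1) * (2 * k * (c + 2)) : ℕ) : ℝ) / (C2 k : ℝ) = 4 * ((c : ℝ) + 2) := by
    rw [hC2k]
    push_cast [hcast]
    have h1 : (k : ℝ) ≠ 0 := by linarith
    have h2 : (k : ℝ) - 1 ≠ 0 := by linarith
    field_simp
    ring
  have hup : (((k - 1) * (2 * k * (c + 2)) : ℕ) : ℝ) / ((k : ℝ) - 1) =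
      2 * (k : ℝ) * ((c : ℝ) + 2) := by
    push_cast [hcast]
    have h2 : (k : ℝ) - 1 ≠ 0 := by linarith
    field_simp
  rw [hbc, hlow, hup] at hb
  refine ⟨_, hb ?_ ?_, ?_⟩
  · have h3 : 6 * (((c : ℝ) + 2) * (C2 v : ℝ)) ≤ 2 * (k : ℝ) * (((c : ℝ) + 2) * (C2 v : ℝ)) :=
      mul_le_mul_of_nonneg_right (by linarith) (mul_nonneg (by linarith) hv0)
    have h4 : 0 ≤ (c : ℝ) * (C2 v : ℝ) := mul_nonneg hc0 hv0
    push_cast
    nlinarith [h3, h4, hTr, hv1]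
  · push_cast
    linarith
  · rw [Nat.mul_div_cancel_left _ hk1]
    omega

end Pool.Agent.Helper69.QH
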