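import Pool.Agent.Helper69.QH.LX
import Pool.Agent.Helper69.QH.TU
import Pool.Agent.Helper69.QH.Five2
import Pool.Agent.Helper69.QC.Local
import Pool.Agent.Helper53.BN.Pair

/-!
Project QH: the exact lower end for large concurrence, and the complete set of the numbers of blocks if
`k - 1` divides the (large) concurrence.
-/

set_option autoImplicit false

namespace Pool.Agent.Helper69.QH

open Pool.Agent.Helper69.WV Pool.Agent.Helper53.BN Pool.Agent.Helper69.QB Pool.Agent.Helper69.QC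
open Pool.Agent.Helper69.QD Pool.Agent.Helper69.QG Pool.Agent.Helper52.VB

/-- The lower end, with natural numbers: all `v ≥ k + 2` and all large `l`. -/
theorem low_all (k : ℕ) (hk : 4 ≤ k) (c : ℕ) : ∃ L : ℕ, ∀ l, L ≤ l → ∀ v, k + 2 ≤ v → ∀ d, d ≤ k →
    k - 1 ∣ 2 * d + l * (v - 1) → ∀ b, l * C2 v + d * v ≤ b * C2 k →
    b * C2 k ≤ (l + c) * C2 v → NB k l v b := by
  obtain ⟨L1, V, h1⟩ := low_v k hk c
  have h2 : ∀ x, ∃ L, k + 2 ≤ x → ∀ l, L ≤ l → ∀ d, k - 1 ∣ 2 * d + l * (x - 1) → ∀ b,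
      l * C2 x + d * x ≤ b * C2 k → b * C2 k ≤ (l + c) * C2 x → NB k l x b := by
    intro x
    by_cases hx : k + 2 ≤ x
    · obtain ⟨L, hL⟩ := low_small k x c (by omega) hx
      exact ⟨L, fun _ => hL⟩
    · exact ⟨0, fun h => absurd h hx⟩
  choose L2 hL2 using h2
  refine ⟨L1 + ∑ x ∈ Finset.range V, L2 x, fun l hl v hv d hd hdv b hb1 hb2 => ?_⟩
  by_cases hvV : v < V
  · have h3 : L2 v ≤ ∑ x ∈ Finset.range V, L2 x :=
      Finset.single_le_sum (f := L2) (fun _ _ => Nat.zero_le _) (Finset.mem_range.2 hvV)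
    exact hL2 v hv l (by omega) d hdv b hb1 hb2
  · exact h1 l (by omega) v (by omega) d hd hdv b hb1 hb2

/-- For every large `l` and all `v ≥ k + 2` the local lower bound is the only obstruction below the
window at the upper end. -/
theorem exact_low (k : ℕ) (hk : 4 ≤ k) : ∃ c : ℝ, 0 < c ∧ ∃ L : ℕ, ∀ l : ℕ, 2 ≤ l →
    ∃ A : ℝ, 0 < A ∧
    (∀ v : ℕ, 2 ≤ v → Adm k l v → ∀ b : ℕ,
      (l : ℝ) * (C2 v : ℝ) + min (c * (C2 v : ℝ)) (A * e0 k l v) ≤ (b : ℝ) * (QQ v k : ℝ) →
      (b : ℝ) ≤ beta k l * (C2 v : ℝ) - min (c * (C2 v : ℝ)) (A * e2 k l v) → NB k l v b) ∧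
    (L ≤ l → ∀ v : ℕ, k + 2 ≤ v → Adm k l v → ∀ d : ℕ,
      IsLeast {d : ℕ | k - 1 ∣ 2 * d + l * (v - 1)} d → ∀ b : ℕ,
      (b : ℝ) ≤ beta k l * (C2 v : ℝ) - min (c * (C2 v : ℝ)) (A * e2 k l v) →
      (NB k l v b ↔ l * C2 v + d * v ≤ b * C2 k)) := by
  obtain ⟨c, hc, h5⟩ := five2 k hk
  obtain ⟨c', hc'⟩ := exists_nat_ge c
  obtain ⟨L, hL⟩ := low_all k hk c'
  refine ⟨c, hc, L, fun l hl => ?_⟩
  obtain ⟨A, hA, h⟩ := h5 l hl
  refine ⟨A, hA, h, fun hlL v hv hadm d hd b hb => ?_⟩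
  have hC : (0 : ℝ) < (C2 v : ℝ) := by exact_mod_cast c2pos (by omega : 2 ≤ v)
  constructor
  · intro hN
    refine nb_local (by omega) (by omega) hN (fun e he hdv => ?_)
    have h1 : d ≤ e := hd.2 hdv
    omega
  · intro hb1
    by_cases hbig : ((l : ℝ) + c) * (C2 v : ℝ) ≤ (b : ℝ) * (C2 k : ℝ)
    · refine h v (by omega) hadm b ?_ hb
      rw [qq_large (by omega) (by omega)]
      have := min_le_left (c * (C2 v : ℝ)) (A * e0 k l v)
      linarith
    · obtain ⟨d', hd'k, hd'⟩ := exists_d (by omega : 2 ≤ k) hadm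
      have h1 : d ≤ d' := hd.2 hd'
      refine hL l hlL v hv d (by omega) hd.1 b hb1 ?_
      have h2 : (b : ℝ) * (C2 k : ℝ) ≤ ((l : ℝ) + c') * (C2 v : ℝ) := by
        have h3 := mul_le_mul_of_nonneg_right hc' hC.le
        linarith [(not_le.1 hbig).le]
      exact_mod_cast h2

/-- The differences to the upper bound `l / (k - 1) C2 v` which occur for `v` points and some
concurrence divisible by `k - 1`. -/
def SV (k v : ℕ) : Set ℕ := {T | ∃ l, k - 1 ∣ l ∧ TP k l v T}

theorem tp_add {k l l' v T T' : ℕ} (hl : k - 1 ∣ l) (h : TP k l v T)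
    (h' : TP k l' v T') : TP k (l + l') v (T + T') := by
  obtain ⟨b, hb, hbT⟩ := h
  obtain ⟨b', hb', hbT'⟩ := h'
  refine ⟨b + b', nb_add hb hb', ?_⟩
  rw [Nat.add_div_of_dvd_right hl, Nat.add_mul]
  omega

theorem sv_top {k v : ℕ} (h : 1 ∈ SV k v) (T : ℕ) : T ∈ SV k v := by
  obtain ⟨l, hl, h1⟩ := h
  induction T with
  | zero =>
    refine ⟨0, dvd_zero _, 0, ?_, by simp⟩
    have := nb_mul (m := 0) h1.choose_spec.1
    simpa using this
  | succ T ih =>
    obtain ⟨l', hl', h2⟩ := ih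
    exact ⟨l' + l, dvd_add hl' hl, tp_add hl' h2 h1⟩

theorem one_mem {k a j q : ℕ} (hk : 2 ≤ k) (h1 : 1 ≤ a) (h2 : a < k)
    (h3 : j * (a * (k - a)) = q * (k - 1)) (h4 : j + 1 = q) {v : ℕ} (hv : 2 ≤ v) :
    1 ∈ SV k v := by
  refine ⟨j * (a * (k - a)), ⟨q, by rw [h3, mul_comm]⟩, ?_⟩
  have h5 : TP k (j * (a * (k - a))) 2 1 := by
    refine ⟨j * 1, nb_mul (pair_base h1 h2) j, ?_⟩
    rw [h3, Nat.mul_div_cancel _ (by omega : 0 < k - 1)]
    have : C2 2 = 1 := by decide
    rw [this]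
    omega
  exact tp_mono hk ⟨q, by rw [h3, mul_comm]⟩ ⟨q, by rw [h3, mul_comm]⟩ le_rfl hv h5

theorem sv_four {k v : ℕ} (hk : k = 4 ∨ k = 5 ∨ k = 7) (hv : 2 ≤ v) (T : ℕ) : T ∈ SV k v := by
  refine sv_top ?_ T
  rcases hk with rfl | rfl | rfl
  · exact one_mem (a := 2) (j := 3) (q := 4) (by norm_num) (by norm_num) (by norm_num)
      (by norm_num) (by norm_num) hv
  · exact one_mem (a := 2) (j := 2) (q := 3) (by norm_num) (by norm_num) (by norm_num)
      (by norm_num) (by norm_num) hv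
  · exact one_mem (a := 3) (j := 1) (q := 2) (by norm_num) (by norm_num) (by norm_num)
      (by norm_num) (by norm_num) hv

/-- The complete set of the numbers of blocks for all large concurrences divisible by `k - 1` and all
`v ≥ k + 2`, up to a finite set for every `v` which is the same for all large `v`. -/
theorem complete (k : ℕ) (hk : 4 ≤ k) : ∃ (L V : ℕ) (F : ℕ → Finset ℕ),
    (∀ l, L ≤ l → k - 1 ∣ l → ∀ v, k + 2 ≤ v → ∀ b,
      NB k l v b ↔ l * C2 v ≤ b * C2 k ∧ b ≤ l / (k - 1) * C2 v ∧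
        l / (k - 1) * C2 v - b ∉ F v) ∧
    (∀ v, V ≤ v → F v = F V) ∧ (k = 4 ∨ k = 5 ∨ k = 7 → ∀ v, 2 ≤ v → F v = ∅) := by
  classical
  obtain ⟨c, hc, L1, h⟩ := exact_low k hk
  obtain ⟨c', hc'⟩ := exists_nat_ge c
  obtain ⟨C, L2, V2, hmid⟩ := top_mid k (by omega) c'
  -- the bound for the differences which have to be looked at
  set B : ℕ → ℕ := fun v => if v < V2 then c' * C2 v + 1 else C with hB
  have hst : ∀ v, ∃ L : ℕ, ∀ l, L ≤ l → k - 1 ∣ l → ∀ T, T < B v → T ∈ SV k v → TP k l v T := by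
    intro v
    have h1 : ∀ T, ∃ L, T ∈ SV k v → ∀ l, L ≤ l → k - 1 ∣ l → TP k l v T := by
      intro T
      by_cases hT : T ∈ SV k v
      · obtain ⟨l0, hl0, hT0⟩ := hT
        exact ⟨l0, fun _ l hl hkl => tp_mono (by omega) hl0 hkl hl le_rfl hT0⟩
      · exact ⟨0, fun h => absurd h hT⟩
    choose L hL using h1
    refine ⟨∑ T ∈ Finset.range (B v), L T, fun l hl hkl T hT hTS => hL T hTS l (le_trans ?_ hl) hkl⟩
    exact Finset.single_le_sum (f := L) (fun _ _ => Nat.zero_le _) (Finset.mem_range.2 hT)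
  choose L3 hL3 using hst
  obtain ⟨F0, L4, V4, hF0, hst4⟩ := top_stable k (by omega) C
  set V : ℕ := V2 + V4 with hV
  have hmono : ∀ {v v' T : ℕ}, v ≤ v' → T ∈ SV k v → T ∈ SV k v' := by
    rintro v v' T hvv ⟨l, hl, hT⟩
    exact ⟨l, hl, tp_mono (by omega) hl hl le_rfl hvv hT⟩
  set F : ℕ → Finset ℕ := fun v => (Finset.range (B v)).filter (fun T => T ∉ SV k v) with hF
  have hFV : ∀ v, V ≤ v → ∀ T, T < C → (T ∈ SV k v ↔ T ∉ F0) := by
    intro v hv T hT
    constructor
    · rintro ⟨l, hl, hTP⟩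
      have h1 : TP k (l + L4 * (k - 1)) v T :=
        tp_mono (by omega) hl (dvd_add hl (Dvd.intro_left _ rfl)) (Nat.le_add_right _ _) le_rfl hTP
      refine (hst4 (l + L4 * (k - 1)) ?_ (dvd_add hl (Dvd.intro_left _ rfl)) v (by omega) T hT).1 h1
      have : L4 ≤ L4 * (k - 1) := Nat.le_mul_of_pos_right _ (by omega)
      omega
    · intro hTF
      have hd : k - 1 ∣ L4 * (k - 1) := Dvd.intro_left _ rfl
      refine ⟨L4 * (k - 1), hd, (hst4 _ ?_ hd v (by omega) T hT).2 hTF⟩
      exact Nat.le_mul_of_pos_right _ (by omega)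
  refine ⟨max (max 2 L1) (max L2 (∑ v ∈ Finset.range V, L3 v + L4)), V, F, ?_, ?_, ?_⟩
  · intro l hl hkl v hv b
    have hl2 : 2 ≤ l := ((le_max_left 2 L1).trans (le_max_left _ _)).trans hl
    have hlL1 : L1 ≤ l := ((le_max_right 2 L1).trans (le_max_left _ _)).trans hl
    have hlL2 : L2 ≤ l := ((le_max_left L2 _).trans (le_max_right _ _)).trans hl
    have hlL3 : ∑ v ∈ Finset.range V, L3 v + L4 ≤ l :=
      ((le_max_right L2 _).trans (le_max_right _ _)).trans hl
    obtain ⟨A, hA, -, hex⟩ := h l hl2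
    have hadm : Adm k l v := adm_of_dvd' (by omega) hkl v
    have hd : IsLeast {d : ℕ | k - 1 ∣ 2 * d + l * (v - 1)} 0 :=
      ⟨by simpa using hkl.mul_right (v - 1), fun _ _ => Nat.zero_le _⟩
    have hex' := hex hlL1 v hv hadm 0 hd b
    rw [Nat.zero_mul, Nat.add_zero] at hex'
    have hβ : beta k l = ((l / (k - 1) : ℕ) : ℝ) := by
      rw [beta_eq k l (by omega) hkl, Nat.cast_div hkl (by
        have : ((k - 1 : ℕ) : ℝ) ≠ 0 := by
          have : k - 1 ≠ 0 := by omega
          exact_mod_cast this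
        exact this), Nat.cast_sub (by omega), Nat.cast_one]
    have hC : (0 : ℝ) < (C2 v : ℝ) := by exact_mod_cast c2pos (by omega : 2 ≤ v)
    constructor
    · intro hN
      have h1 : l * C2 v ≤ b * C2 k := by
        have := nb_local (d := 0) (by omega) (by omega) hN
          (fun e he => absurd he (Nat.not_lt_zero e))
        rwa [Nat.zero_mul, Nat.add_zero] at this
      have h2 : b ≤ l / (k - 1) * C2 v := by
        have h3 := nb_le_beta (by omega) (by omega) hN
        rw [hβ] at h3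
        exact_mod_cast h3
      refine ⟨h1, h2, fun hmem => ?_⟩
      exact (Finset.mem_filter.1 hmem).2 ⟨l, hkl, b, hN, by omega⟩
    · rintro ⟨h1, h2, h3⟩
      set T : ℕ := l / (k - 1) * C2 v - b with hT
      have hbT : b + T = l / (k - 1) * C2 v := by omega
      have hfin : TP k l v T → NB k l v b := by
        rintro ⟨b', hb', hbT'⟩
        have : b' = b := by omega
        rwa [this] at hb'
      by_cases hTc : c' * C2 v < T
      · refine (hex' ?_).2 h1
        · rw [hβ]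
          have h4 : (b : ℝ) + T = ((l / (k - 1) : ℕ) : ℝ) * (C2 v : ℝ) := by exact_mod_cast hbT
          have h5 : (c' : ℝ) * (C2 v : ℝ) ≤ T := by exact_mod_cast hTc.le
          have h6 := min_le_left (c * (C2 v : ℝ)) (A * e2 k l v)
          have h7 := mul_le_mul_of_nonneg_right hc' hC.le
          linarith
      · rw [not_lt] at hTc
        by_cases hTB : T < B v
        · have hTS : T ∈ SV k v := by
            by_contra hcon
            exact h3 (Finset.mem_filter.2 ⟨Finset.mem_range.2 hTB, hcon⟩)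
          by_cases hvV : v < V
          · refine hfin (hL3 v l (le_trans ?_ hlL3) hkl T hTB hTS)
            have : L3 v ≤ ∑ v ∈ Finset.range V, L3 v :=
              Finset.single_le_sum (f := L3) (fun _ _ => Nat.zero_le _) (Finset.mem_range.2 hvV)
            omega
          · have hBv : B v = C := by
              rw [hB]
              exact if_neg (by omega)
            rw [hBv] at hTB
            exact hfin ((hst4 l (by omega) hkl v (by omega) T hTB).2
              ((hFV v (by omega) T hTB).1 hTS))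
        · have hvV2 : ¬ v < V2 := by
            intro hcon
            apply hTB
            have : B v = c' * C2 v + 1 := by
              rw [hB]
              exact if_pos hcon
            omega
          have hBv : B v = C := by
            rw [hB]
            exact if_neg hvV2
          exact hfin (hmid l hlL2 hkl v (by omega) T (by omega) hTc)
  · intro v hv
    have e1 : B v = C := if_neg (by omega)
    have e2 : B V = C := if_neg (by omega)
    ext T
    rw [hF]
    simp only [Finset.mem_filter, Finset.mem_range, e1, e2]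
    constructor
    · rintro ⟨h1, h2⟩
      exact ⟨h1, fun h3 => h2 ((hFV v hv T h1).2 ((hFV V le_rfl T h1).1 h3))⟩
    · rintro ⟨h1, h2⟩
      exact ⟨h1, fun h3 => h2 ((hFV V le_rfl T h1).2 ((hFV v hv T h1).1 h3))⟩
  · intro hk7 v hv
    rw [Finset.eq_empty_iff_forall_notMem]
    intro T hT
    exact (Finset.mem_filter.1 hT).2 (sv_four hk7 hv T)

end Pool.Agent.Helper69.QH
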