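import Pool.Agent.Helper69.QH.Defs

/-!
Project QH, piece DS: from multiplicities of `k`-sets to a design.
-/

set_option autoImplicit false

namespace Pool.Agent.Helper69.QH

open Pool.Agent.Helper69.WV Pool.Agent.Helper53.BN Pool.Agent.Helper69.QB Pool.Agent.Helper69.QC

private theorem DS_cc {ι V : Type} [Fintype ι] {k : ℕ} (g : ι → Fin k → V) (x y : V) :
    cc g x y = ∑ b, Nat.card {q : Fin k × Fin k // g b q.1 = x ∧ g b q.2 = y} := by
  unfold cc
  rw [Nat.card_congr (Equiv.subtypeProdEquivSigmaSubtype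
    (fun (b : ι) (q : Fin k × Fin k) => g b q.1 = x ∧ g b q.2 = y)), Nat.card_sigma]

private theorem DS_one {k : ℕ} {V : Type} [DecidableEq V] (e : Fin k → V) (he : Function.Injective e)
    (A : Finset V) (hA : ∀ x, x ∈ A ↔ ∃ i, e i = x) (x y : V) :
    Nat.card {q : Fin k × Fin k // e q.1 = x ∧ e q.2 = y} = if x ∈ A ∧ y ∈ A then 1 else 0 := by
  split_ifs with h
  · obtain ⟨i, rfl⟩ := (hA x).1 h.1
    obtain ⟨j, rfl⟩ := (hA y).1 h.2
    rw [Nat.card_eq_one_iff_unique]
    refine ⟨⟨?_⟩, ⟨⟨(i, j), rfl, rfl⟩⟩⟩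
    rintro ⟨⟨a, b⟩, h1, h2⟩ ⟨⟨c, d⟩, h3, h4⟩
    simp only at h1 h2 h3 h4
    have e1 : a = c := he (h1.trans h3.symm)
    have e2 : b = d := he (h2.trans h4.symm)
    subst e1 e2
    rfl
  · rw [Nat.card_eq_zero]
    left
    refine ⟨?_⟩
    rintro ⟨⟨a, b⟩, h1, h2⟩
    exact h ⟨(hA x).2 ⟨a, h1⟩, (hA y).2 ⟨b, h2⟩⟩

private theorem DS_card {N n k : ℕ} {A : Finset (Fin N)} (h : A ∈ Va N n k) : A.card = k :=
  (Finset.mem_filter.1 h).2.1

private theorem DS_hole {N n k : ℕ} {A : Finset (Fin N)} (h : A ∈ Va N n k) {x y : Fin N} (hxy : x ≠ y)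
    (hx : x ∈ A) (hy : y ∈ A) : x.val < n ∨ y.val < n := by
  by_contra hc
  push Not at hc
  have h1 := (Finset.mem_filter.1 h).2.2
  have h2 : 1 < (A.filter fun x => n ≤ x.val).card := Finset.one_lt_card.2
    ⟨x, Finset.mem_filter.2 ⟨hx, hc.1⟩, y, Finset.mem_filter.2 ⟨hy, hc.2⟩, hxy⟩
  omega

/-- The labels of the groups. -/
private def DS_lab (N n : ℕ) (x : Fin N) : Option (Fin n) := if h : x.val < n then some ⟨x.val, h⟩ else none

private def DS_eqv {N n : ℕ} (hnN : n ≤ N) : Fin N ≃ (Fin n × Fin 1) ⊕ Fin (N - n) :=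
  ((finCongr (by omega : N = n + (N - n))).trans finSumFinEquiv.symm).trans
    (Equiv.sumCongr (Equiv.prodUnique (Fin n) (Fin 1)).symm (Equiv.refl _))

private theorem DS_lab_eq {N n : ℕ} (hnN : n ≤ N) (z : (Fin n × Fin 1) ⊕ Fin (N - n)) :
    DS_lab N n ((DS_eqv hnN).symm z) = hol n 1 (N - n) z := by
  rcases z with ⟨a, u⟩ | b
  · have h1 : ((DS_eqv hnN).symm (Sum.inl (a, u))).val = a.val := by
      simp [DS_eqv]
    have h2 : ((DS_eqv hnN).symm (Sum.inl (a, u))).val < n := by
      rw [h1]
      exact a.isLt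
    unfold DS_lab
    rw [dif_pos h2]
    show some _ = some a
    exact congrArg some (Fin.ext h1)
  · have h1 : ((DS_eqv hnN).symm (Sum.inr b)).val = n + b.val := by
      simp [DS_eqv]
    have h2 : ¬ ((DS_eqv hnN).symm (Sum.inr b)).val < n := by
      rw [h1]
      omega
    unfold DS_lab
    rw [dif_neg h2]
    rfl

/-- The blocks are: `m A` copies of an enumeration `Fin k → Fin N` of the set `A` for all `A ∈ Va N n k`
(for instance `A.orderEmbOfFin`), and the blocks `f b`, whose points are not in the hole. The index type is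
`(Σ A : Va N n k, Fin (m A)) ⊕ ι`. The concurrence of
`x ≠ y` is `∑ m A` over the `A` with `x, y ∈ A`, plus `cc f x y`. Two points of the hole have
concurrence `0` (a set in `Va` contains at most one point of the hole). The points `Fin N` are first
labelled by `x ↦ if x < n then some x else none`; then `DC.congr` with an equivalence
`Fin N ≃ (Fin n × Fin 1) ⊕ Fin (N - n)` (`finSumFinEquiv`, `Equiv.prodPUnit` or similar). -/
theorem design {N n k l : ℕ} (hk : 2 ≤ k) (hnN : n ≤ N) (m : Finset (Fin N) → ℕ) {ι : Type}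
    [Finite ι] (f : ι → Fin k → Fin N) (hf : ∀ b, ∃ i j, f b i ≠ f b j)
    (hfX : ∀ b i, (f b i).val < n)
    (h : ∀ x y : Fin N, x ≠ y → (x.val < n ∨ y.val < n) →
      ∑ A ∈ (Va N n k).filter (fun A => x ∈ A ∧ y ∈ A), m A + cc f x y = l) :
    DC k l (∑ A ∈ Va N n k, m A + Nat.card ι) (hol n 1 (N - n)) := by
  classical
  have : Fintype ι := Fintype.ofFinite ι
  have hmain : DC k l (∑ A ∈ Va N n k, m A + Nat.card ι) (DS_lab N n) := by
    let g : (Σ A : {A // A ∈ Va N n k}, Fin (m A.1)) ⊕ ι → Fin k → Fin N :=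
      Sum.elim (fun s => s.1.1.orderEmbOfFin (DS_card s.1.2)) f
    have hcc : ∀ x y : Fin N, cc g x y =
        ∑ A ∈ (Va N n k).filter (fun A => x ∈ A ∧ y ∈ A), m A + cc f x y := by
      intro x y
      rw [DS_cc g x y, DS_cc f x y, Fintype.sum_sum_type]
      congr 1
      rw [Fintype.sum_sigma, Finset.sum_filter, ← Finset.sum_coe_sort (Va N n k)]
      refine Finset.sum_congr rfl fun A _ => ?_
      have h1 : ∀ r : Fin (m A.1), Nat.card {q : Fin k × Fin k //
          g (Sum.inl ⟨A, r⟩) q.1 = x ∧ g (Sum.inl ⟨A, r⟩) q.2 = y} =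
          if x ∈ A.1 ∧ y ∈ A.1 then 1 else 0 := by
        intro r
        refine DS_one (A.1.orderEmbOfFin (DS_card A.2)) (A.1.orderEmbOfFin (DS_card A.2)).injective
          A.1 (fun z => ?_) x y
        have h2 := Finset.range_orderEmbOfFin A.1 (DS_card A.2)
        constructor
        · intro hz
          have h3 : z ∈ Set.range (A.1.orderEmbOfFin (DS_card A.2)) := by
            rw [h2]
            exact hz
          exact h3
        · intro hz
          have h3 : z ∈ Set.range (A.1.orderEmbOfFin (DS_card A.2)) := hz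
          rw [h2] at h3
          exact h3
      rw [Finset.sum_congr rfl fun r _ => h1 r, Finset.sum_const, Finset.card_univ, Fintype.card_fin]
      split_ifs <;> simp
    refine ⟨_, inferInstance, g, ?_, ?_, ?_, ?_⟩
    · rintro (⟨A, r⟩ | b)
      · refine ⟨⟨0, by omega⟩, ⟨1, by omega⟩, fun he => ?_⟩
        have h1 := (A.1.orderEmbOfFin (DS_card A.2)).injective he
        have h2 := congrArg Fin.val h1
        simp at h2
      · exact hf b
    · intro x y hxy
      have hne : x ≠ y := fun h => hxy (congrArg _ h)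
      have hlt : x.val < n ∨ y.val < n := by
        by_contra hc
        push Not at hc
        refine hxy ?_
        unfold DS_lab
        rw [dif_neg (by omega), dif_neg (by omega)]
      rw [hcc x y]
      exact h x y hne hlt
    · intro x y hne hxy
      have hge : ¬ x.val < n ∧ ¬ y.val < n := by
        unfold DS_lab at hxy
        by_cases h1 : x.val < n
        · rw [dif_pos h1] at hxy
          by_cases h2 : y.val < n
          · rw [dif_pos h2] at hxy
            have h4 : (⟨x.val, h1⟩ : Fin n) = ⟨y.val, h2⟩ := Option.some.inj hxy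
            have h3 : x.val = y.val := Fin.mk.inj h4
            exact absurd (Fin.ext h3 : x = y) hne
          · rw [dif_neg h2] at hxy
            exact absurd hxy (by simp)
        · refine ⟨h1, fun h2 => ?_⟩
          rw [dif_neg h1, dif_pos h2] at hxy
          exact absurd hxy (by simp)
      rw [hcc x y]
      have h1 : (Va N n k).filter (fun A => x ∈ A ∧ y ∈ A) = ∅ := by
        refine Finset.filter_eq_empty_iff.2 fun A hA hxyA => ?_
        rcases DS_hole hA hne hxyA.1 hxyA.2 with h2 | h2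
        · exact hge.1 h2
        · exact hge.2 h2
      rw [h1, Finset.sum_empty, zero_add]
      exact cc_eq_zero f x y fun b i j hi hj => by
        have h2 := hfX b i
        rw [hi] at h2
        exact hge.1 h2
    · rw [Nat.card_sum, Nat.card_eq_fintype_card, Fintype.card_sigma]
      congr 1
      rw [← Finset.sum_coe_sort (Va N n k)]
      refine Finset.sum_congr rfl fun A _ => ?_
      rw [Fintype.card_fin]
  refine hmain.congr (DS_eqv hnN) fun x y => ?_
  rw [← DS_lab_eq hnN (DS_eqv hnN x), ← DS_lab_eq hnN (DS_eqv hnN y), Equiv.symm_apply_apply,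
    Equiv.symm_apply_apply]

/-- Double counting of the ordered pairs of points of the sets. -/
theorem count_va {N n k : ℕ} (hk : 2 ≤ k) (m : Finset (Fin N) → ℕ) :
    ∑ x : Fin N, ∑ y : Fin N, (if x ≠ y then
      ∑ A ∈ (Va N n k).filter (fun A => x ∈ A ∧ y ∈ A), m A else 0) =
      (k * (k - 1)) * ∑ A ∈ Va N n k, m A := by
  classical
  have h1 : ∀ x y : Fin N, (if x ≠ y then
      ∑ A ∈ (Va N n k).filter (fun A => x ∈ A ∧ y ∈ A), m A else 0) =
      ∑ A ∈ Va N n k, if (x, y) ∈ A.offDiag then m A else 0 := by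
    intro x y
    by_cases hxy : x = y
    · rw [if_neg (by simpa using hxy)]
      refine (Finset.sum_eq_zero fun A _ => ?_).symm
      rw [if_neg]
      intro h
      exact (Finset.mem_offDiag.1 h).2.2 hxy
    · rw [if_pos hxy, Finset.sum_filter]
      refine Finset.sum_congr rfl fun A _ => ?_
      simp only [Finset.mem_offDiag]
      by_cases h : x ∈ A ∧ y ∈ A
      · rw [if_pos h, if_pos ⟨h.1, h.2, hxy⟩]
      · rw [if_neg h, if_neg fun h2 => h ⟨h2.1, h2.2.1⟩]
  simp only [h1]
  have h2 : ∑ x : Fin N, ∑ y : Fin N, ∑ A ∈ Va N n k, (if (x, y) ∈ A.offDiag then m A else 0) =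
      ∑ A ∈ Va N n k, ∑ p : Fin N × Fin N, if p ∈ A.offDiag then m A else 0 := by
    rw [← Fintype.sum_prod_type' (f := fun x y => ∑ A ∈ Va N n k, (if (x, y) ∈ A.offDiag then m A else 0)),
      Finset.sum_comm]
  rw [h2, Finset.mul_sum]
  refine Finset.sum_congr rfl fun A hA => ?_
  rw [← Finset.sum_filter, Finset.sum_const, smul_eq_mul]
  congr 1
  have h3 : (Finset.univ.filter fun p : Fin N × Fin N => p ∈ A.offDiag) = A.offDiag := by
    ext p
    simp
  rw [h3, Finset.offDiag_card, DS_card hA, Nat.mul_sub, Nat.mul_one]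

end Pool.Agent.Helper69.QH
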