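import Pool.Agent.Helper69.QH.Defs

/-!
Project QH, piece SB: blocks with one double point.
-/

set_option autoImplicit false

namespace Pool.Agent.Helper69.QH

open Pool.Agent.Helper69.WV Pool.Agent.Helper53.BN Pool.Agent.Helper69.QB Pool.Agent.Helper69.QC

/-- The block `B i` contains the point `i` twice and `k - 2` other points `< n` once: for instance
`B i j = (i + (j - 1)) mod n` with `j - 1` in the natural numbers (so `B i 0 = B i 1 = i`). -/
theorem special {N n k : ℕ} (hk : 3 ≤ k) (hn : k ≤ n) (hnN : n ≤ N) :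
    ∃ B : Fin n → Fin k → Fin N, (∀ i j, (B i j).val < n) ∧
      (∀ i, ∃ j j', B i j ≠ B i j') ∧
      (∀ i, Nat.card {j // B i j = Fin.castLE hnN i} = 2) ∧
      ∀ i x, x ≠ Fin.castLE hnN i → Nat.card {j // B i j = x} ≤ 1 := by
  have hn0 : 0 < n := by omega
  have hlt : ∀ a : ℕ, a % n < n := fun a => Nat.mod_lt a hn0
  let B : Fin n → Fin k → Fin N := fun i j => ⟨(i.val + (j.val - 1)) % n, (hlt _).trans_le hnN⟩
  have hB : ∀ i j, (B i j).val = (i.val + (j.val - 1)) % n := fun _ _ => rfl
  -- equal values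
  have key : ∀ (i : Fin n) (a b : ℕ), a < n → b < n → (i.val + a) % n = (i.val + b) % n →
      a = b := by
    intro i a b ha hb h
    have h1 : a ≡ b [MOD n] := Nat.ModEq.add_left_cancel' i.val h
    exact Nat.ModEq.eq_of_lt_of_lt h1 ha hb
  have hself : ∀ (i : Fin n), (i.val + 0) % n = i.val := fun i => by
    rw [add_zero]
    exact Nat.mod_eq_of_lt i.isLt
  have hiff : ∀ (i : Fin n) (j : Fin k), B i j = Fin.castLE hnN i ↔ j.val - 1 = 0 := by
    intro i j
    rw [Fin.ext_iff, hB, Fin.val_castLE]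
    constructor
    · intro h
      exact key i _ _ (by have := j.isLt; omega) hn0 (h.trans (hself i).symm)
    · intro h
      rw [h]
      exact hself i
  refine ⟨B, fun i j => by rw [hB]; exact hlt _, fun i => ?_, fun i => ?_, fun i x hx => ?_⟩
  · refine ⟨⟨0, by omega⟩, ⟨2, by omega⟩, fun h => ?_⟩
    have h1 : B i ⟨0, by omega⟩ = Fin.castLE hnN i := (hiff _ _).2 rfl
    rw [h1] at h
    have h2 := (hiff _ _).1 h.symm
    simp at h2
  · have e : Nat.card {j // B i j = Fin.castLE hnN i} =
        (Finset.univ.filter fun j : Fin k => B i j = Fin.castLE hnN i).card := by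
      rw [Nat.card_eq_fintype_card, Fintype.card_subtype]
    rw [e]
    have e2 : (Finset.univ.filter fun j : Fin k => B i j = Fin.castLE hnN i) =
        {⟨0, by omega⟩, ⟨1, by omega⟩} := by
      ext j
      simp only [Finset.mem_filter, Finset.mem_univ, true_and, Finset.mem_insert,
        Finset.mem_singleton, hiff, Fin.ext_iff]
      omega
    rw [e2, Finset.card_pair]
    simp
  · rw [Finite.card_le_one_iff_subsingleton]
    refine ⟨fun a b => ?_⟩
    obtain ⟨j, hj⟩ := a
    obtain ⟨j', hj'⟩ := b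
    have h1 : j.val - 1 ≠ 0 := fun h => hx (hj.symm.trans ((hiff i j).2 h))
    have h2 : j'.val - 1 ≠ 0 := fun h => hx (hj'.symm.trans ((hiff i j').2 h))
    have h3 : (B i j).val = (B i j').val := by rw [hj, hj']
    rw [hB, hB] at h3
    have h4 := key i _ _ (by have := j.isLt; omega) (by have := j'.isLt; omega) h3
    have h5 : j = j' := Fin.ext (by omega)
    subst h5
    rfl

/-- The concurrences of `D i` copies of the block `B i` for all `i`. -/
noncomputable def sw {N n k : ℕ} (B : Fin n → Fin k → Fin N) (D : Fin n → ℕ) (x y : Fin N) : ℕ :=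
  ∑ i, D i * (Nat.card {j // B i j = x} * Nat.card {j // B i j = y})

/-- The triples `(b, i, j)` of `cc`, counted for every block. -/
theorem sw_cc {N n k : ℕ} (B : Fin n → Fin k → Fin N) (D : Fin n → ℕ) (x y : Fin N) :
    cc (fun b : (Σ i : Fin n, Fin (D i)) => B b.1) x y = sw B D x y := by
  have e : {p : (Σ i : Fin n, Fin (D i)) × Fin k × Fin k //
      (fun b : (Σ i : Fin n, Fin (D i)) => B b.1) p.1 p.2.1 = x ∧
        (fun b : (Σ i : Fin n, Fin (D i)) => B b.1) p.1 p.2.2 = y} ≃
      Σ i : Fin n, Fin (D i) × ({j // B i j = x} × {j // B i j = y}) :=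
    { toFun := fun p => ⟨p.1.1.1, p.1.1.2, ⟨p.1.2.1, p.2.1⟩, ⟨p.1.2.2, p.2.2⟩⟩
      invFun := fun q => ⟨(⟨q.1, q.2.1⟩, q.2.2.1.1, q.2.2.2.1), q.2.2.1.2, q.2.2.2.2⟩
      left_inv := fun p => rfl
      right_inv := fun q => rfl }
  unfold cc sw
  rw [Nat.card_congr e, Nat.card_sigma]
  refine Finset.sum_congr rfl fun i _ => ?_
  rw [Nat.card_prod, Nat.card_prod, Nat.card_eq_fintype_card, Fintype.card_fin]

/-- The multiplicities add up to `k`. -/
private theorem SB_sum {N n k : ℕ} (B : Fin n → Fin k → Fin N) (i : Fin n) :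
    ∑ x : Fin N, Nat.card {j // B i j = x} = k := by
  have h : ∀ x : Fin N, Nat.card {j // B i j = x} =
      (Finset.univ.filter fun j : Fin k => B i j = x).card := fun x => by
    rw [Nat.card_eq_fintype_card, Fintype.card_subtype]
  simp only [h]
  have h2 := Finset.card_eq_sum_card_fiberwise (f := fun j : Fin k => B i j)
    (s := Finset.univ) (t := Finset.univ) (fun _ _ => Finset.mem_coe.2 (Finset.mem_univ _))
  rw [Finset.card_univ, Fintype.card_fin] at h2
  exact h2.symm

/-- The sum over the other points. -/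
private theorem SB_row {N n k : ℕ} (B : Fin n → Fin k → Fin N) (D : Fin n → ℕ) (x : Fin N) :
    (∑ y : Fin N, if x ≠ y then (sw B D x y : ℤ) else 0) =
      ∑ i, (D i : ℤ) * ((Nat.card {j // B i j = x} : ℤ) *
        ((k : ℤ) - (Nat.card {j // B i j = x} : ℤ))) := by
  have h1 : ∀ y : Fin N, (if x ≠ y then (sw B D x y : ℤ) else 0) =
      (sw B D x y : ℤ) - (if x = y then (sw B D x y : ℤ) else 0) := by
    intro y
    by_cases h : x = y
    · simp [h]
    · simp [h]
  have h2 : ∀ y : Fin N, (sw B D x y : ℤ) = ∑ i, (D i : ℤ) * ((Nat.card {j // B i j = x} : ℤ) *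
      (Nat.card {j // B i j = y} : ℤ)) := by
    intro y
    unfold sw
    push_cast
    rfl
  simp only [h1]
  rw [Finset.sum_sub_distrib, Finset.sum_ite_eq Finset.univ x (fun y => (sw B D x y : ℤ)),
    if_pos (Finset.mem_univ _)]
  simp only [h2]
  rw [Finset.sum_comm, ← Finset.sum_sub_distrib]
  refine Finset.sum_congr rfl fun i _ => ?_
  have h3 : ∑ y : Fin N, (Nat.card {j // B i j = y} : ℤ) = k := by
    have := SB_sum B i
    exact_mod_cast this
  rw [← Finset.mul_sum, ← Finset.mul_sum, h3]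
  ring

/-- `∑ y, Nat.card {j // B i j = y} = k`, so with `r i x = Nat.card {j // B i j = x}`:
`∑ y ≠ x, sw B D x y = ∑ i, D i r i x (k - r i x)`, where `r (k - r)` is `0`, `k - 1` or `2 (k - 2)` for `r = 0, 1, 2`,
and `r i x = 2` exactly for `x = i`. For `x` in the hole all `r i x = 0`. -/
theorem sw_deg {N n k : ℕ} (hk : 3 ≤ k) (hnN : n ≤ N) (B : Fin n → Fin k → Fin N)
    (h1 : ∀ i j, (B i j).val < n) (h2 : ∀ i, Nat.card {j // B i j = Fin.castLE hnN i} = 2)
    (h3 : ∀ i x, x ≠ Fin.castLE hnN i → Nat.card {j // B i j = x} ≤ 1) (D : Fin n → ℕ) :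
    (∀ x : Fin n, ((k - 1 : ℕ) : ℤ) ∣
      (∑ y : Fin N, if Fin.castLE hnN x ≠ y then (sw B D (Fin.castLE hnN x) y : ℤ) else 0) +
        2 * (D x : ℤ)) ∧
    (∀ x y : Fin N, n ≤ x.val → sw B D x y = 0) ∧
    ∑ x : Fin N, ∑ y : Fin N, (if x ≠ y then sw B D x y else 0) =
      (∑ i, D i) * (k * (k - 1) - 2) := by
  have hR : ∀ (i : Fin n) (x : Fin N), (Nat.card {j // B i j = x} : ℤ) ^ 2 =
      (Nat.card {j // B i j = x} : ℤ) + (if x = Fin.castLE hnN i then 2 else 0) := by
    intro i x
    by_cases h : x = Fin.castLE hnN i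
    · rw [if_pos h, h, h2 i]
      norm_num
    · rw [if_neg h]
      have h4 := h3 i x h
      rcases Nat.le_one_iff_eq_zero_or_eq_one.1 h4 with h5 | h5
      · rw [h5]
        norm_num
      · rw [h5]
        norm_num
  have hRk : ∀ (i : Fin n) (x : Fin N), (Nat.card {j // B i j = x} : ℤ) *
      ((k : ℤ) - (Nat.card {j // B i j = x} : ℤ)) =
      (Nat.card {j // B i j = x} : ℤ) * ((k : ℤ) - 1) -
        (if x = Fin.castLE hnN i then 2 else 0) := by
    intro i x
    have := hR i x
    linear_combination -this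
  refine ⟨fun x => ?_, fun x y hx => ?_, ?_⟩
  · rw [SB_row]
    have e1 : (∑ i, (D i : ℤ) * ((Nat.card {j // B i j = Fin.castLE hnN x} : ℤ) *
        ((k : ℤ) - (Nat.card {j // B i j = Fin.castLE hnN x} : ℤ)))) + 2 * (D x : ℤ) =
        (∑ i, (D i : ℤ) * (Nat.card {j // B i j = Fin.castLE hnN x} : ℤ)) * ((k : ℤ) - 1) := by
      have e0 : ∀ i : Fin n, (D i : ℤ) * ((Nat.card {j // B i j = Fin.castLE hnN x} : ℤ) *
          ((k : ℤ) - (Nat.card {j // B i j = Fin.castLE hnN x} : ℤ))) =
          (D i : ℤ) * (Nat.card {j // B i j = Fin.castLE hnN x} : ℤ) * ((k : ℤ) - 1) -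
            (D i : ℤ) * (if Fin.castLE hnN x = Fin.castLE hnN i then 2 else 0) := by
        intro i
        rw [hRk]
        ring
      rw [Finset.sum_congr rfl fun i _ => e0 i, Finset.sum_sub_distrib]
      have e2 : (∑ i, (D i : ℤ) * (if Fin.castLE hnN x = Fin.castLE hnN i then 2 else 0)) =
          2 * (D x : ℤ) := by
        rw [Finset.sum_eq_single x]
        · rw [if_pos rfl]
          ring
        · intro i _ hi
          rw [if_neg (fun h => hi (Fin.castLE_injective hnN h).symm), mul_zero]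
        · intro h
          exact absurd (Finset.mem_univ _) h
      rw [e2, sub_add_cancel, Finset.sum_mul]
    rw [e1]
    have e3 : ((k - 1 : ℕ) : ℤ) = (k : ℤ) - 1 := by
      rw [Nat.cast_sub (by omega)]
      norm_num
    rw [e3]
    exact Dvd.intro_left _ rfl
  · unfold sw
    refine Finset.sum_eq_zero fun i _ => ?_
    have h4 : Nat.card {j // B i j = x} = 0 := by
      rw [Nat.card_eq_zero]
      left
      refine ⟨fun j => ?_⟩
      have := h1 i j.1
      rw [j.2] at this
      omega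
    rw [h4, zero_mul, mul_zero]
  · have hk2 : 2 ≤ k * (k - 1) := by
      have : 3 * 2 ≤ k * (k - 1) := Nat.mul_le_mul hk (by omega)
      omega
    have hcast : ((k * (k - 1) - 2 : ℕ) : ℤ) = (k : ℤ) * ((k : ℤ) - 1) - 2 := by
      rw [Nat.cast_sub hk2, Nat.cast_mul, Nat.cast_sub (by omega)]
      norm_num
    have hz : ((∑ x : Fin N, ∑ y : Fin N, (if x ≠ y then sw B D x y else 0) : ℕ) : ℤ) =
        (((∑ i, D i) * (k * (k - 1) - 2) : ℕ) : ℤ) := by
      rw [Nat.cast_mul, hcast, Nat.cast_sum, Nat.cast_sum]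
      have e4 : ∀ x : Fin N, ((∑ y : Fin N, (if x ≠ y then sw B D x y else 0) : ℕ) : ℤ) =
          ∑ i, (D i : ℤ) * ((Nat.card {j // B i j = x} : ℤ) * ((k : ℤ) - 1) -
            (if x = Fin.castLE hnN i then 2 else 0)) := by
        intro x
        have e5 := SB_row B D x
        simp only [hRk] at e5
        rw [← e5, Nat.cast_sum]
        refine Finset.sum_congr rfl fun y _ => ?_
        split_ifs <;> simp
      simp only [e4]
      rw [Finset.sum_comm, Finset.sum_mul]
      refine Finset.sum_congr rfl fun i _ => ?_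
      rw [← Finset.mul_sum, Finset.sum_sub_distrib, ← Finset.sum_mul,
        Finset.sum_ite_eq' Finset.univ (Fin.castLE hnN i) (fun _ => (2 : ℤ)),
        if_pos (Finset.mem_univ _)]
      have h6 : ∑ y : Fin N, (Nat.card {j // B i j = y} : ℤ) = k := by
        have := SB_sum B i
        exact_mod_cast this
      rw [h6]
    exact_mod_cast hz

end Pool.Agent.Helper69.QH
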