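import Pool.Agent.Helper69.QH.CO
import Pool.Agent.Helper69.QH.DS
import Pool.Agent.Helper69.QH.SB

/-!
Project QH, piece CD: designs with a hole in which every point has a given number of double
occurrences.
-/

set_option autoImplicit false

namespace Pool.Agent.Helper69.QH

open Pool.Agent.Helper69.WV Pool.Agent.Helper53.BN Pool.Agent.Helper69.QB Pool.Agent.Helper69.QC

private theorem CD_row {n h : ℕ} (l : ℕ) (s : Fin (n + h) → Fin (n + h) → ℕ) (x : Fin (n + h))
    (hx : x.val < n) :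
    ∑ y, uu n l s x y = ((l * (n - 1 + h) : ℕ) : ℤ) -
      ∑ y : Fin (n + h), (if x ≠ y then (s x y : ℤ) else 0) := by
  have h1 : ∀ y : Fin (n + h), uu n l s x y =
      (if x ≠ y then (l : ℤ) else 0) - (if x ≠ y then (s x y : ℤ) else 0) := by
    intro y
    unfold uu
    by_cases hxy : x ≠ y
    · rw [if_pos ⟨hxy, Or.inl hx⟩, if_pos hxy, if_pos hxy]
    · rw [if_neg (fun hh => hxy hh.1), if_neg hxy, if_neg hxy, sub_zero]
  rw [Finset.sum_congr rfl fun y _ => h1 y, Finset.sum_sub_distrib]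
  congr 1
  rw [← Finset.sum_filter, Finset.sum_const, Finset.filter_ne, Finset.card_erase_of_mem
    (Finset.mem_univ _), Finset.card_univ, Fintype.card_fin, nsmul_eq_mul]
  have h2 : n + h - 1 = n - 1 + h := by omega
  rw [h2]
  push_cast
  ring

private theorem CD_hole {n h : ℕ} (l : ℕ) (s : Fin (n + h) → Fin (n + h) → ℕ) (x : Fin (n + h))
    (hx : n ≤ x.val) (hs : ∀ y, s x y = 0) :
    ∑ y, uu n l s x y = ((l * n : ℕ) : ℤ) := by
  have h1 : ∀ y : Fin (n + h), uu n l s x y = if y.val < n then (l : ℤ) else 0 := by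
    intro y
    unfold uu
    by_cases hy : y.val < n
    · rw [if_pos ⟨fun e => by rw [e] at hx; omega, Or.inr hy⟩, if_pos hy, hs y]
      simp
    · rw [if_neg (fun hh => by rcases hh.2 with h3 | h3 <;> omega), if_neg hy]
  rw [Finset.sum_congr rfl fun y _ => h1 y, Fin.sum_univ_add]
  simp [mul_comm]

private theorem CD_total {n h : ℕ} (l : ℕ) (s : Fin (n + h) → Fin (n + h) → ℕ)
    (hs : ∀ x y : Fin (n + h), n ≤ x.val → s x y = 0) :
    ∑ x, ∑ y, uu n l s x y = ((l * (n * (n - 1) + 2 * (n * h)) : ℕ) : ℤ) -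
      ∑ x : Fin (n + h), ∑ y : Fin (n + h), (if x ≠ y then (s x y : ℤ) else 0) := by
  have h1 : ∀ x : Fin (n + h), ∑ y, uu n l s x y =
      (if x.val < n then ((l * (n - 1 + h) : ℕ) : ℤ) else ((l * n : ℕ) : ℤ)) -
        ∑ y : Fin (n + h), (if x ≠ y then (s x y : ℤ) else 0) := by
    intro x
    by_cases hx : x.val < n
    · rw [if_pos hx, CD_row l s x hx]
    · have hx' : n ≤ x.val := by omega
      rw [if_neg hx, CD_hole l s x hx' fun y => hs x y hx']
      have : ∑ y : Fin (n + h), (if x ≠ y then (s x y : ℤ) else 0) = 0 := by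
        refine Finset.sum_eq_zero fun y _ => ?_
        rw [hs x y hx']
        simp
      rw [this, sub_zero]
  rw [Finset.sum_congr rfl fun x _ => h1 x, Finset.sum_sub_distrib]
  congr 1
  rw [Fin.sum_univ_add]
  simp only [Fin.val_castAdd, Fin.is_lt, if_true, Fin.val_natAdd, Finset.sum_const,
    Finset.card_univ, Fintype.card_fin, nsmul_eq_mul]
  have h2 : ∀ j : Fin h, ¬ (n + j.val < n) := fun j => by omega
  simp only [h2, if_false, Finset.sum_const, Finset.card_univ, Fintype.card_fin, nsmul_eq_mul]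
  push_cast
  ring

/-- `N = n + h`. `B` from `special`; `σ = Fin n → Fin (M + 1)`, `s i = sw B (fun a => (i a).val)`; `L` from `cone`.
Conditions of `cone` from `sw_deg`: for `x < n`: `∑ y, uu n l s x y = l (n - 1 + h) - ∑ y ≠ x, sw`, which is
`l (n - 1 + h) + 2 D x` modulo `k - 1`; for `x` in the hole (then `h ≠ 0`) it is `l n`; the total sum is
`l (n (n - 1) + 2 n h) - (∑ D) (k (k - 1) - 2)`. The design is `design` with `ι = Σ i, Fin (D i)`, `f b = B b.1` and
`sw_cc`; the number of blocks by `count_va`: `k (k - 1) ∑ m A = l (n (n - 1) + 2 n h) - (∑ D) (k (k - 1) - 2)` and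
`c = ∑ m A + ∑ D`. -/
theorem cone_design (k n h M : ℕ) (hk : 3 ≤ k) (hn : k + 2 ≤ n) (hh : (k - 2) * h + 1 < n) :
    ∃ L : ℕ, ∀ l, L ≤ l → ∀ D : Fin n → ℕ, (∀ i, D i ≤ M) →
      (∀ i, k - 1 ∣ 2 * D i + l * (n - 1 + h)) → (h = 0 ∨ k - 1 ∣ l * n) →
      k * (k - 1) ∣ l * (n * (n - 1) + 2 * (n * h)) + 2 * ∑ i, D i →
      ∃ c, DC k l c (hol n 1 h) ∧
        c * (k * (k - 1)) = l * (n * (n - 1) + 2 * (n * h)) + 2 * ∑ i, D i := by
  classical
  have hnN : n ≤ n + h := Nat.le_add_right n h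
  have hNn : n + h - n = h := by omega
  obtain ⟨B, hB1, hB2, hB3, hB4⟩ := special hk (show k ≤ n by omega) hnN
  obtain ⟨L, hL⟩ := cone hk hn hnN (by rw [hNn]; exact hh)
    (fun (i : Fin n → Fin (M + 1)) => sw B (fun a => (i a).val))
    (fun i x y => by
      unfold sw
      exact Finset.sum_congr rfl fun a _ => by rw [mul_comm (Nat.card _) (Nat.card _)])
  refine ⟨L, fun l hl D hD h1 h2 h3 => ?_⟩
  obtain ⟨hs1, hs2, hs3⟩ := sw_deg hk hnN B hB1 hB3 hB4 D
  have hs3' : ∑ x : Fin (n + h), ∑ y : Fin (n + h),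
      (if x ≠ y then (sw B D x y : ℤ) else 0) = ((∑ i, D i) * (k * (k - 1) - 2) : ℕ) := by
    rw [← hs3]
    push_cast
    rfl
  have hkk : 2 ≤ k * (k - 1) := by
    have : 1 ≤ k - 1 := by omega
    nlinarith
  have hK : (((∑ i, D i) * (k * (k - 1) - 2) : ℕ) : ℤ) =
      ((∑ i, D i : ℕ) : ℤ) * ((k * (k - 1) : ℕ) : ℤ) - 2 * ((∑ i, D i : ℕ) : ℤ) := by
    rw [Nat.mul_sub, Nat.cast_sub (Nat.mul_le_mul_left _ hkk)]
    push_cast
    ring
  have htot := CD_total l (sw B D) hs2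
  rw [hs3', hK] at htot
  obtain ⟨m, hm⟩ := hL l hl (fun a => ⟨D a, Nat.lt_succ_of_le (hD a)⟩)
    (by
      intro x
      show ((k - 1 : ℕ) : ℤ) ∣ ∑ y, uu n l (sw B D) x y
      by_cases hx : x.val < n
      · rw [CD_row l (sw B D) x hx]
        have h4 := hs1 ⟨x.val, hx⟩
        have h5 : Fin.castLE hnN ⟨x.val, hx⟩ = x := by
          ext
          rfl
        rw [h5] at h4
        have h6 : ((k - 1 : ℕ) : ℤ) ∣ ((2 * D ⟨x.val, hx⟩ + l * (n - 1 + h) : ℕ) : ℤ) :=
          Int.natCast_dvd_natCast.2 (h1 ⟨x.val, hx⟩)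
        have h7 := dvd_sub h6 h4
        have h8 : ((l * (n - 1 + h) : ℕ) : ℤ) - ∑ y, (if x ≠ y then (sw B D x y : ℤ) else 0) =
            ((2 * D ⟨x.val, hx⟩ + l * (n - 1 + h) : ℕ) : ℤ) -
              (∑ y, (if x ≠ y then (sw B D x y : ℤ) else 0) + 2 * (D ⟨x.val, hx⟩ : ℤ)) := by
          rw [Nat.cast_add, Nat.cast_mul 2]
          push_cast
          ring
        rw [h8]
        exact h7
      · have hx' : n ≤ x.val := by omega
        rw [CD_hole l (sw B D) x hx' fun y => hs2 x y hx']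
        rcases h2 with h2 | h2
        · exact absurd x.isLt (by omega)
        · exact Int.natCast_dvd_natCast.2 h2)
    (by
      show ((k * (k - 1) : ℕ) : ℤ) ∣ ∑ x, ∑ y, uu n l (sw B D) x y
      rw [htot]
      have h6 : ((k * (k - 1) : ℕ) : ℤ) ∣
          ((l * (n * (n - 1) + 2 * (n * h)) + 2 * ∑ i, D i : ℕ) : ℤ) :=
        Int.natCast_dvd_natCast.2 h3
      have h7 : ((k * (k - 1) : ℕ) : ℤ) ∣ ((∑ i, D i : ℕ) : ℤ) * ((k * (k - 1) : ℕ) : ℤ) :=
        Dvd.intro_left _ rfl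
      have h8 := dvd_sub h6 h7
      have h9 : ((l * (n * (n - 1) + 2 * (n * h)) : ℕ) : ℤ) -
          (((∑ i, D i : ℕ) : ℤ) * ((k * (k - 1) : ℕ) : ℤ) - 2 * ((∑ i, D i : ℕ) : ℤ)) =
          ((l * (n * (n - 1) + 2 * (n * h)) + 2 * ∑ i, D i : ℕ) : ℤ) -
            ((∑ i, D i : ℕ) : ℤ) * ((k * (k - 1) : ℕ) : ℤ) := by
        rw [Nat.cast_add (l * (n * (n - 1) + 2 * (n * h))) (2 * ∑ i, D i), Nat.cast_mul 2,
          Nat.cast_ofNat]
        ring
      rw [h9]
      exact h8)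
  have hm' : ∀ x y : Fin (n + h), x ≠ y → (x.val < n ∨ y.val < n) →
      ∑ A ∈ (Va (n + h) n k).filter (fun A => x ∈ A ∧ y ∈ A), m A + sw B D x y = l := hm
  have hdes := design (l := l) (show 2 ≤ k by omega) hnN m
    (fun b : (Σ i : Fin n, Fin (D i)) => B b.1) (fun b => hB2 b.1) (fun b i => hB1 b.1 i)
    (fun x y hxy hxn => by
      have h9 := hm' x y hxy hxn
      have h10 := sw_cc B D x y
      rw [← h10] at h9
      exact h9)
  rw [hNn] at hdes
  have hcard : Nat.card (Σ i : Fin n, Fin (D i)) = ∑ i, D i := by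
    rw [Nat.card_sigma]
    simp
  rw [hcard] at hdes
  refine ⟨_, hdes, ?_⟩
  have hcv := count_va (N := n + h) (n := n) (show 2 ≤ k by omega) m
  have hzz : ∀ x y : Fin (n + h), ((if x ≠ y then
      ∑ A ∈ (Va (n + h) n k).filter (fun A => x ∈ A ∧ y ∈ A), m A else 0 : ℕ) : ℤ) =
      uu n l (sw B D) x y := by
    intro x y
    unfold uu
    by_cases hxy : x ≠ y
    · by_cases hxn : x.val < n ∨ y.val < n
      · rw [if_pos hxy, if_pos ⟨hxy, hxn⟩, ← hm' x y hxy hxn]
        push_cast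
        ring
      · rw [if_pos hxy, if_neg fun hh => hxn hh.2]
        have hemp : (Va (n + h) n k).filter (fun A => x ∈ A ∧ y ∈ A) = ∅ := by
          rw [Finset.filter_eq_empty_iff]
          rintro A hA ⟨hxA, hyA⟩
          have hA2 := ((Finset.mem_filter.1 hA).2).2
          have hx' : x ∈ A.filter fun x => n ≤ x.val :=
            Finset.mem_filter.2 ⟨hxA, by omega⟩
          have hy' : y ∈ A.filter fun x => n ≤ x.val :=
            Finset.mem_filter.2 ⟨hyA, by omega⟩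
          exact hxy (Finset.card_le_one.1 hA2 x hx' y hy')
        rw [hemp]
        simp
    · rw [if_neg hxy, if_neg fun hh => hxy hh.1]
      simp
  have hZ : (((k * (k - 1)) * ∑ A ∈ Va (n + h) n k, m A : ℕ) : ℤ) =
      ∑ x, ∑ y, uu n l (sw B D) x y := by
    rw [← hcv, Nat.cast_sum]
    refine Finset.sum_congr rfl fun x _ => ?_
    rw [Nat.cast_sum]
    exact Finset.sum_congr rfl fun y _ => hzz x y
  rw [htot] at hZ
  zify
  push_cast at hZ ⊢
  linarith

end Pool.Agent.Helper69.QH
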