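import Pool.Agent.Helper69.QH.Defs

/-!
Project QH, piece PO: a positive combination of the `k`-sets which is constant on the edges.
-/

set_option autoImplicit false

namespace Pool.Agent.Helper69.QH

private lemma PO_card_lt {N n : ℕ} (h : n ≤ N) :
    (Finset.univ.filter fun x : Fin N => x.val < n).card = n := by
  have := Fin.card_filter_val_lt (n := N) (m := n)
  rw [this]
  omega

private lemma PO_card_ge {N n : ℕ} (h : n ≤ N) :
    (Finset.univ.filter fun x : Fin N => n ≤ x.val).card = N - n := by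
  have h1 := PO_card_lt h
  have h2 := Finset.card_filter_add_card_filter_not (s := (Finset.univ : Finset (Fin N)))
    (fun x : Fin N => x.val < n)
  have h3 : (Finset.univ.filter fun x : Fin N => ¬ x.val < n) = Finset.univ.filter fun x : Fin N => n ≤ x.val := by
    ext x
    simp
  rw [h1, h3, Finset.card_univ, Fintype.card_fin] at h2
  omega

private lemma PO_alpha {n k h : ℕ} (hk : 3 ≤ k) (hn : k + 2 ≤ n) (hh : (k - 2) * h + 1 < n) :
    h * (n - 2).choose (k - 3) < (n - 1).choose (k - 2) := by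
  obtain ⟨a, rfl⟩ : ∃ a, k = a + 3 := ⟨k - 3, by omega⟩
  obtain ⟨b, rfl⟩ : ∃ b, n = b + 2 := ⟨n - 2, by omega⟩
  have e1 : a + 3 - 2 = a + 1 := by omega
  have e2 : a + 3 - 3 = a := by omega
  have e3 : b + 2 - 2 = b := by omega
  have e4 : b + 2 - 1 = b + 1 := by omega
  rw [e1] at hh
  rw [e1, e2, e3, e4]
  have h1 := Nat.add_one_mul_choose_eq b a
  have h2 : 0 < b.choose a := Nat.choose_pos (by omega)
  have h3 : (a + 1) * h < b + 1 := by omega
  have h4 : (a + 1) * (h * b.choose a) < (a + 1) * (b + 1).choose (a + 1) := by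
    calc (a + 1) * (h * b.choose a) = ((a + 1) * h) * b.choose a := by ring
      _ < (b + 1) * b.choose a := Nat.mul_lt_mul_of_pos_right h3 h2
      _ = (a + 1) * (b + 1).choose (a + 1) := by
        rw [h1]
        ring
  exact Nat.lt_of_mul_lt_mul_left h4

private lemma PO_mem {N n k : ℕ} {A : Finset (Fin N)} :
    A ∈ Va N n k ↔ A.card = k ∧ (A.filter fun x => n ≤ x.val).card ≤ 1 := by
  unfold Va
  simp

/-- two points outside the hole, no point of the hole -/
private lemma PO_zero {N n k : ℕ} (hk : 3 ≤ k) (hnN : n ≤ N) {x y : Fin N}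
    (hxy : x ≠ y) (hx : x.val < n) (hy : y.val < n) :
    (((Va N n k).filter fun A => x ∈ A ∧ y ∈ A).filter
      fun A => (A.filter fun z => n ≤ z.val) = ∅).card = (n - 2).choose (k - 2) := by
  have h1 : (((Va N n k).filter fun A => x ∈ A ∧ y ∈ A).filter
      fun A => (A.filter fun z => n ≤ z.val) = ∅) =
      ((Finset.univ.filter fun z : Fin N => z.val < n).powersetCard k).filter
        (({x, y} : Finset (Fin N)) ⊆ ·) := by
    ext A
    simp only [Finset.mem_filter, PO_mem, Finset.mem_powersetCard, Finset.filter_eq_empty_iff,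
      Finset.insert_subset_iff, Finset.singleton_subset_iff]
    constructor
    · rintro ⟨⟨⟨h1, h2⟩, h3, h4⟩, h5⟩
      exact ⟨⟨fun z hz => Finset.mem_filter.2 ⟨Finset.mem_univ _, not_le.1 (h5 hz)⟩, h1⟩, h3, h4⟩
    · rintro ⟨⟨h1, h2⟩, h3⟩
      have h5 : ∀ ⦃z : Fin N⦄, z ∈ A → ¬ n ≤ z.val := fun z hz => not_le.2 (Finset.mem_filter.1 (h1 hz)).2
      refine ⟨⟨⟨h2, ?_⟩, h3⟩, h5⟩
      rw [Finset.filter_eq_empty_iff.2 h5]
      simp
  rw [h1, Finset.card_filter_powersetCard_subset _ _ _ ?_ ?_, PO_card_lt hnN, Finset.card_pair hxy]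
  · intro z hz
    rw [Finset.mem_insert, Finset.mem_singleton] at hz
    rcases hz with rfl | rfl
    · simpa using hx
    · simpa using hy
  · rw [Finset.card_pair hxy]
    omega

/-- two points outside the hole, one point of the hole -/
private lemma PO_one {N n k : ℕ} (hk : 3 ≤ k) (hn : 2 ≤ n) (hnN : n ≤ N) {x y : Fin N}
    (hxy : x ≠ y) (hx : x.val < n) (hy : y.val < n) :
    (((Va N n k).filter fun A => x ∈ A ∧ y ∈ A).filter
      fun A => ¬ (A.filter fun z => n ≤ z.val) = ∅).card = (N - n) * (n - 2).choose (k - 3) := by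
  obtain ⟨I, hI⟩ : ∃ I : Finset (Fin N), I = Finset.univ.filter fun z : Fin N => z.val < n := ⟨_, rfl⟩
  have hmI : ∀ z : Fin N, z ∈ I ↔ z.val < n := fun z => by rw [hI]; simp
  have h1 : (((Va N n k).filter fun A => x ∈ A ∧ y ∈ A).filter
      fun A => ¬ (A.filter fun z => n ≤ z.val) = ∅) =
      (Finset.univ.filter fun z : Fin N => n ≤ z.val).biUnion fun z =>
        ((insert z I).powersetCard k).filter (({x, y, z} : Finset (Fin N)) ⊆ ·) := by
    ext A
    simp only [Finset.mem_filter, PO_mem, Finset.mem_powersetCard, Finset.mem_biUnion,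
      Finset.insert_subset_iff, Finset.singleton_subset_iff, Finset.mem_univ, true_and]
    constructor
    · rintro ⟨⟨⟨h1, h2⟩, h3, h4⟩, h5⟩
      obtain ⟨z, hz⟩ := Finset.nonempty_iff_ne_empty.2 h5
      have hz' := Finset.mem_filter.1 hz
      refine ⟨z, hz'.2, ⟨fun w hw => ?_, h1⟩, h3, h4, hz'.1⟩
      rw [Finset.mem_insert, hmI]
      rcases lt_or_ge w.val n with hlt | hge
      · exact Or.inr hlt
      · exact Or.inl (Finset.card_le_one.1 h2 w (Finset.mem_filter.2 ⟨hw, hge⟩) z hz)
    · rintro ⟨z, hz, ⟨h1, h2⟩, h3, h4, h5⟩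
      refine ⟨⟨⟨h2, ?_⟩, h3, h4⟩, ?_⟩
      · refine Finset.card_le_one.2 fun a ha b hb => ?_
        rw [Finset.mem_filter] at ha hb
        have ha1 := h1 ha.1
        have hb1 := h1 hb.1
        rw [Finset.mem_insert, hmI] at ha1 hb1
        rcases ha1 with rfl | ha'
        · rcases hb1 with rfl | hb'
          · rfl
          · omega
        · omega
      · exact Finset.nonempty_iff_ne_empty.1 ⟨z, Finset.mem_filter.2 ⟨h5, hz⟩⟩
  rw [h1, Finset.card_biUnion]
  · rw [Finset.sum_congr rfl (g := fun _ => (n - 2).choose (k - 3)), Finset.sum_const, PO_card_ge hnN,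
      smul_eq_mul]
    intro z hz
    have hz' : n ≤ z.val := (Finset.mem_filter.1 hz).2
    have hzI : z ∉ I := fun h => by
      rw [hmI] at h
      omega
    have hxz : x ≠ z := by
      rintro rfl
      omega
    have hyz : y ≠ z := by
      rintro rfl
      omega
    have hc : ({x, y, z} : Finset (Fin N)).card = 3 := Finset.card_eq_three.2 ⟨x, y, z, hxy, hxz, hyz, rfl⟩
    rw [Finset.card_filter_powersetCard_subset _ _ _ ?_ ?_, Finset.card_insert_of_notMem hzI, hc]
    · rw [hI, PO_card_lt hnN]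
      congr 1
    · intro w hw
      rw [Finset.mem_insert, Finset.mem_insert, Finset.mem_singleton] at hw
      rw [Finset.mem_insert, hmI]
      rcases hw with rfl | rfl | rfl
      · exact Or.inr hx
      · exact Or.inr hy
      · exact Or.inl rfl
    · omega
  · intro z hz w hw hne
    rw [Function.onFun, Finset.disjoint_left]
    intro A hA hB
    rw [Finset.mem_filter, Finset.mem_powersetCard] at hA hB
    have hz' : n ≤ z.val := (Finset.mem_filter.1 (Finset.mem_coe.1 hz)).2
    have h2 : z ∈ A := hA.2 (by simp)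
    have h3 := hB.1.1 h2
    rw [Finset.mem_insert, hmI] at h3
    rcases h3 with h3 | h3
    · exact hne h3
    · omega

/-- one point in the hole -/
private lemma PO_mix {N n k : ℕ} (hk : 3 ≤ k) (hn : 2 ≤ n) (hnN : n ≤ N) {x y : Fin N}
    (hx : x.val < n) (hy : n ≤ y.val) :
    ((Va N n k).filter fun A => x ∈ A ∧ y ∈ A).card = (n - 1).choose (k - 2) := by
  obtain ⟨I, hI⟩ : ∃ I : Finset (Fin N), I = Finset.univ.filter fun z : Fin N => z.val < n := ⟨_, rfl⟩
  have hmI : ∀ z : Fin N, z ∈ I ↔ z.val < n := fun z => by rw [hI]; simp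
  have hxy : x ≠ y := by
    rintro rfl
    omega
  have hyI : y ∉ I := fun h => by
    rw [hmI] at h
    omega
  have h1 : ((Va N n k).filter fun A => x ∈ A ∧ y ∈ A) =
      ((insert y I).powersetCard k).filter (({x, y} : Finset (Fin N)) ⊆ ·) := by
    ext A
    simp only [Finset.mem_filter, PO_mem, Finset.mem_powersetCard,
      Finset.insert_subset_iff, Finset.singleton_subset_iff]
    constructor
    · rintro ⟨⟨h1, h2⟩, h3, h4⟩
      refine ⟨⟨fun w hw => ?_, h1⟩, h3, h4⟩
      rw [Finset.mem_insert, hmI]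
      rcases lt_or_ge w.val n with hlt | hge
      · exact Or.inr hlt
      · exact Or.inl (Finset.card_le_one.1 h2 w (Finset.mem_filter.2 ⟨hw, hge⟩) y
          (Finset.mem_filter.2 ⟨h4, hy⟩))
    · rintro ⟨⟨h1, h2⟩, h3, h4⟩
      refine ⟨⟨h2, ?_⟩, h3, h4⟩
      refine Finset.card_le_one.2 fun a ha b hb => ?_
      rw [Finset.mem_filter] at ha hb
      have ha1 := h1 ha.1
      have hb1 := h1 hb.1
      rw [Finset.mem_insert, hmI] at ha1 hb1
      rcases ha1 with rfl | ha'
      · rcases hb1 with rfl | hb'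
        · rfl
        · omega
      · omega
  rw [h1, Finset.card_filter_powersetCard_subset _ _ _ ?_ ?_, Finset.card_insert_of_notMem hyI,
    Finset.card_pair hxy]
  · rw [hI, PO_card_lt hnN]
    congr 1
  · intro w hw
    rw [Finset.mem_insert, Finset.mem_singleton] at hw
    rw [Finset.mem_insert, hmI]
    rcases hw with rfl | rfl
    · exact Or.inr hx
    · exact Or.inl rfl
  · rw [Finset.card_pair hxy]
    omega

/-- Let `h = N - n`. The sets `A ∈ Va N n k` without a point of the hole get
`α = C(n-1, k-2) - h C(n-2, k-3)`, those with one point of the hole get `β = C(n-2, k-2)`;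
`Λ = β C(n-1, k-2)`. Here `α > 0`, since `(k-2) C(n-1, k-2) = (n-1) C(n-2, k-3)` and `n - 1 > (k-2) h`.
Counts: for `x, y < n` there are `C(n-2, k-2)` sets of the first kind and `h C(n-2, k-3)` sets of the second
kind which contain `x` and `y`; for `x < n ≤ y` there are none of the first kind and `C(n-1, k-2)` of the second
kind. -/
theorem pos {N n k : ℕ} (hk : 3 ≤ k) (hn : k + 2 ≤ n) (hnN : n ≤ N)
    (hh : (k - 2) * (N - n) + 1 < n) :
    ∃ (p : Finset (Fin N) → ℕ) (Λ : ℕ), 0 < Λ ∧ (∀ A ∈ Va N n k, 0 < p A) ∧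
      ∀ x y : Fin N, x ≠ y → (x.val < n ∨ y.val < n) →
        ∑ A ∈ (Va N n k).filter (fun A => x ∈ A ∧ y ∈ A), p A = Λ := by
  have hα := PO_alpha hk hn hh
  have hβ : 0 < (n - 2).choose (k - 2) := Nat.choose_pos (by omega)
  have hγ : 0 < (n - 1).choose (k - 2) := Nat.choose_pos (by omega)
  refine ⟨fun A => if (A.filter fun z => n ≤ z.val) = ∅ then
      (n - 1).choose (k - 2) - (N - n) * (n - 2).choose (k - 3) else (n - 2).choose (k - 2),
    (n - 2).choose (k - 2) * (n - 1).choose (k - 2), Nat.mul_pos hβ hγ, ?_, ?_⟩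
  · intro A _
    beta_reduce
    split_ifs
    · omega
    · exact hβ
  · have mix : ∀ x y : Fin N, x.val < n → n ≤ y.val →
        ∑ A ∈ (Va N n k).filter (fun A => x ∈ A ∧ y ∈ A),
          (if (A.filter fun z => n ≤ z.val) = ∅ then
            (n - 1).choose (k - 2) - (N - n) * (n - 2).choose (k - 3) else (n - 2).choose (k - 2)) =
          (n - 2).choose (k - 2) * (n - 1).choose (k - 2) := by
      intro x y hx hy
      rw [Finset.sum_congr rfl (g := fun _ => (n - 2).choose (k - 2)), Finset.sum_const,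
        PO_mix hk (by omega) hnN hx hy, smul_eq_mul, mul_comm]
      intro A hA
      have hA' := (Finset.mem_filter.1 hA).2
      rw [if_neg]
      exact Finset.nonempty_iff_ne_empty.1 ⟨y, Finset.mem_filter.2 ⟨hA'.2, hy⟩⟩
    intro x y hxy hor
    beta_reduce
    rcases lt_or_ge x.val n with hx | hx
    · rcases lt_or_ge y.val n with hy | hy
      · rw [Finset.sum_ite, Finset.sum_const, Finset.sum_const, smul_eq_mul, smul_eq_mul,
          PO_zero hk hnN hxy hx hy, PO_one hk (by omega) hnN hxy hx hy]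
        obtain ⟨c, hc⟩ : ∃ c, (n - 1).choose (k - 2) = c + (N - n) * (n - 2).choose (k - 3) :=
          ⟨_, (Nat.sub_add_cancel hα.le).symm⟩
        rw [hc, Nat.add_sub_cancel]
        ring
      · exact mix x y hx hy
    · have hy : y.val < n := by omega
      have h := mix y x hy hx
      have e : (Va N n k).filter (fun A => x ∈ A ∧ y ∈ A) = (Va N n k).filter (fun A => y ∈ A ∧ x ∈ A) :=
        Finset.filter_congr fun A _ => and_comm
      rw [e]
      exact h

end Pool.Agent.Helper69.QH
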