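import Pool.Agent.Helper69.QH.LD
import Pool.Agent.Helper69.QH.PO

/-!
Project QH, piece CO: non-negative solutions for large concurrence.
-/

set_option autoImplicit false

namespace Pool.Agent.Helper69.QH

/-- `s` is a finite family of symmetric functions (the concurrences of some given blocks), which
vanish on the hole. Proof: `p, Λ` from `pos`. For `i : σ` and `ρ < Λ`: if there is an `l0` with `l0 % Λ = ρ` which
satisfies the two conditions `h1`, `h2`, choose one, and `c` from `lat` for `u = uu n l0 (s i)`; let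
`L i ρ = l0 + Λ (∑ A, |c A|)`, otherwise `L i ρ = 0`. `L` = a common bound of all `L i ρ`. Given `l ≥ L` and `i` with
the conditions, `l` itself shows that there is such an `l0` for `ρ = l % Λ`; `l = l0 + Λ t` with `t ≥ ∑ |c A|`, and
`m A = (c A + t p A).toNat`; on the edges `∑ m A = (l0 - s i x y) + t Λ = l - s i x y`. -/
theorem cone {N n k : ℕ} (hk : 3 ≤ k) (hn : k + 2 ≤ n) (hnN : n ≤ N)
    (hh : (k - 2) * (N - n) + 1 < n) {σ : Type} [Finite σ] (s : σ → Fin N → Fin N → ℕ)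
    (hs : ∀ i x y, s i x y = s i y x) :
    ∃ L : ℕ, ∀ l : ℕ, L ≤ l → ∀ i : σ,
      (∀ x, ((k - 1 : ℕ) : ℤ) ∣ ∑ y, uu n l (s i) x y) →
      ((k * (k - 1) : ℕ) : ℤ) ∣ ∑ x, ∑ y, uu n l (s i) x y →
      ∃ m : Finset (Fin N) → ℕ, ∀ x y : Fin N, x ≠ y → (x.val < n ∨ y.val < n) →
        ∑ A ∈ (Va N n k).filter (fun A => x ∈ A ∧ y ∈ A), m A + s i x y = l := by
  obtain ⟨p, Λ, hΛ, hp, hpe⟩ := pos hk hn hnN hh
  have key : ∀ (i : σ) (ρ : Fin Λ), ∃ L : ℕ, ∀ l : ℕ, L ≤ l → l % Λ = ρ →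
      (∀ x, ((k - 1 : ℕ) : ℤ) ∣ ∑ y, uu n l (s i) x y) →
      ((k * (k - 1) : ℕ) : ℤ) ∣ ∑ x, ∑ y, uu n l (s i) x y →
      ∃ m : Finset (Fin N) → ℕ, ∀ x y : Fin N, x ≠ y → (x.val < n ∨ y.val < n) →
        ∑ A ∈ (Va N n k).filter (fun A => x ∈ A ∧ y ∈ A), m A + s i x y = l := by
    intro i ρ
    by_cases hex : ∃ l0 : ℕ, l0 % Λ = ρ ∧ (∀ x, ((k - 1 : ℕ) : ℤ) ∣ ∑ y, uu n l0 (s i) x y) ∧
        ((k * (k - 1) : ℕ) : ℤ) ∣ ∑ x, ∑ y, uu n l0 (s i) x y
    · obtain ⟨l0, hl0, a1, a2⟩ := hex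
      obtain ⟨c, hc⟩ := lat (by omega) hn hnN (uu n l0 (s i)) (by
          intro x y
          unfold uu
          rw [hs i y x]
          by_cases h : x ≠ y ∧ (x.val < n ∨ y.val < n)
          · rw [if_pos h, if_pos ⟨h.1.symm, h.2.symm⟩]
          · rw [if_neg h, if_neg (fun h' => h ⟨h'.1.symm, h'.2.symm⟩)]) (by
          intro x
          unfold uu
          rw [if_neg (fun h => h.1 rfl)]) (by
          intro x y hx hy
          unfold uu
          rw [if_neg (fun h => by omega)]) a1 a2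
      refine ⟨l0 + Λ * ∑ A, (c A).natAbs, fun l hl hlρ _ _ => ?_⟩
      obtain ⟨t, ht⟩ : ∃ t, l = l0 + Λ * t := by
        have h1 : l0 ≤ l := (Nat.le_add_right _ _).trans hl
        have h2 : Λ ∣ l - l0 := (Nat.modEq_iff_dvd' h1).1 (hl0.trans hlρ.symm)
        obtain ⟨t, ht⟩ := h2
        exact ⟨t, by omega⟩
      have ht' : ∑ A, (c A).natAbs ≤ t := by
        rw [ht] at hl
        exact Nat.le_of_mul_le_mul_left (Nat.le_of_add_le_add_left hl) hΛ
      refine ⟨fun A => (c A + t * p A).toNat, fun x y hxy hxn => ?_⟩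
      have h1 : ∀ A ∈ (Va N n k).filter (fun A => x ∈ A ∧ y ∈ A),
          (((c A + t * p A).toNat : ℕ) : ℤ) = c A + t * p A := by
        intro A hA
        apply Int.toNat_of_nonneg
        have h2 : (c A).natAbs ≤ t :=
          (Finset.single_le_sum (fun _ _ => Nat.zero_le _) (Finset.mem_univ A)).trans ht'
        have h3 : 0 < p A := hp A (Finset.mem_filter.1 hA).1
        have h4 : t ≤ t * p A := Nat.le_mul_of_pos_right _ h3
        have h5 : ((c A).natAbs : ℤ) ≤ (t * p A : ℕ) := by exact_mod_cast h2.trans h4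
        push_cast at h5
        linarith [neg_abs_le (c A)]
      have h7 := hc x y hxy
      have h8 := hpe x y hxy hxn
      unfold uu at h7
      rw [if_pos ⟨hxy, hxn⟩] at h7
      have h9 : (∑ A ∈ (Va N n k).filter (fun A => x ∈ A ∧ y ∈ A),
          (((c A + t * p A).toNat : ℕ) : ℤ)) = (l0 : ℤ) - s i x y + t * Λ := by
        rw [Finset.sum_congr rfl h1, Finset.sum_add_distrib, ← h7, ← Finset.mul_sum, ← h8]
        push_cast
        rfl
      have h10 : ((∑ A ∈ (Va N n k).filter (fun A => x ∈ A ∧ y ∈ A), (c A + t * p A).toNat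
          + s i x y : ℕ) : ℤ) = (l : ℤ) := by
        push_cast
        rw [ht]
        push_cast at h9 ⊢
        rw [h9]
        ring
      exact_mod_cast h10
    · exact ⟨0, fun l _ h a1 a2 => absurd ⟨l, h, a1, a2⟩ hex⟩
  choose L hL using key
  obtain ⟨B, hB⟩ := (Set.finite_range (fun q : σ × Fin Λ => L q.1 q.2)).bddAbove
  refine ⟨B, fun l hl i h1 h2 => ?_⟩
  exact hL i ⟨l % Λ, Nat.mod_lt _ hΛ⟩ l
    ((hB ⟨(i, ⟨l % Λ, Nat.mod_lt _ hΛ⟩), rfl⟩).trans hl) rfl h1 h2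

end Pool.Agent.Helper69.QH
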