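import Pool.Agent.Helper53.BN.Defs
import Pool.Agent.Helper69.QC.Cnt

/-!
Project QH: designs with large concurrence. The points are `Fin N`, the points `x` with `n ≤ x` form
the hole; an edge is a pair of different points which are not both in the hole.
-/

set_option autoImplicit false

namespace Pool.Agent.Helper69.QH

open Pool.Agent.Helper69.WV Pool.Agent.Helper53.BN Pool.Agent.Helper69.QB Pool.Agent.Helper69.QC

/-- The sets of `k` points with at most one point in the hole. -/
def Va (N n k : ℕ) : Finset (Finset (Fin N)) :=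
  Finset.univ.filter fun A => A.card = k ∧ (A.filter fun x => n ≤ x.val).card ≤ 1

/-- The sum of `e` over the pairs of points of `A`. -/
def ps {N : ℕ} {Q : Type} [AddCommGroup Q] (e : Fin N → Fin N → Q) (A : Finset (Fin N)) : Q :=
  ∑ x ∈ A, ∑ y ∈ A, if x < y then e x y else 0

/-- The vector `l - s` on the edges. -/
def uu {N : ℕ} (n l : ℕ) (s : Fin N → Fin N → ℕ) (x y : Fin N) : ℤ :=
  if x ≠ y ∧ (x.val < n ∨ y.val < n) then (l : ℤ) - (s x y : ℤ) else 0

/-- There is a design whose number `b` of blocks satisfies `b C2 k = l C2 v + T`. -/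
def NT (k l v T : ℕ) : Prop := ∃ b, NB k l v b ∧ b * C2 k = l * C2 v + T

end Pool.Agent.Helper69.QH
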