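import Pool.Agent.Helper69.QH.Defs
import Pool.Agent.Helper53.BN.Glue

/-!
Project QH, piece FR: filling the groups and the hole, with additional points.
-/

set_option autoImplicit false

namespace Pool.Agent.Helper69.QH

open Pool.Agent.Helper69.WV Pool.Agent.Helper53.BN Pool.Agent.Helper69.QB Pool.Agent.Helper69.QC

/-- The design which covers the pair `x`, `y`. -/
private def FR_idx {n x h ρ : ℕ} :
    (Fin n × Fin x) ⊕ (Fin h ⊕ Fin ρ) → (Fin n × Fin x) ⊕ (Fin h ⊕ Fin ρ) →
      Option (Option (Fin n))
  | Sum.inl p, Sum.inl q => if p.1 = q.1 then some (some p.1) else none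
  | Sum.inl _, Sum.inr (Sum.inl _) => none
  | Sum.inl p, Sum.inr (Sum.inr _) => some (some p.1)
  | Sum.inr (Sum.inl _), Sum.inl _ => none
  | Sum.inr (Sum.inr _), Sum.inl p => some (some p.1)
  | Sum.inr _, Sum.inr _ => some none

private def FR_e {n x h ρ : ℕ} (i : Fin n) : (Fin x × Fin 1) ⊕ Fin ρ →
    (Fin n × Fin x) ⊕ (Fin h ⊕ Fin ρ) := Sum.map (fun p => (i, p.1)) Sum.inr

private theorem FR_e_inj {n x h ρ : ℕ} (i : Fin n) :
    Function.Injective (FR_e (n := n) (x := x) (h := h) (ρ := ρ) i) := by
  refine Sum.map_injective.2 ⟨?_, Sum.inr_injective⟩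
  rintro ⟨a, u⟩ ⟨b, v⟩ hab
  simp only [Prod.mk.injEq, true_and] at hab
  rw [hab, Subsingleton.elim u v]

/-- `glueC` on the points `((Fin n × Fin x) ⊕ Fin h) ⊕ Fin ρ` (compare `fillT` in `Helper69/QC/FillT.lean` and `closeH`
in `Helper69/QC/HolB.lean`; `DC.congr`), index type `Option (Option (Fin n))`: `none` is the design
`h0` on the groups and the hole, `some none` is the design `h'` on the hole and the additional points, `some (some i)` is the
design `hc i` on the group `i` and the additional points (it covers all pairs of points of the group, and all pairs of a point of the group and an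
additional point, but no pair of additional points). -/
theorem fillR {k l n x h ρ c0 c' : ℕ} (h0 : DC k l c0 (hol n x h)) (c : Fin n → ℕ)
    (hc : ∀ i, DC k l (c i) (hol x 1 ρ)) (h' : NB k l (h + ρ) c') :
    NB k l (n * x + (h + ρ)) (c0 + ∑ i, c i + c') := by
  have hcard : Nat.card ((Fin n × Fin x) ⊕ (Fin h ⊕ Fin ρ)) = n * x + (h + ρ) := by simp
  have hcard' : Nat.card (Fin h ⊕ Fin ρ) = h + ρ := by simp
  have h'' : DC k l c' (id : Fin h ⊕ Fin ρ → Fin h ⊕ Fin ρ) := by
    rw [DC_id_iff, hcard']
    exact h'
  rw [← hcard, ← DC_id_iff]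
  have hM : DC k l (∑ b : Option (Option (Fin n)),
      (match b with | none => c0 | some none => c' | some (some i) => c i))
      (id : (Fin n × Fin x) ⊕ (Fin h ⊕ Fin ρ) → (Fin n × Fin x) ⊕ (Fin h ⊕ Fin ρ)) := by
    refine glueC (B := Option (Option (Fin n)))
      (W := fun b => match b with
        | none => (Fin n × Fin x) ⊕ Fin h
        | some none => Fin h ⊕ Fin ρ
        | some (some _) => (Fin x × Fin 1) ⊕ Fin ρ)
      (J := fun b => match b with
        | none => Option (Fin n)
        | some none => Fin h ⊕ Fin ρ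
        | some (some _) => Option (Fin x))
      (fun b => match b with
        | none => hol n x h
        | some none => id
        | some (some _) => hol x 1 ρ)
      (fun b => match b with
        | none => Sum.map id Sum.inl
        | some none => Sum.inr
        | some (some i) => FR_e i)
      (fun b => match b with | none => c0 | some none => c' | some (some i) => c i) ?_ ?_ ?_ ?_
    · rintro (_ | _ | i)
      · exact Sum.map_injective.2 ⟨Function.injective_id, Sum.inl_injective⟩
      · exact Sum.inr_injective
      · exact FR_e_inj i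
    · rintro (_ | _ | i)
      · exact h0
      · exact h''
      · exact hc i
    · intro u v huv
      have huv' : u ≠ v := huv
      refine ⟨FR_idx u v, ?_, ?_⟩
      · rcases u with ⟨i, a⟩ | u | u <;> rcases v with ⟨j, b⟩ | v | v
        · by_cases hij : i = j
          · subst hij
            have hab : a ≠ b := fun e => huv' (by rw [e])
            have e1 : FR_idx (n := n) (x := x) (h := h) (ρ := ρ) (Sum.inl (i, a))
                (Sum.inl (i, b)) = some (some i) := by simp [FR_idx]
            rw [e1]
            refine ⟨Sum.inl (a, 0), Sum.inl (b, 0), rfl, rfl, ?_⟩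
            show hol x 1 ρ (Sum.inl (a, 0)) ≠ hol x 1 ρ (Sum.inl (b, 0))
            simpa [hol] using hab
          · have e1 : FR_idx (n := n) (x := x) (h := h) (ρ := ρ) (Sum.inl (i, a))
                (Sum.inl (j, b)) = none := by simp [FR_idx, hij]
            rw [e1]
            refine ⟨Sum.inl (i, a), Sum.inl (j, b), rfl, rfl, ?_⟩
            show hol n x h (Sum.inl (i, a)) ≠ hol n x h (Sum.inl (j, b))
            simpa [hol] using hij
        · exact ⟨Sum.inl (i, a), Sum.inr v, rfl, rfl,
            show hol n x h (Sum.inl (i, a)) ≠ hol n x h (Sum.inr v) by simp [hol]⟩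
        · exact ⟨Sum.inl (a, 0), Sum.inr v, rfl, rfl,
            show hol x 1 ρ (Sum.inl (a, 0)) ≠ hol x 1 ρ (Sum.inr v) by simp [hol]⟩
        · exact ⟨Sum.inr u, Sum.inl (j, b), rfl, rfl,
            show hol n x h (Sum.inr u) ≠ hol n x h (Sum.inl (j, b)) by simp [hol]⟩
        · exact ⟨Sum.inl u, Sum.inl v, rfl, rfl, fun e => huv' (congrArg Sum.inr e)⟩
        · exact ⟨Sum.inl u, Sum.inr v, rfl, rfl, fun e => huv' (congrArg Sum.inr e)⟩
        · exact ⟨Sum.inr u, Sum.inl (b, 0), rfl, rfl,
            show hol x 1 ρ (Sum.inr u) ≠ hol x 1 ρ (Sum.inl (b, 0)) by simp [hol]⟩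
        · exact ⟨Sum.inr u, Sum.inl v, rfl, rfl, fun e => huv' (congrArg Sum.inr e)⟩
        · exact ⟨Sum.inr u, Sum.inr v, rfl, rfl, fun e => huv' (congrArg Sum.inr e)⟩
      · rintro (_ | _ | i) hb
        · obtain ⟨u', v', hu, hv, hne⟩ := hb
          rw [← hu, ← hv]
          rcases u' with ⟨i, a⟩ | u' <;> rcases v' with ⟨j, b⟩ | v'
          · have hij : i ≠ j := fun e => hne (by simp [hol, e])
            simp [FR_idx, hij]
          · rfl
          · rfl
          · exact absurd rfl hne
        · obtain ⟨u', v', hu, hv, hne⟩ := hb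
          rw [← hu, ← hv]
          rcases u' with u' | u' <;> rfl
        · obtain ⟨u', v', hu, hv, hne⟩ := hb
          rw [← hu, ← hv]
          rcases u' with ⟨a, s⟩ | u' <;> rcases v' with ⟨b, t⟩ | v'
          · simp [FR_idx, FR_e]
          · rfl
          · rfl
          · exact absurd rfl hne
    · rintro (_ | _ | i) u v hne huv
      · have huv' : (Sum.map id Sum.inl u : (Fin n × Fin x) ⊕ (Fin h ⊕ Fin ρ)) =
          Sum.map id Sum.inl v := huv
        exact hne (congrArg _ (Sum.map_injective.2
          ⟨Function.injective_id, Sum.inl_injective⟩ huv'))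
      · exact hne (Sum.inr_injective huv)
      · exact hne (congrArg _ (FR_e_inj i huv))
  rw [Fintype.sum_option, Fintype.sum_option] at hM
  refine hM.cast ?_
  simp only
  ring

end Pool.Agent.Helper69.QH
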