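import Pool.Agent.Helper69.QH.All

/-!
Project QH: the complete set of the numbers of blocks for a fixed number of points and all large
concurrences.
-/

set_option autoImplicit false

namespace Pool.Agent.Helper69.QH

open Pool.Agent.Helper69.WV Pool.Agent.Helper53.BN Pool.Agent.Helper69.QB Pool.Agent.Helper69.QC
open Pool.Agent.Helper69.QD Pool.Agent.Helper69.QG Pool.Agent.Helper52.VB

/-- There is a design with `s` blocks less than `(l / (k - 1) + 1) C2 v`. -/
def TQ (k l v s : ℕ) : Prop := ∃ b, NB k l v b ∧ b + s = (l / (k - 1) + 1) * C2 v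

theorem tq_mono {k l l' v s : ℕ} (hk : 2 ≤ k) (hr : l % (k - 1) = l' % (k - 1)) (hl : l ≤ l')
    (h : TQ k l v s) : TQ k l' v s := by
  obtain ⟨b, hb, hbs⟩ := h
  have hk1 : 0 < k - 1 := by omega
  have h1 := Nat.div_add_mod l (k - 1)
  have h2 := Nat.div_add_mod l' (k - 1)
  have h3 : l / (k - 1) ≤ l' / (k - 1) := Nat.div_le_div_right hl
  obtain ⟨q, hq⟩ := Nat.exists_eq_add_of_le h3
  have h4 : l' = q * (k - 1) + l := by
    rw [hq, ← hr] at h2
    nlinarith
  refine ⟨q * C2 v + b, ?_, ?_⟩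
  · rw [h4]
    exact nb_add (nb_triv hk q v) hb
  · rw [hq]
    nlinarith

/-- The complete set of the numbers of blocks for fixed `v ≥ k + 2` and all large `l`. -/
theorem complete_v (k v : ℕ) (hk : 4 ≤ k) (hv : k + 2 ≤ v) : ∃ (L : ℕ) (E : ℕ → Finset ℕ),
    ∀ l, L ≤ l → Adm k l v → ∀ d : ℕ, IsLeast {d : ℕ | k - 1 ∣ 2 * d + l * (v - 1)} d →
      ∀ b : ℕ, NB k l v b ↔ l * C2 v + d * v ≤ b * C2 k ∧ b ≤ (l / (k - 1) + 1) * C2 v ∧
        (l / (k - 1) + 1) * C2 v - b ∉ E (l % (k - 1)) := by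
  classical
  obtain ⟨c, hc, L1, h⟩ := exact_low k hk
  obtain ⟨c', hc'⟩ := exists_nat_ge c
  set B : ℕ := (c' + 1) * C2 v + 1 with hB
  have h1 : ∀ r s, ∃ L, ∀ l', l' % (k - 1) = r → TQ k l' v s → ∀ l, L ≤ l → l % (k - 1) = r →
      TQ k l v s := by
    intro r s
    by_cases hex : ∃ l', l' % (k - 1) = r ∧ TQ k l' v s
    · obtain ⟨l0, hl0, hT0⟩ := hex
      exact ⟨l0, fun _ _ _ l hl hlr => tq_mono (by omega) (hl0.trans hlr.symm) hl hT0⟩
    · exact ⟨0, fun l' h2 h3 => absurd ⟨l', h2, h3⟩ hex⟩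
  choose L2 hL2 using h1
  refine ⟨max 2 L1 + ∑ r ∈ Finset.range (k - 1), ∑ s ∈ Finset.range B, L2 r s,
    fun r => (Finset.range B).filter fun s => ¬ ∃ l', l' % (k - 1) = r ∧ TQ k l' v s,
    fun l hl hadm d hd b => ?_⟩
  have hl2 : 2 ≤ l := by
    have := le_max_left 2 L1
    omega
  have hlL1 : L1 ≤ l := by
    have := le_max_right 2 L1
    omega
  obtain ⟨A, hA, -, hex⟩ := h l hl2
  have hex' := hex hlL1 v hv hadm d hd b
  have hC : (0 : ℝ) < (C2 v : ℝ) := by exact_mod_cast c2pos (by omega : 2 ≤ v)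
  have hk1 : 0 < k - 1 := by omega
  have hk1r : (0 : ℝ) < (k : ℝ) - 1 := by
    have : (4 : ℝ) ≤ (k : ℝ) := by exact_mod_cast hk
    linarith
  constructor
  · intro hN
    refine ⟨nb_local (by omega) (by omega) hN (fun e he hdv => ?_), ?_, fun hmem => ?_⟩
    · have h2 : d ≤ e := hd.2 hdv
      omega
    · have h3 := nb_le_beta (by omega) (by omega) hN
      have h4 := beta_le k l (by omega)
      have h5 : (l : ℝ) / ((k : ℝ) - 1) ≤ ((l / (k - 1) + 1 : ℕ) : ℝ) := by
        rw [div_le_iff₀ hk1r]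
        have h6 : l ≤ (l / (k - 1) + 1) * (k - 1) := by
          have := Nat.div_add_mod l (k - 1)
          have := Nat.mod_lt l hk1
          nlinarith
        have h7 : (l : ℝ) ≤ ((l / (k - 1) + 1 : ℕ) : ℝ) * ((k - 1 : ℕ) : ℝ) := by exact_mod_cast h6
        rwa [Nat.cast_sub (by omega), Nat.cast_one] at h7
      have h8 : (b : ℝ) ≤ ((l / (k - 1) + 1 : ℕ) : ℝ) * (C2 v : ℝ) :=
        h3.trans (mul_le_mul_of_nonneg_right (h4.trans h5) hC.le)
      exact_mod_cast h8
    · refine (Finset.mem_filter.1 hmem).2 ⟨l, rfl, b, hN, ?_⟩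
      have h3 := nb_le_beta (by omega) (by omega) hN
      have h4 := beta_le k l (by omega)
      have h5 : (l : ℝ) / ((k : ℝ) - 1) ≤ ((l / (k - 1) + 1 : ℕ) : ℝ) := by
        rw [div_le_iff₀ hk1r]
        have h6 : l ≤ (l / (k - 1) + 1) * (k - 1) := by
          have := Nat.div_add_mod l (k - 1)
          have := Nat.mod_lt l hk1
          nlinarith
        have h7 : (l : ℝ) ≤ ((l / (k - 1) + 1 : ℕ) : ℝ) * ((k - 1 : ℕ) : ℝ) := by exact_mod_cast h6
        rwa [Nat.cast_sub (by omega), Nat.cast_one] at h7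
      have h8 : (b : ℝ) ≤ ((l / (k - 1) + 1 : ℕ) : ℝ) * (C2 v : ℝ) :=
        h3.trans (mul_le_mul_of_nonneg_right (h4.trans h5) hC.le)
      have h9 : b ≤ (l / (k - 1) + 1) * C2 v := by exact_mod_cast h8
      omega
  · rintro ⟨h2, h3, h4⟩
    set s : ℕ := (l / (k - 1) + 1) * C2 v - b with hs
    have hbs : b + s = (l / (k - 1) + 1) * C2 v := by omega
    by_cases hsB : s < B
    · have h5 : ∃ l', l' % (k - 1) = l % (k - 1) ∧ TQ k l' v s := by
        by_contra hcon
        exact h4 (Finset.mem_filter.2 ⟨Finset.mem_range.2 hsB, hcon⟩)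
      obtain ⟨l', hl', hT⟩ := h5
      have h6 : L2 (l % (k - 1)) s ≤
          ∑ r ∈ Finset.range (k - 1), ∑ s ∈ Finset.range B, L2 r s := by
        refine le_trans (Finset.single_le_sum (f := fun s => L2 (l % (k - 1)) s)
          (fun _ _ => Nat.zero_le _) (Finset.mem_range.2 hsB)) ?_
        exact Finset.single_le_sum (f := fun r => ∑ s ∈ Finset.range B, L2 r s)
          (fun _ _ => Nat.zero_le _) (Finset.mem_range.2 (Nat.mod_lt l hk1))
      obtain ⟨b', hb', hbs'⟩ := hL2 (l % (k - 1)) s l' hl' hT l (by omega) rfl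
      have : b' = b := by omega
      rwa [this] at hb'
    · refine (hex' ?_).2 h2
      have h5 := min_le_left (c * (C2 v : ℝ)) (A * e2 k l v)
      have h6 := mul_le_mul_of_nonneg_right hc' hC.le
      have h7 := mul_le_mul_of_nonneg_right (beta_ge k l (by omega)) hC.le
      have h8 : (b : ℝ) + s = (((l / (k - 1) : ℕ) : ℝ) + 1) * (C2 v : ℝ) := by
        exact_mod_cast hbs
      have h9 : ((c' : ℝ) + 1) * (C2 v : ℝ) + 1 ≤ s := by
        have : B ≤ s := not_lt.1 hsB
        exact_mod_cast this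
      linarith

end Pool.Agent.Helper69.QH
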