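import Pool.Agent.Helper69.QH.Defs
import Pool.Agent.Helper69.QC.HolB
import Pool.Agent.Helper69.QC.RsOne

/-!
Project QH, piece GD: group divisible designs with concurrence one.
-/

set_option autoImplicit false

namespace Pool.Agent.Helper69.QH

open Pool.Agent.Helper69.WV Pool.Agent.Helper53.BN Pool.Agent.Helper69.QB Pool.Agent.Helper69.QC

/-- A group divisible design with `n + 1` groups of size `w`: the last group is the hole. -/
theorem last_hole {k l n w : ℕ} (h : n + 1 ∈ RS k l w) : ∃ c, DC k l c (hol n w w) := by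
  obtain ⟨c, hc⟩ := DD.dc h
  exact ⟨c, hol_succ hc⟩

/-- `rs_one k hk 1 0`: a prime `q` with `k (k - 1) ∣ w = q - 1` and `n1` with `n ∈ RS k 1 w` for all
`n ≥ n1`. `nk` from `hTD k`, `a = nk + k`, `N = n1 + 2`. For `t ≥ t0` (so that `t ≥ n1`, `U ≤ t a` and
`TD (N + 1) (t a)`): `truncH` with `m = N`, `t := t a`, `w`, `h := w` (`last_hole`) gives type `hol N (t a w) (u w)`; the
groups are filled (`fillH` with `a := t`, `w := a w`, `s := 0`) with a design of type `hol t (a w) 0`, which comes from `t ∈ RS k 1 (w a)` (`rs_mul inflate`).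
(`NR` and `hol _ _ 0`: `DC.congr`, or `th_zero`, `hol_zero` in `Helper69/QG/Th.lean`, which may be imported.) -/
theorem types (k : ℕ) (hk : 2 ≤ k) : ∃ w N a : ℕ, 0 < w ∧ k * (k - 1) ∣ w ∧ 0 < N ∧ k ≤ a ∧
    ∀ U, ∃ t0, ∀ t, t0 ≤ t → ∀ u, u ≤ U → ∃ c, DC k 1 c (hol (N * t) (a * w) (u * w)) := by
  obtain ⟨q, hqp, -, -, hqk, -, -, -, n1, hn1⟩ := rs_one k hk 1 0 Nat.one_pos
  obtain ⟨nk, hnk⟩ := hTD k
  obtain ⟨nN, hnN⟩ := hTD (n1 + 2 + 1)
  refine ⟨q - 1, n1 + 2, nk + k, ?_, hqk, by omega, by omega, fun U => ⟨n1 + U + nN + 1, ?_⟩⟩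
  · have := hqp.two_le
    omega
  intro t ht u hu
  have hta : t ≤ t * (nk + k) := Nat.le_mul_of_pos_right _ (by omega)
  obtain ⟨c0, hc0⟩ := DD.dc (hn1 (n1 + 2) (by omega))
  obtain ⟨c1, hc1⟩ := last_hole (hn1 (n1 + 2 + 1) (by omega))
  have ht1 : t ∈ RS k 1 ((nk + k) * (q - 1)) := by
    rw [mul_comm (nk + k) (q - 1)]
    exact rs_mul inflate (hn1 t (by omega)) (hnk (nk + k) (by omega))
  obtain ⟨c2, hc2⟩ := DD.dc ht1
  have h2 := truncH (i := 0) (by omega : 2 ≤ n1 + 2) (by omega : u ≤ t * (nk + k))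
    (hnN (t * (nk + k)) (by omega)) hc0 hc0 (Or.inr hc1) (Nat.zero_le _)
  rw [mul_assoc t (nk + k) (q - 1)] at h2
  have h3 := fillH h2 (hol_zero.2 hc2)
  rw [Nat.add_zero] at h3
  exact ⟨_, h3⟩

end Pool.Agent.Helper69.QH
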