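import Pool.Agent.Helper69.QH.Defs

/-!
Project QH, piece LA: alternating cycles of length four.
-/

set_option autoImplicit false

namespace Pool.Agent.Helper69.QH

variable {N n k : ℕ} {Q : Type} [AddCommGroup Q]

/-- For every `a ∈ A` exactly one of `p < a`, `a < p` holds; `e` is symmetric. -/
theorem ps_insert (e : Fin N → Fin N → Q) (hs : ∀ x y, e x y = e y x) {A : Finset (Fin N)}
    {p : Fin N} (hp : p ∉ A) : ps e (insert p A) = ps e A + ∑ a ∈ A, e p a := by
  unfold ps
  rw [Finset.sum_insert hp, Finset.sum_insert hp]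
  have h1 : ∀ x ∈ A, (∑ y ∈ insert p A, if x < y then e x y else 0)
      = (if x < p then e x p else 0) + ∑ y ∈ A, if x < y then e x y else 0 := fun x _ =>
    Finset.sum_insert hp
  rw [Finset.sum_congr rfl h1, Finset.sum_add_distrib]
  have h2 : ∑ a ∈ A, e p a
      = (∑ a ∈ A, if p < a then e p a else 0) + ∑ a ∈ A, if a < p then e a p else 0 := by
    rw [← Finset.sum_add_distrib]
    refine Finset.sum_congr rfl fun a ha => ?_
    have hne : p ≠ a := fun h => hp (h ▸ ha)
    rcases lt_or_gt_of_ne hne with h | h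
    · rw [if_pos h, if_neg (not_lt.mpr h.le), add_zero]
    · rw [if_pos h, if_neg (not_lt.mpr h.le), zero_add, hs]
  rw [h2, if_neg (lt_irrefl p), zero_add]
  abel

private theorem LA_choose (hk : 2 ≤ k) (hn : k + 2 ≤ n) (hnN : n ≤ N) (p q a b : Fin N) :
    ∃ A : Finset (Fin N), A.card = k - 2 ∧ (∀ x ∈ A, x.val < n) ∧ p ∉ A ∧ q ∉ A ∧ a ∉ A ∧
      b ∉ A := by
  set L : Finset (Fin N) := Finset.univ.filter fun x => x.val < n with hL
  have hLc : L.card = n := by
    have h1 : L = Finset.univ.image (Fin.castLE hnN) := by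
      ext x
      simp only [hL, Finset.mem_filter, Finset.mem_univ, true_and, Finset.mem_image]
      constructor
      · intro h
        exact ⟨⟨x.val, h⟩, by ext; rfl⟩
      · rintro ⟨y, rfl⟩
        exact y.isLt
    rw [h1, Finset.card_image_of_injective _ (Fin.castLE_injective hnN), Finset.card_univ,
      Fintype.card_fin]
  have hD : ({p, q, a, b} : Finset (Fin N)).card ≤ 4 := Finset.card_le_four
  have hc : k - 2 ≤ (L \ {p, q, a, b}).card := by
    have := Finset.le_card_sdiff ({p, q, a, b} : Finset (Fin N)) L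
    omega
  obtain ⟨A, hA, hAc⟩ := Finset.exists_subset_card_eq hc
  have hm : ∀ x ∈ A, x.val < n ∧ x ∉ ({p, q, a, b} : Finset (Fin N)) := by
    intro x hx
    have := Finset.mem_sdiff.mp (hA hx)
    exact ⟨(Finset.mem_filter.mp this.1).2, this.2⟩
  exact ⟨A, hAc, fun x hx => (hm x hx).1, fun h => (hm p h).2 (by simp),
    fun h => (hm q h).2 (by simp), fun h => (hm a h).2 (by simp), fun h => (hm b h).2 (by simp)⟩

private theorem LA_mem (hk : 2 ≤ k) {A : Finset (Fin N)} (hA : A.card = k - 2)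
    (hAn : ∀ x ∈ A, x.val < n) {p a : Fin N} (hp : p ∉ A) (ha : a ∉ A) (hpa : p ≠ a)
    (han : a.val < n) : insert p (insert a A) ∈ Va N n k := by
  unfold Va
  have hp' : p ∉ insert a A := by
    rw [Finset.mem_insert, not_or]
    exact ⟨hpa, hp⟩
  refine Finset.mem_filter.mpr ⟨Finset.mem_univ _, ?_, ?_⟩
  · rw [Finset.card_insert_of_notMem hp', Finset.card_insert_of_notMem ha, hA]
    omega
  · have hsub : (insert p (insert a A)).filter (fun x => n ≤ x.val) ⊆ {p} := by
      intro x hx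
      obtain ⟨h1, h2⟩ := Finset.mem_filter.mp hx
      rcases Finset.mem_insert.mp h1 with h | h
      · exact Finset.mem_singleton.mpr h
      · rcases Finset.mem_insert.mp h with h | h
        · subst h
          omega
        · have := hAn x h
          omega
    exact (Finset.card_le_card hsub).trans (by simp)

private theorem LA_val (e : Fin N → Fin N → Q) (hs : ∀ x y, e x y = e y x)
    {A : Finset (Fin N)} {p a : Fin N} (hp : p ∉ A) (ha : a ∉ A) (hpa : p ≠ a) :
    ps e (insert p (insert a A)) = ps e A + ∑ x ∈ A, e a x + (e p a + ∑ x ∈ A, e p x) := by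
  have hp' : p ∉ insert a A := by
    rw [Finset.mem_insert, not_or]
    exact ⟨hpa, hp⟩
  rw [ps_insert e hs hp', ps_insert e hs ha, Finset.sum_insert ha]

/-- Choose a set `A` of `k - 2` points `< n` without `p, q, a, b` (there are at least `k + 2 - 4` such
points). The sets `A ∪ {p, a}`, `A ∪ {q, b}`, `A ∪ {q, a}`, `A ∪ {p, b}` are in `Va N n k`; by `ps_insert` (twice)
`0 = ps(pa) + ps(qb) - ps(qa) - ps(pb) = e p a + e q b - e q a - e p b`. -/
theorem four (hk : 2 ≤ k) (hn : k + 2 ≤ n) (hnN : n ≤ N) (e : Fin N → Fin N → Q)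
    (hs : ∀ x y, e x y = e y x) (h0 : ∀ A ∈ Va N n k, ps e A = 0) {p q a b : Fin N}
    (hpq : p ≠ q) (hab : a ≠ b) (hpa : p ≠ a) (hpb : p ≠ b) (hqa : q ≠ a) (hqb : q ≠ b)
    (ha : a.val < n) (hb : b.val < n) : e p a + e q b = e q a + e p b := by
  obtain ⟨A, hA, hAn, hpA, hqA, haA, hbA⟩ := LA_choose hk hn hnN p q a b
  have h1 := h0 _ (LA_mem hk hA hAn hpA haA hpa ha)
  have h2 := h0 _ (LA_mem hk hA hAn hqA hbA hqb hb)
  have h3 := h0 _ (LA_mem hk hA hAn hqA haA hqa ha)
  have h4 := h0 _ (LA_mem hk hA hAn hpA hbA hpb hb)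
  rw [LA_val e hs hpA haA hpa] at h1
  rw [LA_val e hs hqA hbA hqb] at h2
  rw [LA_val e hs hqA haA hqa] at h3
  rw [LA_val e hs hpA hbA hpb] at h4
  have h5 : (e p a + e q b) - (e q a + e p b)
      = (ps e A + ∑ x ∈ A, e a x + (e p a + ∑ x ∈ A, e p x))
        + (ps e A + ∑ x ∈ A, e b x + (e q b + ∑ x ∈ A, e q x))
        - (ps e A + ∑ x ∈ A, e a x + (e q a + ∑ x ∈ A, e q x))
        - (ps e A + ∑ x ∈ A, e b x + (e p b + ∑ x ∈ A, e p x)) := by
    abel
  rw [h1, h2, h3, h4] at h5
  simpa [sub_eq_zero] using h5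

end Pool.Agent.Helper69.QH
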