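import Pool.Agent.Helper69.QH.LA

/-!
Project QH, piece LB: an edge function which vanishes on the `k`-sets is a sum of point functions.
-/

set_option autoImplicit false

namespace Pool.Agent.Helper69.QH

variable {N n k : ℕ} {Q : Type} [AddCommGroup Q]

/-- Let `o1, o2, o3` be the points `0, 1, 2` (they are `< n`), `κ = e o1 o2 + e o1 o3 - e o2 o3`, `g o1 = κ`
and `g x = e o1 x` for `x ≠ o1`. Only the four-cycle rule `h4` (`four`) is used.
For `x = o1` or `y = o1`: clear. For `x = o2` (or `y = o2`): `y = o3` is clear, and for `y ≠ o3` take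
`h4` with `p = y`, `q = o3`, `a = o2`, `b = o1`. In the other cases let `y < n` (otherwise exchange
`x` and `y`) and take `h4` with `p = x`, `q = o1`, `a = y`, `b = o2`, and the case before for
`e x o2`. -/
theorem potential (hn : 4 ≤ n) (hnN : n ≤ N) (e : Fin N → Fin N → Q)
    (hs : ∀ x y, e x y = e y x)
    (h4 : ∀ p q a b : Fin N, p ≠ q → a ≠ b → p ≠ a → p ≠ b → q ≠ a → q ≠ b → a.val < n →
      b.val < n → e p a + e q b = e q a + e p b) :
    ∃ (g : Fin N → Q) (κ : Q), ∀ x y, x ≠ y → (x.val < n ∨ y.val < n) →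
      e x y = g x + g y - κ := by
  classical
  set o1 : Fin N := ⟨0, by omega⟩ with ho1
  set o2 : Fin N := ⟨1, by omega⟩ with ho2
  set o3 : Fin N := ⟨2, by omega⟩ with ho3
  have h12 : o1 ≠ o2 := fun h => by
    have := congrArg Fin.val h
    simp [ho1, ho2] at this
  have h13 : o1 ≠ o3 := fun h => by
    have := congrArg Fin.val h
    simp [ho1, ho3] at this
  have h23 : o2 ≠ o3 := fun h => by
    have := congrArg Fin.val h
    simp [ho2, ho3] at this
  have l1 : o1.val < n := by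
    show 0 < n
    omega
  have l2 : o2.val < n := by
    show 1 < n
    omega
  set κ : Q := e o1 o2 + e o1 o3 - e o2 o3 with hκ
  let g : Fin N → Q := fun x => if x = o1 then κ else e o1 x
  have g1 : g o1 = κ := if_pos rfl
  have gne : ∀ x, x ≠ o1 → g x = e o1 x := fun x hx => if_neg hx
  -- one of the points is `o1`
  have c1 : ∀ y, y ≠ o1 → e o1 y = g o1 + g y - κ := by
    intro y hy
    rw [g1, gne y hy]
    abel
  -- one of the points is `o2`
  have c2 : ∀ y, y ≠ o1 → y ≠ o2 → e y o2 = g y + g o2 - κ := by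
    intro y hy1 hy2
    by_cases hy3 : y = o3
    · rw [hy3, hs o3 o2, gne o3 h13.symm, gne o2 h12.symm, hκ]
      abel
    · have h5 := h4 y o3 o2 o1 hy3 h12.symm hy2 hy1 h23.symm h13.symm l2 l1
      have h6 : e y o2 = e o3 o2 + e y o1 - e o3 o1 := by
        rw [← h5]
        abel
      rw [h6, gne y hy1, gne o2 h12.symm, hκ, hs o3 o2, hs y o1, hs o3 o1]
      abel
  have c3 : ∀ x y, x ≠ y → x ≠ o1 → y ≠ o1 → x ≠ o2 → y ≠ o2 → y.val < n →
      e x y = g x + g y - κ := by
    intro x y hxy hx1 hy1 hx2 hy2 hy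
    have h5 := h4 x o1 y o2 hx1 hy2 hxy hx2 hy1.symm h12 hy l2
    have h6 : e x y = e o1 y + e x o2 - e o1 o2 := by
      rw [← h5]
      abel
    rw [h6, c2 x hx1 hx2, gne y hy1, gne o2 h12.symm]
    abel
  refine ⟨g, κ, fun x y hxy hn' => ?_⟩
  by_cases hx1 : x = o1
  · rw [hx1]
    exact c1 y (fun h => hxy (hx1.trans h.symm))
  by_cases hy1 : y = o1
  · rw [hy1, hs, c1 x hx1]
    abel
  by_cases hx2 : x = o2
  · have hy2 : y ≠ o2 := fun h => hxy (hx2.trans h.symm)
    rw [hx2, hs, c2 y hy1 hy2]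
    abel
  by_cases hy2 : y = o2
  · rw [hy2, c2 x hx1 hx2]
  rcases hn' with hx | hy
  · rw [hs, c3 y x hxy.symm hy1 hx1 hy2 hx2 hx]
    abel
  · exact c3 x y hxy hx1 hy1 hx2 hy2 hy

end Pool.Agent.Helper69.QH
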