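import Pool.Agent.Helper69.QH.LB

/-!
Project QH, piece LC: the divisibility conditions, in an abelian group.
-/

set_option autoImplicit false

namespace Pool.Agent.Helper69.QH

variable {N n k : ℕ} {Q : Type} [AddCommGroup Q]

private theorem LC_pairsum {N : ℕ} {Q : Type} [AddCommGroup Q] (A : Finset (Fin N)) (u : Fin N → Fin N → ℤ)
    (hus : ∀ x y, u x y = u y x) (hd : ∀ x, u x x = 0) (g : Fin N → Q) :
    ∑ x ∈ A, ∑ y ∈ A, (if x < y then u x y • (g x + g y) else 0) =
      ∑ x ∈ A, (∑ y ∈ A, u x y) • g x := by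
  have h1 : ∑ x ∈ A, ∑ y ∈ A, (if x < y then u x y • (g x + g y) else 0) =
      ∑ x ∈ A, ∑ y ∈ A, (if x < y then u x y • g x else 0) +
      ∑ x ∈ A, ∑ y ∈ A, (if x < y then u x y • g y else 0) := by
    rw [← Finset.sum_add_distrib]
    refine Finset.sum_congr rfl fun x _ => ?_
    rw [← Finset.sum_add_distrib]
    refine Finset.sum_congr rfl fun y _ => ?_
    split_ifs
    · rw [smul_add]
    · rw [add_zero]
  have h2 : ∑ x ∈ A, ∑ y ∈ A, (if x < y then u x y • g y else 0) =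
      ∑ x ∈ A, ∑ y ∈ A, (if y < x then u x y • g x else 0) := by
    rw [Finset.sum_comm]
    refine Finset.sum_congr rfl fun x _ => Finset.sum_congr rfl fun y _ => ?_
    rw [hus y x]
  rw [h1, h2, ← Finset.sum_add_distrib]
  refine Finset.sum_congr rfl fun x _ => ?_
  rw [← Finset.sum_add_distrib, Finset.sum_smul]
  refine Finset.sum_congr rfl fun y _ => ?_
  rcases lt_trichotomy x y with h | h | h
  · rw [if_pos h, if_neg (not_lt.2 h.le), add_zero]
  · subst h
    rw [if_neg (lt_irrefl _), hd, zero_smul, add_zero]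
  · rw [if_neg (not_lt.2 h.le), if_pos h, zero_add]

private theorem LC_half {N : ℕ} (A : Finset (Fin N)) (u : Fin N → Fin N → ℤ)
    (hus : ∀ x y, u x y = u y x) (hd : ∀ x, u x x = 0) :
    2 * ∑ x ∈ A, ∑ y ∈ A, (if x < y then u x y else 0) = ∑ x ∈ A, ∑ y ∈ A, u x y := by
  have h := LC_pairsum A u hus hd (fun _ => (1 : ℤ))
  simp only [smul_eq_mul, mul_one] at h
  rw [← h, Finset.mul_sum]
  refine Finset.sum_congr rfl fun x _ => ?_
  rw [Finset.mul_sum]
  refine Finset.sum_congr rfl fun y _ => ?_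
  split_ifs
  · ring
  · ring

private theorem LC_total {N : ℕ} {Q : Type} [AddCommGroup Q] (A : Finset (Fin N)) (u : Fin N → Fin N → ℤ)
    (hus : ∀ x y, u x y = u y x) (hd : ∀ x, u x x = 0) (g : Fin N → Q) (κ : Q) :
    ∑ x ∈ A, ∑ y ∈ A, (if x < y then u x y • (g x + g y - κ) else 0) =
      ∑ x ∈ A, (∑ y ∈ A, u x y) • g x - (∑ x ∈ A, ∑ y ∈ A, (if x < y then u x y else 0)) • κ := by
  rw [← LC_pairsum A u hus hd g, Finset.sum_smul, ← Finset.sum_sub_distrib]
  refine Finset.sum_congr rfl fun x _ => ?_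
  rw [Finset.sum_smul, ← Finset.sum_sub_distrib]
  refine Finset.sum_congr rfl fun y _ => ?_
  split_ifs
  · rw [smul_sub]
  · rw [zero_smul, sub_zero]

private theorem LC_half_nat (k : ℕ) (hk : 1 ≤ k) : 2 * (((k * (k - 1) / 2 : ℕ) : ℤ)) = (k : ℤ) * ((k - 1 : ℕ) : ℤ) := by
  have h1 : 2 * (k * (k - 1) / 2) = k * (k - 1) := by
    have h2 : 2 ∣ k * (k - 1) := by
      have := Nat.even_mul_pred_self k
      exact this.two_dvd
    exact Nat.mul_div_cancel' h2
  exact_mod_cast h1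

private theorem LC_ps {N n k : ℕ} {Q : Type} [AddCommGroup Q] (hk : 2 ≤ k) (e : Fin N → Fin N → Q)
    (g : Fin N → Q) (κ : Q)
    (hg : ∀ x y, x ≠ y → (x.val < n ∨ y.val < n) → e x y = g x + g y - κ) {A : Finset (Fin N)}
    (hA : A ∈ Va N n k) : ps e A = (k - 1) • ∑ a ∈ A, g a - (k * (k - 1) / 2) • κ := by
  classical
  unfold Va at hA
  rw [Finset.mem_filter] at hA
  obtain ⟨-, hc, hh⟩ := hA
  have h1 : ps e A = ∑ x ∈ A, ∑ y ∈ A,
      (if x < y then (if x = y then (0 : ℤ) else 1) • (g x + g y - κ) else 0) := by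
    unfold ps
    refine Finset.sum_congr rfl fun x hx => Finset.sum_congr rfl fun y hy => ?_
    by_cases hxy : x < y
    · rw [if_pos hxy, if_pos hxy, if_neg (ne_of_lt hxy), one_smul]
      refine hg x y (ne_of_lt hxy) ?_
      by_contra hcon
      push Not at hcon
      have h2 : ({x, y} : Finset (Fin N)) ⊆ A.filter fun x => n ≤ x.val := by
        intro z hz
        rw [Finset.mem_insert, Finset.mem_singleton] at hz
        rcases hz with rfl | rfl
        · exact Finset.mem_filter.2 ⟨hx, hcon.1⟩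
        · exact Finset.mem_filter.2 ⟨hy, hcon.2⟩
      have h3 := (Finset.card_le_card h2).trans hh
      rw [Finset.card_pair (ne_of_lt hxy)] at h3
      omega
    · rw [if_neg hxy, if_neg hxy]
  have hus : ∀ x y : Fin N, (if x = y then (0 : ℤ) else 1) = if y = x then (0 : ℤ) else 1 := by
    intro x y
    by_cases h : x = y
    · rw [if_pos h, if_pos h.symm]
    · rw [if_neg h, if_neg (fun h' => h h'.symm)]
  have hd : ∀ x : Fin N, (if x = x then (0 : ℤ) else 1) = 0 := fun x => if_pos rfl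
  have hdeg : ∀ x ∈ A, ∑ y ∈ A, (if x = y then (0 : ℤ) else 1) = ((k - 1 : ℕ) : ℤ) := by
    intro x hx
    have h2 : ∑ y ∈ A, (if x = y then (0 : ℤ) else 1) = ∑ y ∈ A, ((1 : ℤ) - if x = y then 1 else 0) := by
      refine Finset.sum_congr rfl fun y _ => ?_
      split_ifs <;> norm_num
    rw [h2, Finset.sum_sub_distrib, Finset.sum_ite_eq, if_pos hx, Finset.sum_const, hc, nsmul_eq_mul,
      mul_one, Nat.cast_sub (by omega)]
    norm_num
  rw [h1, LC_total A _ hus hd g κ]
  have h4 := LC_half A (fun x y => if x = y then (0 : ℤ) else 1) hus hd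
  have h5 : ∑ x ∈ A, ∑ y ∈ A, (if x = y then (0 : ℤ) else 1) = (k : ℤ) * ((k - 1 : ℕ) : ℤ) := by
    rw [Finset.sum_congr rfl hdeg, Finset.sum_const, hc, nsmul_eq_mul]
  rw [h5, ← LC_half_nat k (by omega)] at h4
  have h6 : ∑ x ∈ A, ∑ y ∈ A, (if x < y then (if x = y then (0 : ℤ) else 1) else 0) =
      ((k * (k - 1) / 2 : ℕ) : ℤ) := by
    exact mul_left_cancel₀ two_ne_zero h4
  rw [h6, natCast_zsmul]
  congr 1
  rw [Finset.smul_sum]
  refine Finset.sum_congr rfl fun x hx => ?_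
  rw [hdeg x hx, natCast_zsmul]

private theorem LC_exists_set {N n : ℕ} (hnN : n ≤ N) (m : ℕ) (p q : Fin N) (hm : m + 2 ≤ n) :
    ∃ A : Finset (Fin N), A.card = m ∧ (∀ a ∈ A, a.val < n) ∧ p ∉ A ∧ q ∉ A := by
  classical
  let S : Finset (Fin N) := (Finset.univ.filter fun x : Fin N => x.val < n) \ {p, q}
  have h1 : (Finset.univ.filter fun x : Fin N => x.val < n).card = n := by
    have h2 : (Finset.univ.filter fun x : Fin N => x.val < n) =
        (Finset.univ : Finset (Fin n)).map (Fin.castLEEmb hnN) := by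
      ext x
      rw [Finset.mem_filter, Finset.mem_map]
      constructor
      · rintro ⟨-, hx⟩
        exact ⟨⟨x.val, hx⟩, Finset.mem_univ _, Fin.ext rfl⟩
      · rintro ⟨y, -, rfl⟩
        exact ⟨Finset.mem_univ _, y.2⟩
    rw [h2, Finset.card_map, Finset.card_univ, Fintype.card_fin]
  have h3 : m ≤ S.card := by
    have h4 := Finset.le_card_sdiff ({p, q} : Finset (Fin N)) (Finset.univ.filter fun x : Fin N => x.val < n)
    have h5 : ({p, q} : Finset (Fin N)).card ≤ 2 := Finset.card_le_two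
    have h6 : S.card = ((Finset.univ.filter fun x : Fin N => x.val < n) \ {p, q}).card := rfl
    rw [h1] at h4
    omega
  obtain ⟨A, hA, hAc⟩ := Finset.exists_subset_card_eq h3
  refine ⟨A, hAc, fun a ha => ?_, fun hp => ?_, fun hq => ?_⟩
  · exact (Finset.mem_filter.1 (Finset.mem_sdiff.1 (hA ha)).1).2
  · exact (Finset.mem_sdiff.1 (hA hp)).2 (by simp)
  · exact (Finset.mem_sdiff.1 (hA hq)).2 (by simp)

private theorem LC_insert_mem {N n k : ℕ} (hk : 2 ≤ k) {A : Finset (Fin N)} (hc : A.card = k - 1)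
    (hA : ∀ a ∈ A, a.val < n) {p : Fin N} (hp : p ∉ A) : insert p A ∈ Va N n k := by
  classical
  unfold Va
  rw [Finset.mem_filter]
  refine ⟨Finset.mem_univ _, ?_, ?_⟩
  · rw [Finset.card_insert_of_notMem hp, hc]
    omega
  · have h1 : (insert p A).filter (fun x => n ≤ x.val) ⊆ {p} := by
      intro x hx
      rw [Finset.mem_filter, Finset.mem_insert] at hx
      rcases hx.1 with h | h
      · exact Finset.mem_singleton.2 h
      · exact absurd hx.2 (not_le.2 (hA x h))
    exact (Finset.card_le_card h1).trans (by rw [Finset.card_singleton])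

/-- Let `e x y = g x + g y - κ` on the edges (`potential`, `four`). For a set `A ∈ Va N n k`:
`0 = ps e A = (k - 1) ∑ a ∈ A, g a - (k (k - 1) / 2) κ`. (1) For two points `p ≠ q` take a set `A` of `k - 1`
points `< n` without `p`, `q` (`A ∪ {p}`, `A ∪ {q}` are in `Va`): `(k - 1) g p = (k - 1) g q`; let `G` be this element.
(2) So `k G = (k (k - 1) / 2) κ`. -/
theorem gens (hk : 2 ≤ k) (hn : k + 2 ≤ n) (hnN : n ≤ N) (e : Fin N → Fin N → Q)
    (h0 : ∀ A ∈ Va N n k, ps e A = 0) (g : Fin N → Q) (κ : Q)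
    (hg : ∀ x y, x ≠ y → (x.val < n ∨ y.val < n) → e x y = g x + g y - κ) :
    ∃ G : Q, (∀ x, (k - 1) • g x = G) ∧ k • G = (k * (k - 1) / 2) • κ := by
  classical
  have hN : 0 < N := by omega
  have key : ∀ p q : Fin N, (k - 1) • g p = (k - 1) • g q := by
    intro p q
    obtain ⟨A, hc, hA, hp, hq⟩ := LC_exists_set hnN (k - 1) p q (by omega)
    have h1 := LC_ps hk e g κ hg (LC_insert_mem hk hc hA hp)
    have h2 := LC_ps hk e g κ hg (LC_insert_mem hk hc hA hq)
    rw [h0 _ (LC_insert_mem hk hc hA hp), Finset.sum_insert hp, smul_add] at h1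
    rw [h0 _ (LC_insert_mem hk hc hA hq), Finset.sum_insert hq, smul_add, h1] at h2
    have h3 := sub_left_injective h2
    exact add_right_cancel h3
  refine ⟨(k - 1) • g ⟨0, hN⟩, fun x => key x _, ?_⟩
  obtain ⟨A, hc, hA, hp, -⟩ := LC_exists_set hnN (k - 1) (⟨0, hN⟩ : Fin N) ⟨0, hN⟩ (by omega)
  have hm := LC_insert_mem hk hc hA hp
  have h1 := LC_ps hk e g κ hg hm
  rw [h0 _ hm, Finset.smul_sum, Finset.sum_congr rfl (fun x _ => key x ⟨0, hN⟩), Finset.sum_const,
    Finset.card_insert_of_notMem hp, hc] at h1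
  have h2 : k - 1 + 1 = k := by omega
  rw [h2] at h1
  exact (sub_eq_zero.1 h1.symm)

/-- Let `g, κ` be from `potential` (with `four`) and `G` from `gens`. Let `u` be symmetric, `0` on the diagonal and on the pairs
in the hole, `deg x = ∑ y, u x y = (k - 1) m x`, `∑ x, ∑ y, u x y = k (k - 1) M`. Then
`∑ x < y, u x y = k (k - 1) M / 2`, `∑ x, m x = k M`, and the sum is
`∑ x < y, u x y (g x + g y - κ) = ∑ x, (deg x) g x - (k (k - 1) M / 2) κ = ∑ x, m x G - M (k (k - 1) / 2) κ = M (k G - (k (k - 1) / 2) κ) = 0`. -/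
theorem lat_group (hk : 2 ≤ k) (hn : k + 2 ≤ n) (hnN : n ≤ N) (e : Fin N → Fin N → Q)
    (hs : ∀ x y, e x y = e y x) (h0 : ∀ A ∈ Va N n k, ps e A = 0) (u : Fin N → Fin N → ℤ)
    (hus : ∀ x y, u x y = u y x) (hd : ∀ x, u x x = 0)
    (hR : ∀ x y : Fin N, n ≤ x.val → n ≤ y.val → u x y = 0)
    (h1 : ∀ x, ((k - 1 : ℕ) : ℤ) ∣ ∑ y, u x y) (h2 : ((k * (k - 1) : ℕ) : ℤ) ∣ ∑ x, ∑ y, u x y) :
    ∑ x, ∑ y, (if x < y then u x y • e x y else 0) = 0 := by
  classical
  obtain ⟨g, κ, hg⟩ := potential (by omega : 4 ≤ n) hnN e hs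
    (fun p q a b hpq hab hpa hpb hqa hqb ha hb => four hk hn hnN e hs h0 hpq hab hpa hpb hqa hqb ha hb)
  obtain ⟨G, hG1, hG2⟩ := gens hk hn hnN e h0 g κ hg
  choose m hm using h1
  obtain ⟨M, hM⟩ := h2
  have e1 : ∑ x, ∑ y, (if x < y then u x y • e x y else 0) =
      ∑ x, ∑ y, (if x < y then u x y • (g x + g y - κ) else 0) := by
    refine Finset.sum_congr rfl fun x _ => Finset.sum_congr rfl fun y _ => ?_
    by_cases hxy : x < y
    · rw [if_pos hxy, if_pos hxy]
      by_cases hh : x.val < n ∨ y.val < n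
      · rw [hg x y (ne_of_lt hxy) hh]
      · push Not at hh
        rw [hR x y hh.1 hh.2, zero_smul, zero_smul]
    · rw [if_neg hxy, if_neg hxy]
  rw [e1, LC_total Finset.univ u hus hd g κ]
  have e2 : ∀ x, (∑ y, u x y) • g x = m x • G := by
    intro x
    rw [hm x, mul_comm, mul_smul, natCast_zsmul, hG1 x]
  rw [Finset.sum_congr rfl (fun x _ => e2 x), ← Finset.sum_smul]
  have hk0 : ((k - 1 : ℕ) : ℤ) ≠ 0 := by
    have : 0 < k - 1 := by omega
    exact_mod_cast this.ne'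
  have e3 : ∑ x, m x = (k : ℤ) * M := by
    have h3 : ((k - 1 : ℕ) : ℤ) * ∑ x, m x = ((k - 1 : ℕ) : ℤ) * ((k : ℤ) * M) := by
      rw [Finset.mul_sum, ← Finset.sum_congr rfl (fun x _ => hm x), hM]
      push_cast
      ring
    exact mul_left_cancel₀ hk0 h3
  have e4 : ∑ x, ∑ y, (if x < y then u x y else 0) = ((k * (k - 1) / 2 : ℕ) : ℤ) * M := by
    have h3 := LC_half Finset.univ u hus hd
    have h4 := LC_half_nat k (by omega)
    rw [hM] at h3
    have h5 : ((k * (k - 1) : ℕ) : ℤ) = 2 * (((k * (k - 1) / 2 : ℕ) : ℤ)) := by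
      rw [h4]
      push_cast
      ring
    rw [h5] at h3
    have h6 : (2 : ℤ) * ∑ x, ∑ y, (if x < y then u x y else 0) =
        2 * (((k * (k - 1) / 2 : ℕ) : ℤ) * M) := by
      rw [h3]
      ring
    exact mul_left_cancel₀ two_ne_zero h6
  rw [e3, e4, mul_comm (k : ℤ) M, mul_smul, natCast_zsmul, hG2, mul_comm _ M, mul_smul, natCast_zsmul, sub_self]

end Pool.Agent.Helper69.QH
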