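import Pool.Agent.Helper69.QH.LC

/-!
Project QH, piece LD: the lattice of the `k`-sets.
-/

set_option autoImplicit false

namespace Pool.Agent.Helper69.QH

/-- The indicator of the edge `x y`. -/
private def LD_E {N : ℕ} (x y : Fin N) : Fin N → Fin N → ℤ :=
  fun a b => if x ≠ y ∧ ((a = x ∧ b = y) ∨ (a = y ∧ b = x)) then 1 else 0

private theorem LD_E_symm {N : ℕ} (x y : Fin N) : (LD_E x y : Fin N → Fin N → ℤ) = LD_E y x := by
  funext a b
  unfold LD_E
  refine if_congr ?_ rfl rfl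
  constructor
  · rintro ⟨h, h'⟩
    exact ⟨h.symm, h'.symm⟩
  · rintro ⟨h, h'⟩
    exact ⟨h.symm, h'.symm⟩

private theorem LD_E_swap {N : ℕ} (x y a b : Fin N) : LD_E x y a b = LD_E x y b a := by
  unfold LD_E
  refine if_congr ?_ rfl rfl
  constructor
  · rintro ⟨h, h'⟩
    refine ⟨h, ?_⟩
    rcases h' with ⟨h1, h2⟩ | ⟨h1, h2⟩
    · exact Or.inr ⟨h2, h1⟩
    · exact Or.inl ⟨h2, h1⟩
  · rintro ⟨h, h'⟩
    refine ⟨h, ?_⟩
    rcases h' with ⟨h1, h2⟩ | ⟨h1, h2⟩
    · exact Or.inr ⟨h2, h1⟩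
    · exact Or.inl ⟨h2, h1⟩

private theorem LD_sum_lt {N : ℕ} (S : Finset (Fin N)) (w : Fin N → Fin N → ℤ)
    (x y : Fin N) (hxy : x < y) :
    ∑ a ∈ S, ∑ b ∈ S, (if a < b then w a b * LD_E a b x y else 0) =
      if x ∈ S ∧ y ∈ S then w x y else 0 := by
  have h1 : ∀ a b : Fin N, (if a < b then w a b * LD_E a b x y else 0) =
      if a = x then (if b = y then w x y else 0) else 0 := by
    intro a b
    by_cases hab : a < b
    · rw [if_pos hab]
      unfold LD_E
      by_cases hax : a = x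
      · rw [if_pos hax]
        by_cases hby : b = y
        · rw [if_pos hby, if_pos ⟨ne_of_lt hab, Or.inl ⟨hax.symm, hby.symm⟩⟩, hax, hby, mul_one]
        · rw [if_neg hby, if_neg, mul_zero]
          rintro ⟨-, ⟨h1, h2⟩ | ⟨h1, h2⟩⟩
          · exact hby h2.symm
          · exact absurd (hax.trans h1) (ne_of_lt hab)
      · rw [if_neg hax, if_neg, mul_zero]
        rintro ⟨-, ⟨h1, h2⟩ | ⟨h1, h2⟩⟩
        · exact hax h1.symm
        · rw [h1, h2] at hxy
          exact absurd hxy (not_lt.2 hab.le)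
    · rw [if_neg hab]
      by_cases hax : a = x
      · rw [if_pos hax]
        by_cases hby : b = y
        · exact absurd (by rw [hax, hby]; exact hxy) hab
        · rw [if_neg hby]
      · rw [if_neg hax]
  have h2 : ∑ a ∈ S, ∑ b ∈ S, (if a < b then w a b * LD_E a b x y else 0) =
      ∑ a ∈ S, (if a = x then (∑ b ∈ S, if b = y then w x y else 0) else 0) := by
    refine Finset.sum_congr rfl fun a _ => ?_
    by_cases hax : a = x
    · rw [if_pos hax]
      refine Finset.sum_congr rfl fun b _ => ?_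
      rw [h1, if_pos hax]
    · rw [if_neg hax]
      refine Finset.sum_eq_zero fun b _ => ?_
      rw [h1, if_neg hax]
  rw [h2, Finset.sum_ite_eq', Finset.sum_ite_eq']
  by_cases hx : x ∈ S
  · by_cases hy : y ∈ S
    · rw [if_pos hx, if_pos hy, if_pos ⟨hx, hy⟩]
    · rw [if_pos hx, if_neg hy, if_neg (fun h => hy h.2)]
  · rw [if_neg hx, if_neg (fun h => hx h.1)]

private theorem LD_sum {N : ℕ} (S : Finset (Fin N)) (w : Fin N → Fin N → ℤ)
    (hw : ∀ x y, w x y = w y x) (x y : Fin N) (hxy : x ≠ y) :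
    ∑ a ∈ S, ∑ b ∈ S, (if a < b then w a b * LD_E a b x y else 0) =
      if x ∈ S ∧ y ∈ S then w x y else 0 := by
  rcases lt_or_gt_of_ne hxy with h | h
  · exact LD_sum_lt S w x y h
  · have h3 := LD_sum_lt S w y x h
    have h4 : ∑ a ∈ S, ∑ b ∈ S, (if a < b then w a b * LD_E a b x y else 0) =
        ∑ a ∈ S, ∑ b ∈ S, (if a < b then w a b * LD_E a b y x else 0) := by
      refine Finset.sum_congr rfl fun a _ => Finset.sum_congr rfl fun b _ => ?_
      rw [LD_E_swap a b x y]
    rw [h4, h3, hw y x]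
    exact if_congr and_comm rfl rfl

private theorem LD_ps_apply {N : ℕ} (A : Finset (Fin N)) (x y : Fin N) (hxy : x ≠ y) :
    ps (LD_E (N := N)) A x y = if x ∈ A ∧ y ∈ A then 1 else 0 := by
  have h := LD_sum A (fun _ _ => (1 : ℤ)) (fun _ _ => rfl) x y hxy
  rw [← h]
  unfold ps
  rw [Finset.sum_apply, Finset.sum_apply]
  refine Finset.sum_congr rfl fun a _ => ?_
  rw [Finset.sum_apply, Finset.sum_apply]
  refine Finset.sum_congr rfl fun b _ => ?_
  by_cases hab : a < b
  · rw [if_pos hab, if_pos hab, one_mul]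
  · rw [if_neg hab, if_neg hab]
    rfl

/-- Let `F = Fin N → Fin N → ℤ`, `E x y ∈ F` the function which is `1` at `(x, y)` and at `(y, x)`, and `0`
elsewhere (for `x ≠ y`; `E x x = 0`), `Λ` the additive subgroup of `F` generated by the `ps E A`, `A ∈ Va N n k`. `ps E A` is the function
`1` at the pairs `(x, y)` of different points of `A` and `0` elsewhere. By `lat_group` for `Q = F ⧸ Λ` and
`e x y` = the class of `E x y`, the class of `∑ x < y, u x y • E x y = u` is `0`, so `u ∈ Λ`, so `u` is an integral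
combination of the `ps E A` (`AddSubgroup.closure_induction`, or `mem_closure_range`/`Finsupp`). -/
theorem lat {N n k : ℕ} (hk : 2 ≤ k) (hn : k + 2 ≤ n) (hnN : n ≤ N) (u : Fin N → Fin N → ℤ)
    (hus : ∀ x y, u x y = u y x) (hd : ∀ x, u x x = 0)
    (hR : ∀ x y : Fin N, n ≤ x.val → n ≤ y.val → u x y = 0)
    (h1 : ∀ x, ((k - 1 : ℕ) : ℤ) ∣ ∑ y, u x y) (h2 : ((k * (k - 1) : ℕ) : ℤ) ∣ ∑ x, ∑ y, u x y) :
    ∃ c : Finset (Fin N) → ℤ, ∀ x y, x ≠ y →
      u x y = ∑ A ∈ (Va N n k).filter (fun A => x ∈ A ∧ y ∈ A), c A := by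
  classical
  let L : AddSubgroup (Fin N → Fin N → ℤ) :=
    AddSubgroup.closure ((fun A => ps (LD_E (N := N)) A) '' (↑(Va N n k) : Set (Finset (Fin N))))
  let e : Fin N → Fin N → (Fin N → Fin N → ℤ) ⧸ L := fun x y =>
    QuotientAddGroup.mk' L (LD_E x y)
  have hs : ∀ x y, e x y = e y x := by
    intro x y
    change QuotientAddGroup.mk' L (LD_E x y) = QuotientAddGroup.mk' L (LD_E y x)
    rw [LD_E_symm]
  have hps : ∀ A, ps e A = QuotientAddGroup.mk' L (ps (LD_E (N := N)) A) := by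
    intro A
    unfold ps
    rw [map_sum]
    refine Finset.sum_congr rfl fun x _ => ?_
    rw [map_sum]
    refine Finset.sum_congr rfl fun y _ => ?_
    by_cases hxy : x < y
    · rw [if_pos hxy, if_pos hxy]
    · rw [if_neg hxy, if_neg hxy, map_zero]
  have h0 : ∀ A ∈ Va N n k, ps e A = 0 := by
    intro A hA
    rw [hps]
    exact (QuotientAddGroup.eq_zero_iff _).2
      (AddSubgroup.subset_closure ⟨A, Finset.mem_coe.2 hA, rfl⟩)
  have hmain := lat_group hk hn hnN e hs h0 u hus hd hR h1 h2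
  have hmem : (∑ x, ∑ y, (if x < y then u x y • LD_E x y else 0) : Fin N → Fin N → ℤ) ∈ L := by
    rw [← QuotientAddGroup.eq_zero_iff]
    rw [← hmain]
    change QuotientAddGroup.mk' L _ = _
    rw [map_sum]
    refine Finset.sum_congr rfl fun x _ => ?_
    rw [map_sum]
    refine Finset.sum_congr rfl fun y _ => ?_
    by_cases hxy : x < y
    · rw [if_pos hxy, if_pos hxy, map_zsmul]
    · rw [if_neg hxy, if_neg hxy, map_zero]
  have hcomb : ∀ f : Fin N → Fin N → ℤ, f ∈ L → ∃ c : Finset (Fin N) → ℤ, ∀ x y, x ≠ y →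
      f x y = ∑ A ∈ (Va N n k).filter (fun A => x ∈ A ∧ y ∈ A), c A := by
    intro f hf
    induction hf using AddSubgroup.closure_induction with
    | mem f hf =>
      obtain ⟨A, hA, rfl⟩ := hf
      refine ⟨fun B => if B = A then 1 else 0, fun x y hxy => ?_⟩
      change ps (LD_E (N := N)) A x y = _
      rw [LD_ps_apply A x y hxy, Finset.sum_ite_eq']
      refine if_congr ?_ rfl rfl
      rw [Finset.mem_filter]
      exact ⟨fun h => ⟨Finset.mem_coe.1 hA, h⟩, fun h => h.2⟩
    | zero =>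
      refine ⟨fun _ => 0, fun x y _ => ?_⟩
      rw [Finset.sum_const_zero]
      rfl
    | add f g _ _ hf hg =>
      obtain ⟨c, hc⟩ := hf
      obtain ⟨d, hd'⟩ := hg
      refine ⟨fun A => c A + d A, fun x y hxy => ?_⟩
      rw [Finset.sum_add_distrib, ← hc x y hxy, ← hd' x y hxy]
      rfl
    | neg f _ hf =>
      obtain ⟨c, hc⟩ := hf
      refine ⟨fun A => - c A, fun x y hxy => ?_⟩
      rw [Finset.sum_neg_distrib, ← hc x y hxy]
      rfl
  obtain ⟨c, hc⟩ := hcomb _ hmem
  refine ⟨c, fun x y hxy => ?_⟩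
  rw [← hc x y hxy]
  have h5 := LD_sum Finset.univ u hus x y hxy
  rw [if_pos ⟨Finset.mem_univ _, Finset.mem_univ _⟩] at h5
  rw [← h5, Finset.sum_apply, Finset.sum_apply]
  refine Finset.sum_congr rfl fun a _ => ?_
  rw [Finset.sum_apply, Finset.sum_apply]
  refine Finset.sum_congr rfl fun b _ => ?_
  by_cases hab : a < b
  · rw [if_pos hab, if_pos hab]
    rw [Pi.smul_apply, Pi.smul_apply, smul_eq_mul]
  · rw [if_neg hab, if_neg hab]
    rfl

end Pool.Agent.Helper69.QH
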