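import Pool.Agent.Helper69.QH.NV
import Pool.Agent.Helper69.QD.Low
import Pool.Agent.Helper53.BN.Five

/-!
Project QH, piece LX: from the lower bound to the middle.
-/

set_option autoImplicit false

namespace Pool.Agent.Helper69.QH

open Pool.Agent.Helper69.WV Pool.Agent.Helper53.BN Pool.Agent.Helper69.QB Pool.Agent.Helper69.QC
open Pool.Agent.Helper69.QD

private theorem LX_pos {k : ℕ} (hk : 2 ≤ k) : 0 < C2 k := by
  unfold C2
  obtain ⟨w, rfl⟩ : ∃ w, k = w + 2 := ⟨k - 2, by omega⟩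
  rw [Nat.div_pos_iff]
  refine ⟨by norm_num, ?_⟩
  have h : w + 2 - 1 = w + 1 := by omega
  rw [h]
  nlinarith

private theorem LX_nt {k l v b T : ℕ} (hk : 2 ≤ k) (h : NT k l v T) (hb : b * C2 k = l * C2 v + T) :
    NB k l v b := by
  obtain ⟨b', h1, h2⟩ := h
  have h3 : b' = b := Nat.eq_of_mul_eq_mul_right (LX_pos hk) (h2.trans hb.symm)
  rwa [← h3]

/-- `near_min` with `M = c C2 x`. -/
theorem low_small (k x c : ℕ) (hk : 3 ≤ k) (hx : k + 2 ≤ x) : ∃ L : ℕ, ∀ l, L ≤ l → ∀ d,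
    k - 1 ∣ 2 * d + l * (x - 1) → ∀ b, l * C2 x + d * x ≤ b * C2 k →
    b * C2 k ≤ (l + c) * C2 x → NB k l x b := by
  obtain ⟨L, hL⟩ := near_min k x (c * C2 x) hk hx
  refine ⟨L, fun l hl d hd b h1 h2 => ?_⟩
  rw [Nat.add_mul] at h2
  obtain ⟨T, hT⟩ := Nat.exists_eq_add_of_le (le_trans (Nat.le_add_right _ _) h1)
  refine LX_nt (by omega) (hL l hl d T hd (by omega) (by omega) ?_) hT
  rw [← hT]
  exact Nat.dvd_mul_left _ _

/-- `minimal_all k hk` gives `l₀` with a design for `l₀` whose number of blocks is `l₀ C2 v / C2 k`, for all `v ≥ k`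
(`QQ v k = C2 k` for `k ≤ v`). Let `P = l₀ k (k - 1) (c + 1)`: there is a design with `P C2 v / C2 k` blocks
(`nb_mul`), and since `k - 1 ∣ P`, `sharp k P` gives `C0`, `v₀` such that for `v ≥ v₀` all `b₂` with
`P C2 v / C2 k + C0 ≤ b₂ ≤ P C2 v / (k - 1) - C0` (`beta_eq`) are numbers of blocks for `P`. `L0` from `near_v`, `V0` from
`near_v` with `G = C0 + 1`; `L = L0 + P`. Let `l ≥ L`, `l1 = l - P` (`k - 1 ∣ 2 d + l1 (v - 1)`, and `C2 k ∣ P C2 v`). Given `b` let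
`E = b C2 k - l C2 v - d v`. If `E ≤ C2 k G`, take the design for `l1` with `T = d v + E` and the one for `P` with the
smallest number of blocks (`nb_add`). Otherwise take the design for `l1` with `T = d v + E % C2 k`, with `b1` blocks, and `b₂ = b - b1`:
`b₂ C2 k = P C2 v + (E - E % C2 k)`, where `C2 k G ≤ E - E % C2 k ≤ c C2 v`, and
`P C2 k / (k - 1) = P k / 2 ≥ P + c + 1`, so `b₂ ≤ P C2 v / (k - 1) - C0` for large `v`. -/
theorem low_v (k : ℕ) (hk : 4 ≤ k) (c : ℕ) : ∃ L V : ℕ, ∀ l, L ≤ l → ∀ v, V ≤ v → ∀ d, d ≤ k →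
    k - 1 ∣ 2 * d + l * (v - 1) → ∀ b, l * C2 v + d * v ≤ b * C2 k →
    b * C2 k ≤ (l + c) * C2 v → NB k l v b := by
  obtain ⟨l₀, hl₀, he, hmin⟩ := minimal_all k hk
  obtain ⟨M, hM⟩ : ∃ M, M = k * (k - 1) * (c + 1) := ⟨_, rfl⟩
  obtain ⟨P, hP⟩ : ∃ P, P = M * l₀ := ⟨_, rfl⟩
  have hkM : k - 1 ∣ M := by
    rw [hM]
    exact (Nat.dvd_mul_left (k - 1) k).mul_right _
  have hkP : k - 1 ∣ P := by
    rw [hP]
    exact hkM.mul_right _
  have hPe : Even P := by
    rw [hP]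
    exact he.mul_left _
  have hkk : 1 ≤ k * (k - 1) := Nat.mul_pos (by omega) (by omega)
  have hMc : c + 1 ≤ M := by
    rw [hM]
    nlinarith
  have hPc : c + 1 ≤ P := by
    rw [hP]
    nlinarith
  have hP2 : 2 ≤ P := by
    obtain ⟨y, hy⟩ := hPe
    omega
  obtain ⟨C0, v₀, hsh⟩ := sharp k P (by omega) hP2
  obtain ⟨L0, hL0⟩ := near_v k (by omega)
  obtain ⟨V0, hV0⟩ := hL0 (C0 + 1)
  refine ⟨L0 + P, V0 + v₀ + k + C0 * C2 k + 2, fun l hl v hv d hdk hd b hb1 hb2 => ?_⟩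
  obtain ⟨l1, rfl⟩ : ∃ l1, l = l1 + P := ⟨l - P, by omega⟩
  have hkpos : 0 < C2 k := LX_pos (by omega)
  have hd1 : k - 1 ∣ 2 * d + l1 * (v - 1) := by
    have h1 : 2 * d + (l1 + P) * (v - 1) = P * (v - 1) + (2 * d + l1 * (v - 1)) := by ring
    rw [h1] at hd
    exact (Nat.dvd_add_right (hkP.mul_right _)).1 hd
  obtain ⟨b₀, hb₀, hb₀'⟩ := hmin v (by omega)
  rw [qq_large (by omega) (by omega)] at hb₀'
  have hPb : NB k P v (M * b₀) := by
    rw [hP]
    exact nb_mul hb₀ M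
  have hPb' : M * b₀ * C2 k = P * C2 v := by
    rw [Nat.mul_assoc, hb₀', hP, Nat.mul_assoc]
  obtain ⟨E, hE⟩ := Nat.exists_eq_add_of_le hb1
  have hexp : (l1 + P) * C2 v = l1 * C2 v + M * b₀ * C2 k := by
    rw [Nat.add_mul, hPb']
  by_cases hEG : E ≤ C2 k * (C0 + 1)
  · have h1 : NT k l1 v (d * v + E) := by
      refine hV0 l1 (by omega) v (by omega) d hdk hd1 (d * v + E) (by omega) (by omega) ?_
      have h2 : b * C2 k = M * b₀ * C2 k + (l1 * C2 v + (d * v + E)) := by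
        rw [hE, hexp]
        ring
      have h3 : C2 k ∣ M * b₀ * C2 k + (l1 * C2 v + (d * v + E)) := by
        rw [← h2]
        exact Nat.dvd_mul_left _ _
      exact (Nat.dvd_add_right (Nat.dvd_mul_left _ _)).1 h3
    obtain ⟨b1, hb1', hb1''⟩ := h1
    have h4 : (b1 + M * b₀) * C2 k = b * C2 k := by
      rw [Nat.add_mul, hb1'', hE, hexp]
      ring
    rw [← Nat.eq_of_mul_eq_mul_right hkpos h4]
    exact nb_add hb1' hPb
  · obtain ⟨q, hq⟩ : ∃ q, q = E / C2 k := ⟨_, rfl⟩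
    obtain ⟨r, hr⟩ : ∃ r, r = E % C2 k := ⟨_, rfl⟩
    have hqr : C2 k * q + r = E := by
      rw [hq, hr]
      exact Nat.div_add_mod E (C2 k)
    have hrk : r < C2 k := by
      rw [hr]
      exact Nat.mod_lt _ hkpos
    have hqC : C0 + 1 ≤ q := by
      rw [hq, Nat.le_div_iff_mul_le hkpos, Nat.mul_comm]
      omega
    have h1 : NT k l1 v (d * v + r) := by
      refine hV0 l1 (by omega) v (by omega) d hdk hd1 (d * v + r) (by omega) ?_ ?_
      · have : C2 k ≤ C2 k * (C0 + 1) := Nat.le_mul_of_pos_right _ (Nat.succ_pos _)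
        omega
      · have h2 : b * C2 k = (M * b₀ + q) * C2 k + (l1 * C2 v + (d * v + r)) := by
          rw [hE, hexp, ← hqr]
          ring
        have h3 : C2 k ∣ (M * b₀ + q) * C2 k + (l1 * C2 v + (d * v + r)) := by
          rw [← h2]
          exact Nat.dvd_mul_left _ _
        exact (Nat.dvd_add_right (Nat.dvd_mul_left _ _)).1 h3
    obtain ⟨b1, hb1', hb1''⟩ := h1
    have h4 : (b1 + (M * b₀ + q)) * C2 k = b * C2 k := by
      rw [Nat.add_mul, hb1'', hE, hexp, ← hqr]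
      ring
    rw [← Nat.eq_of_mul_eq_mul_right hkpos h4]
    refine nb_add hb1' ?_
    have hadm : Adm k P v := Or.inr (hPe.mul_right _)
    have hCk := C2_cast k
    have hkr : (4 : ℝ) ≤ (k : ℝ) := by exact_mod_cast hk
    have hkpos' : (0 : ℝ) < (C2 k : ℝ) := by exact_mod_cast hkpos
    have hPr : (M : ℝ) * b₀ * (C2 k : ℝ) = P * (C2 v : ℝ) := by exact_mod_cast hPb'
    refine hsh v (by omega) hadm _ ?_ ?_
    · unfold e0
      rw [if_pos (hkP.mul_right _)]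
      have h5 : (P : ℝ) / (C2 k : ℝ) * (C2 v : ℝ) = M * b₀ := by
        rw [div_mul_eq_mul_div, ← hPr, mul_div_assoc, div_self hkpos'.ne', mul_one]
      rw [h5]
      have h6 : (C0 : ℝ) + 1 ≤ q := by exact_mod_cast hqC
      push_cast
      linarith
    · unfold e1
      rw [if_pos hkP, beta_eq k P (by omega) hkP]
      have h7 : C2 k * q ≤ c * C2 v := by
        have h8 : (l1 + P + c) * C2 v = (l1 + P) * C2 v + c * C2 v := by ring
        rw [h8, hE] at hb2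
        omega
      have h7' : (C2 k : ℝ) * q ≤ c * (C2 v : ℝ) := by exact_mod_cast h7
      have h9 : C0 * C2 k ≤ C2 v := by
        obtain ⟨w, rfl⟩ : ∃ w, v = w + 2 := ⟨v - 2, by omega⟩
        have h10 : w + 1 ≤ C2 (w + 2) := by
          unfold C2
          rw [Nat.le_div_iff_mul_le (by norm_num)]
          have h : w + 2 - 1 = w + 1 := by omega
          rw [h]
          nlinarith
        omega
      have h9' : (C0 : ℝ) * (C2 k : ℝ) ≤ (C2 v : ℝ) := by exact_mod_cast h9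
      have hPc' : (c : ℝ) + 1 ≤ P := by exact_mod_cast hPc
      have hv0 : (0 : ℝ) ≤ (C2 v : ℝ) := Nat.cast_nonneg _
      have hk1 : (0 : ℝ) < (k : ℝ) - 1 := by linarith
      have h11 : (P : ℝ) / ((k : ℝ) - 1) * (C2 v : ℝ) * (C2 k : ℝ) = P * (k / 2) * (C2 v : ℝ) := by
        rw [hCk]
        field_simp
      have h12 : (((M * b₀ + q : ℕ) : ℝ)) * (C2 k : ℝ) ≤
          ((P : ℝ) / ((k : ℝ) - 1) * (C2 v : ℝ) - C0 * ((1 : ℕ) : ℝ)) * (C2 k : ℝ) := by
        rw [sub_mul, h11]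
        push_cast
        have h13 : (P : ℝ) * 2 * (C2 v : ℝ) ≤ P * (k / 2) * (C2 v : ℝ) := by
          have h14 : (0 : ℝ) ≤ P := Nat.cast_nonneg _
          have h15 : (2 : ℝ) ≤ (k : ℝ) / 2 := by linarith
          exact mul_le_mul_of_nonneg_right (mul_le_mul_of_nonneg_left h15 h14) hv0
        have h16 := mul_le_mul_of_nonneg_right hPc' hv0
        linarith
      exact le_of_mul_le_mul_right h12 hkpos'

/-- `k` even: `2` is invertible modulo `k - 1`. `k` odd: `k - 1 = 2 y` and `l (v - 1)` is even. -/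
theorem exists_d {k l v : ℕ} (hk : 2 ≤ k) (h : Adm k l v) :
    ∃ d, d ≤ k ∧ k - 1 ∣ 2 * d + l * (v - 1) := by
  have h0 : ∃ y, 2 * y = l * (v - 1) ∨ 2 * y = l * (v - 1) + (k - 1) := by
    rcases Nat.even_or_odd (l * (v - 1)) with h1 | h1
    · obtain ⟨y, hy⟩ := h1
      exact ⟨y, Or.inl (by omega)⟩
    · rcases h with h2 | h2
      · obtain ⟨y, hy⟩ := h2
        obtain ⟨z, hz⟩ := h1
        exact ⟨z + y, Or.inr (by omega)⟩
      · exact absurd h2 (Nat.not_even_iff_odd.2 h1)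
  obtain ⟨y, hy⟩ := h0
  obtain ⟨m, rfl⟩ : ∃ m, k = m + 1 := ⟨k - 1, by omega⟩
  have hm : m + 1 - 1 = m := rfl
  rw [hm] at hy ⊢
  have hlt : y % m < m := Nat.mod_lt _ (by omega)
  refine ⟨m - y % m, by omega, ?_⟩
  have h1 : m ∣ 2 * (m - y % m) + 2 * y := by
    refine ⟨2 * (1 + y / m), ?_⟩
    have h2 := Nat.div_add_mod y m
    have h3 : m * (2 * (1 + y / m)) = 2 * m + 2 * (m * (y / m)) := by ring
    rw [h3]
    omega
  rcases hy with hy | hy
  · rwa [hy] at h1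
  · rw [hy, ← Nat.add_assoc] at h1
    exact (Nat.dvd_add_left (dvd_refl m)).1 h1

end Pool.Agent.Helper69.QH
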