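import Pool.Agent.Helper69.QH.CD
import Pool.Agent.Helper69.QC.HolA

/-!
Project QH, piece NM: the lower end for a fixed number of points, and designs with a hole.
-/

set_option autoImplicit false

namespace Pool.Agent.Helper69.QH

open Pool.Agent.Helper69.WV Pool.Agent.Helper53.BN Pool.Agent.Helper69.QB Pool.Agent.Helper69.QC

private lemma NM_two_C2 (v : ℕ) : 2 * C2 v = v * (v - 1) := by
  unfold C2
  have h1 : Even (v * (v - 1)) := Nat.even_mul_pred_self v
  obtain ⟨t, ht⟩ := h1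
  omega

private lemma NM_sum (m a b : ℕ) :
    ∑ i : Fin (m + 1), (if i.val = 0 then a else b) = a + m * b := by
  rw [Fin.sum_univ_succ]
  simp

/-- `cone_design` with `n = x`, `h = 0`, `D 0 = T - d (x - 1)` and `D i = d` for `i ≠ 0` (`d ≤ T ≤ M`). The
condition for `i = 0`:
`2 D 0 + l (x - 1) = (2 T + l x (x - 1)) - (x - 1) (2 d + l (x - 1))`. `hol_small` for `h = 0`. -/
theorem near_min (k x M : ℕ) (hk : 3 ≤ k) (hx : k + 2 ≤ x) : ∃ L : ℕ, ∀ l, L ≤ l → ∀ d T,
    k - 1 ∣ 2 * d + l * (x - 1) → d * x ≤ T → T ≤ M → C2 k ∣ l * C2 x + T → NT k l x T := by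
  obtain ⟨L, hL⟩ := cone_design k x 0 M hk hx (by omega)
  refine ⟨L, fun l hl d T h1 h2 h3 h4 => ?_⟩
  obtain ⟨m, rfl⟩ : ∃ m, x = m + 1 := ⟨x - 1, by omega⟩
  obtain ⟨r, rfl⟩ : ∃ r, k = r + 1 := ⟨k - 1, by omega⟩
  have hm : m + 1 - 1 = m := rfl
  have hr : r + 1 - 1 = r := rfl
  rw [hm] at h1
  rw [hr] at h1
  have hdm : d * m ≤ T := le_trans (by nlinarith) h2
  have hdT : d ≤ T := le_trans (by nlinarith) h2
  have e1 := NM_two_C2 (r + 1)
  have e2 := NM_two_C2 (m + 1)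
  rw [hr] at e1
  rw [hm] at e2
  have h5 : (r + 1) * r ∣ l * ((m + 1) * m) + 2 * T := by
    have h6 : 2 * C2 (r + 1) ∣ 2 * (l * C2 (m + 1) + T) := Nat.mul_dvd_mul_left 2 h4
    rw [e1] at h6
    have h7 : 2 * (l * C2 (m + 1) + T) = l * ((m + 1) * m) + 2 * T := by
      rw [← e2]
      ring
    rwa [h7] at h6
  obtain ⟨c, hc1, hc2⟩ := hL l hl (fun i => if i.val = 0 then T - d * m else d) (fun i => by
      split_ifs
      · omega
      · omega) (fun i => by
      change r ∣ 2 * (if i.val = 0 then T - d * m else d) + l * m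
      split_ifs with hi
      · have h8 : 2 * (T - d * m) + l * m + m * (2 * d + l * m) = l * ((m + 1) * m) + 2 * T := by
          obtain ⟨t, rfl⟩ := Nat.exists_eq_add_of_le hdm
          rw [Nat.add_sub_cancel_left]
          ring
        have h9 : r ∣ l * ((m + 1) * m) + 2 * T := (Dvd.intro_left (r + 1) rfl).trans h5
        rw [← h8] at h9
        exact (Nat.dvd_add_left (h1.mul_left m)).1 h9
      · exact h1) (Or.inl rfl) (by
      rw [NM_sum, hm, hr, Nat.mul_zero, Nat.mul_zero, Nat.add_zero]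
      have h8 : T - d * m + m * d = T := by
        obtain ⟨t, rfl⟩ := Nat.exists_eq_add_of_le hdm
        rw [Nat.add_sub_cancel_left]
        ring
      rw [h8]
      exact h5)
  rw [NM_sum, hm, hr, Nat.mul_zero, Nat.mul_zero, Nat.add_zero] at hc2
  have h8 : T - d * m + m * d = T := by
    obtain ⟨t, rfl⟩ := Nat.exists_eq_add_of_le hdm
    rw [Nat.add_sub_cancel_left]
    ring
  rw [h8] at hc2
  refine ⟨c, (hol_small (n := m + 1) (h := 0) (Nat.zero_le 1)).1 hc1, ?_⟩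
  have h9 : 2 * (c * C2 (r + 1)) = 2 * (l * C2 (m + 1) + T) := by
    calc 2 * (c * C2 (r + 1)) = c * (2 * C2 (r + 1)) := by ring
      _ = c * ((r + 1) * r) := by rw [e1]
      _ = l * ((m + 1) * m) + 2 * T := hc2
      _ = l * (2 * C2 (m + 1)) + 2 * T := by rw [e2]
      _ = 2 * (l * C2 (m + 1) + T) := by ring
  omega

/-- `cone_design` with `D 0 = d + C2 k s`, `D i = d` for `i ≠ 0`, `M = k + C2 k`. -/
theorem inc (k n h : ℕ) (hk : 3 ≤ k) (hn0 : k * (k - 1) ∣ n) (hn : k + 2 ≤ n)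
    (hh : (k - 2) * h + 1 < n) : ∃ L : ℕ, ∀ l, L ≤ l → ∀ d, d ≤ k →
      k - 1 ∣ 2 * d + l * (n - 1 + h) → ∀ s, s ≤ 1 → ∃ c, DC k l c (hol n 1 h) ∧
        c * C2 k = l * (C2 n + n * h) + d * n + C2 k * s := by
  obtain ⟨L, hL⟩ := cone_design k n h (k + C2 k) hk hn hh
  refine ⟨L, fun l hl d hd h1 s hs => ?_⟩
  have hs' : C2 k * s ≤ C2 k := by nlinarith
  obtain ⟨m, rfl⟩ : ∃ m, n = m + 1 := ⟨n - 1, by omega⟩
  have hm : m + 1 - 1 = m := rfl
  rw [hm] at h1
  have e1 := NM_two_C2 k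
  have e2 := NM_two_C2 (m + 1)
  rw [hm] at e2
  have hk1 : k - 1 ∣ k * (k - 1) := Dvd.intro_left k rfl
  have e3 : d + C2 k * s + m * d = d * (m + 1) + C2 k * s := by ring
  have e4 : 2 * (d * (m + 1) + C2 k * s) = 2 * (d * (m + 1)) + k * (k - 1) * s := by
    rw [← e1]
    ring
  have hmn : k * (k - 1) ∣ (m + 1) * m := hn0.mul_right m
  obtain ⟨c, hc1, hc2⟩ := hL l hl (fun i => if i.val = 0 then d + C2 k * s else d) (fun i => by
      split_ifs
      · omega
      · omega) (fun i => by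
      change k - 1 ∣ 2 * (if i.val = 0 then d + C2 k * s else d) + l * (m + h)
      split_ifs with hi
      · have h8 : 2 * (d + C2 k * s) + l * (m + h) = 2 * d + l * (m + h) + k * (k - 1) * s := by
          rw [← e1]
          ring
        rw [h8]
        exact Nat.dvd_add h1 (hk1.mul_right s)
      · exact h1) (Or.inr ((hk1.trans hn0).mul_left l)) (by
      rw [NM_sum, e3, e4, hm]
      refine Nat.dvd_add (Dvd.dvd.mul_left (Nat.dvd_add hmn ?_) l) (Nat.dvd_add ?_ ?_)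
      · exact (hn0.mul_right h).mul_left 2
      · exact (hn0.mul_left d).mul_left 2
      · exact Dvd.intro s rfl)
  rw [NM_sum, e3, hm] at hc2
  refine ⟨c, hc1, ?_⟩
  have h9 : 2 * (c * C2 k) = 2 * (l * (C2 (m + 1) + (m + 1) * h) + d * (m + 1) + C2 k * s) := by
    calc 2 * (c * C2 k) = c * (2 * C2 k) := by ring
      _ = l * (2 * C2 (m + 1) + 2 * ((m + 1) * h)) + 2 * (d * (m + 1) + C2 k * s) := by
        rw [e1, hc2, e2]
      _ = 2 * (l * (C2 (m + 1) + (m + 1) * h) + d * (m + 1) + C2 k * s) := by ring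
  omega

end Pool.Agent.Helper69.QH
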