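import Pool.Agent.Helper69.QH.NM
import Pool.Agent.Helper69.QH.FR
import Pool.Agent.Helper69.QH.GD
import Pool.Agent.Helper69.QC.Copies

/-!
Project QH, piece NV: the lower end for all large numbers of points.
-/

set_option autoImplicit false

namespace Pool.Agent.Helper69.QH

open Pool.Agent.Helper69.WV Pool.Agent.Helper53.BN Pool.Agent.Helper69.QB Pool.Agent.Helper69.QC

private lemma NV_two_C2 (v : ℕ) : 2 * C2 v = v * (v - 1) := by
  unfold C2
  have h1 : Even (v * (v - 1)) := Nat.even_mul_pred_self v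
  obtain ⟨t, ht⟩ := h1
  omega

private lemma NV_C2_add (a b : ℕ) : C2 (a + b) = C2 a + a * b + C2 b := by
  have h : 2 * C2 (a + b) = 2 * (C2 a + a * b + C2 b) := by
    have e : 2 * (C2 a + a * b + C2 b) = 2 * C2 a + 2 * (a * b) + 2 * C2 b := by ring
    rw [e, NV_two_C2, NV_two_C2, NV_two_C2]
    rcases a with - | a
    · simp
    rcases b with - | b
    · simp
    have h1 : a + 1 + (b + 1) - 1 = a + b + 1 := by omega
    rw [h1, Nat.add_sub_cancel, Nat.add_sub_cancel]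
    ring
  omega

private lemma NV_sum (n S a b : ℕ) (hS : S ≤ n) :
    ∑ i : Fin n, (if i.val < S then a else b) = S * a + (n - S) * b := by
  rw [Fin.sum_univ_eq_sum_range (fun i => if i < S then a else b) n]
  obtain ⟨m, rfl⟩ := Nat.exists_eq_add_of_le hS
  rw [Finset.sum_range_add, Nat.add_sub_cancel_left]
  congr 1
  · rw [Finset.sum_congr rfl (g := fun _ => a) (fun i hi => if_pos (Finset.mem_range.1 hi))]
    simp
  · rw [Finset.sum_congr rfl (g := fun _ => b) (fun i _ => if_neg (by omega))]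
    simp

/-- `fillR` with `l` copies of the given design (`copies`) and `c i` = `c1` for `S` of the indices, `c0` for
the others. Numbers of blocks: `count_hol` for `cg`, and
`C2 (n x + (h + ρ)) = C2 n x^2 + n x h + n (C2 x + x ρ) + C2 (h + ρ)`. -/
theorem nv_step {k l n x h ρ d S cg c0 c1 Th : ℕ} (hk : 2 ≤ k) (hg : DC k 1 cg (hol n x h))
    (h0 : DC k l c0 (hol x 1 ρ)) (hc0 : c0 * C2 k = l * (C2 x + x * ρ) + d * x)
    (h1 : DC k l c1 (hol x 1 ρ)) (hc1 : c1 * C2 k = l * (C2 x + x * ρ) + d * x + C2 k)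
    (hS : S ≤ n) (hT : NT k l (h + ρ) Th) :
    NT k l (n * x + (h + ρ)) (d * (n * x) + C2 k * S + Th) := by
  obtain ⟨b', hb, hb'⟩ := hT
  refine ⟨_, fillR (copies hg l) (fun i => if i.val < S then c1 else c0) (fun i => by
    split_ifs
    · exact h1
    · exact h0) hb, ?_⟩
  rw [NV_sum _ _ _ _ hS]
  have hcg : 2 * (cg * C2 k) = n * (n - 1) * x ^ 2 + 2 * (n * x * h) := by
    rw [← count_hol hg, ← NV_two_C2]
    ring
  have hC : 2 * C2 (n * x + (h + ρ)) =
      n * (n - 1) * x ^ 2 + 2 * (n * x * h) + 2 * (n * (C2 x + x * ρ)) + 2 * C2 (h + ρ) := by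
    rw [NV_C2_add]
    have e1 : 2 * C2 (n * x) = n * (n - 1) * x ^ 2 + n * (2 * C2 x) := by
      rw [NV_two_C2, NV_two_C2]
      rcases n with - | n
      · simp
      rcases x with - | x
      · simp
      have h2 : (n + 1) * (x + 1) - 1 = n * x + n + x := by
        have : (n + 1) * (x + 1) = n * x + n + x + 1 := by ring
        omega
      rw [h2, Nat.add_sub_cancel, Nat.add_sub_cancel]
      ring
    calc 2 * (C2 (n * x) + n * x * (h + ρ) + C2 (h + ρ)) =
        2 * C2 (n * x) + 2 * (n * x * (h + ρ)) + 2 * C2 (h + ρ) := by ring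
      _ = _ := by
        rw [e1]
        ring
  obtain ⟨m, rfl⟩ := Nat.exists_eq_add_of_le hS
  rw [Nat.add_sub_cancel_left]
  have key : 2 * ((l * cg + (S * c1 + m * c0) + b') * C2 k) =
      2 * (l * C2 ((S + m) * x + (h + ρ)) + (d * ((S + m) * x) + C2 k * S + Th)) := by
    calc 2 * ((l * cg + (S * c1 + m * c0) + b') * C2 k) =
        l * (2 * (cg * C2 k)) + 2 * (S * (c1 * C2 k)) + 2 * (m * (c0 * C2 k)) +
          2 * (b' * C2 k) := by ring
      _ = l * (2 * C2 ((S + m) * x + (h + ρ))) + 2 * (d * ((S + m) * x) + C2 k * S + Th) := by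
        rw [hcg, hc1, hc0, hb', hC]
        ring
      _ = _ := by ring
  omega

/-- Let `w, N, a` be from `types`, `x = a w`. `L` = a common bound of the numbers of
`inc k x ρ` for `ρ < w` (here `(k - 2) ρ + 1 < k w ≤ x`) and of `near_min k h' (k h' + C2 k)` for `2 w ≤ h' < (N a + 3) w`.
For `G` let `t0` be from `types` with `U = N a + 2` and `V` so large that `v ≥ V` gives
`v = (N t) x + (u w + ρ)` with `ρ < w`, `2 ≤ u < N a + 2`, `t ≥ t0` and `N t ≥ G` (`v = w z + ρ`, `z - 2 = (N a) t + (u - 2)`).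
Let `T = d v + E`, `E ≤ C2 k G`, `S = E / C2 k`, `r = E % C2 k`, `Th = d (u w + ρ) + r`. All of `x`, `d x`, `l x` are divisible by `k (k - 1)`, so
`C2 k ∣ l C2 (u w + ρ) + Th`, and `k - 1 ∣ 2 d + l (u w + ρ - 1)`, `k - 1 ∣ 2 d + l (x - 1 + ρ)`. `near_min`, `inc` with `s = 0, 1`, `nv_step`. -/
theorem near_v (k : ℕ) (hk : 3 ≤ k) : ∃ L : ℕ, ∀ G : ℕ, ∃ V : ℕ, ∀ l, L ≤ l → ∀ v, V ≤ v →
    ∀ d, d ≤ k → k - 1 ∣ 2 * d + l * (v - 1) → ∀ T, d * v ≤ T → T ≤ d * v + C2 k * G →
    C2 k ∣ l * C2 v + T → NT k l v T := by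
  obtain ⟨w, N, a, hw, hkw, hN, ha, htyp⟩ := types k (by omega)
  have hkk : 6 ≤ k * (k - 1) := by
    obtain ⟨r, rfl⟩ : ∃ r, k = r + 3 := ⟨k - 3, by omega⟩
    have : r + 3 - 1 = r + 2 := rfl
    rw [this]
    nlinarith
  have hC2k : 2 * C2 k = k * (k - 1) := NV_two_C2 k
  have hC2pos : 0 < C2 k := by omega
  have hkw' : k * (k - 1) ≤ w := Nat.le_of_dvd hw hkw
  have hkk2 : 2 * k ≤ k * (k - 1) := by
    rw [Nat.mul_comm 2 k]
    exact Nat.mul_le_mul_left k (by omega)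
  have hxw : k * w ≤ a * w := Nat.mul_le_mul_right w ha
  have hkx : k * (k - 1) ∣ a * w := hkw.mul_left a
  have hwx : w ≤ a * w := le_trans (by nlinarith) hxw
  have h1 : ∀ ρ, ρ < w → ∃ L : ℕ, ∀ l, L ≤ l → ∀ d, d ≤ k →
      k - 1 ∣ 2 * d + l * (a * w - 1 + ρ) → ∀ s, s ≤ 1 → ∃ c, DC k l c (hol (a * w) 1 ρ) ∧
        c * C2 k = l * (C2 (a * w) + a * w * ρ) + d * (a * w) + C2 k * s := by
    intro ρ hρ
    refine inc k (a * w) ρ hk hkx (by omega) ?_
    obtain ⟨r, rfl⟩ : ∃ r, k = r + 2 := ⟨k - 2, by omega⟩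
    have : r + 2 - 2 = r := rfl
    rw [this]
    have h2 : r * ρ ≤ r * w := Nat.mul_le_mul_left r hρ.le
    nlinarith
  have h2 : ∀ h', 2 * w ≤ h' → ∃ L : ℕ, ∀ l, L ≤ l → ∀ d T,
      k - 1 ∣ 2 * d + l * (h' - 1) → d * h' ≤ T → T ≤ k * h' + C2 k → C2 k ∣ l * C2 h' + T →
      NT k l h' T := by
    intro h' hh
    exact near_min k h' (k * h' + C2 k) hk (by omega)
  choose! f1 hf1 using h1
  choose! f2 hf2 using h2
  refine ⟨(∑ ρ ∈ Finset.range w, f1 ρ) + ∑ h' ∈ Finset.range ((N * a + 3) * w), f2 h', ?_⟩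
  intro G
  obtain ⟨t0, ht0⟩ := htyp (N * a + 2)
  refine ⟨w * (N * a * (t0 + G) + 2), ?_⟩
  intro l hl v hv d hd hdv T hT1 hT2 hT3
  have hNa : 0 < N * a := Nat.mul_pos hN (by omega)
  -- the decomposition
  obtain ⟨t, u, ρ, hρ, hu2, hu, ht, hvv⟩ : ∃ t u ρ : ℕ, ρ < w ∧ 2 ≤ u ∧ u < N * a + 2 ∧
      t0 + G ≤ t ∧ v = N * t * (a * w) + (u * w + ρ) := by
    have hz : N * a * (t0 + G) + 2 ≤ v / w := by
      rw [Nat.le_div_iff_mul_le hw, Nat.mul_comm]
      exact hv
    refine ⟨(v / w - 2) / (N * a), (v / w - 2) % (N * a) + 2, v % w, Nat.mod_lt _ hw, by omega,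
      by have := Nat.mod_lt (v / w - 2) hNa; omega, ?_, ?_⟩
    · rw [Nat.le_div_iff_mul_le hNa, Nat.mul_comm]
      omega
    · have e1 := Nat.div_add_mod v w
      have e2 := Nat.div_add_mod (v / w - 2) (N * a)
      have e3 : v / w = N * a * ((v / w - 2) / (N * a)) + (v / w - 2) % (N * a) + 2 := by omega
      have e4 : N * ((v / w - 2) / (N * a)) * (a * w) + (((v / w - 2) % (N * a) + 2) * w + v % w) =
          w * (N * a * ((v / w - 2) / (N * a)) + (v / w - 2) % (N * a) + 2) + v % w := by ring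
      rw [e4, ← e3, e1]
  obtain ⟨cg, hcg⟩ := ht0 t (by omega) u (by omega)
  have hNt : G ≤ N * t := le_trans (by omega) (Nat.le_mul_of_pos_left t hN)
  have hl1 : f1 ρ ≤ l := le_trans (le_trans (Finset.single_le_sum
    (f := f1) (fun _ _ => Nat.zero_le _) (Finset.mem_range.2 hρ)) (Nat.le_add_right _ _)) hl
  have hl2 : f2 (u * w + ρ) ≤ l := by
    refine le_trans (le_trans (Finset.single_le_sum
      (f := f2) (s := Finset.range ((N * a + 3) * w)) (fun _ _ => Nat.zero_le _)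
        (Finset.mem_range.2 ?_)) (Nat.le_add_left _ _)) hl
    have : u * w ≤ (N * a + 2) * w := Nat.mul_le_mul_right w hu.le
    nlinarith
  have hh2 : 2 * w ≤ u * w + ρ := le_trans (Nat.mul_le_mul_right w hu2) (Nat.le_add_right _ _)
  have hk1 : k - 1 ∣ k * (k - 1) := Dvd.intro_left k rfl
  have hkC : C2 k ∣ k * (k - 1) := by
    rw [← hC2k]
    exact Dvd.intro_left 2 rfl
  obtain ⟨E, rfl⟩ := Nat.exists_eq_add_of_le hT1
  have hE : E ≤ C2 k * G := by omega
  have hS : E / C2 k ≤ N * t := le_trans (Nat.div_le_of_le_mul hE) hNt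
  have hr : E % C2 k < C2 k := Nat.mod_lt _ hC2pos
  have hEE : C2 k * (E / C2 k) + E % C2 k = E := Nat.div_add_mod E (C2 k)
  have hux : 1 ≤ u * w + ρ := by omega
  -- divisibilities
  have hd1 : k - 1 ∣ 2 * d + l * (u * w + ρ - 1) := by
    have e : 2 * d + l * (v - 1) = l * (N * t * (a * w)) + (2 * d + l * (u * w + ρ - 1)) := by
      have : v - 1 = N * t * (a * w) + (u * w + ρ - 1) := by omega
      rw [this]
      ring
    rw [e] at hdv
    exact (Nat.dvd_add_right (((hk1.trans hkx).mul_left _).mul_left _)).1 hdv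
  have hd2 : k - 1 ∣ 2 * d + l * (a * w - 1 + ρ) := by
    have e : 2 * d + l * (v - 1) + l * (a * w) =
        l * (N * t * (a * w) + u * w) + (2 * d + l * (a * w - 1 + ρ)) := by
      have : v - 1 + a * w = N * t * (a * w) + u * w + (a * w - 1 + ρ) := by omega
      calc 2 * d + l * (v - 1) + l * (a * w) = 2 * d + l * (v - 1 + a * w) := by ring
        _ = _ := by
          rw [this]
          ring
    have h3 := Nat.dvd_add hdv ((hk1.trans hkx).mul_left l)
    rw [e] at h3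
    exact (Nat.dvd_add_right ((Nat.dvd_add ((hk1.trans hkx).mul_left _)
      ((hk1.trans hkw).mul_left _)).mul_left _)).1 h3
  have hd3 : C2 k ∣ l * C2 (u * w + ρ) + (d * (u * w + ρ) + E % C2 k) := by
    have e : l * C2 v + (d * v + E) =
        (l * (C2 (N * t * (a * w)) + N * t * (a * w) * (u * w + ρ)) + d * (N * t * (a * w)) +
          C2 k * (E / C2 k)) +
          (l * C2 (u * w + ρ) + (d * (u * w + ρ) + E % C2 k)) := by
      have h3 : d * v + E = d * v + (C2 k * (E / C2 k) + E % C2 k) := by rw [hEE]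
      rw [h3, hvv, NV_C2_add]
      ring
    rw [e] at hT3
    have hx1 : C2 k ∣ N * t * (a * w) := (hkC.trans hkx).mul_left _
    have hx2 : C2 k ∣ C2 (N * t * (a * w)) := by
      have h4 : 2 * C2 k ∣ 2 * C2 (N * t * (a * w)) := by
        rw [hC2k, NV_two_C2]
        exact (hkx.mul_left _).mul_right _
      exact Nat.dvd_of_mul_dvd_mul_left (by norm_num) h4
    exact (Nat.dvd_add_right (Nat.dvd_add (Nat.dvd_add
      ((Nat.dvd_add hx2 (hx1.mul_right _)).mul_left _) (hx1.mul_left _)) (Dvd.intro _ rfl))).1 hT3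
  have hTh : NT k l (u * w + ρ) (d * (u * w + ρ) + E % C2 k) := by
    refine hf2 (u * w + ρ) hh2 l hl2 d _ hd1 (Nat.le_add_right _ _) ?_ hd3
    have := Nat.mul_le_mul_right (u * w + ρ) hd
    omega
  obtain ⟨c0, hc0, hc0'⟩ := hf1 ρ hρ l hl1 d hd hd2 0 (by omega)
  obtain ⟨c1, hc1, hc1'⟩ := hf1 ρ hρ l hl1 d hd hd2 1 le_rfl
  rw [Nat.mul_zero, Nat.add_zero] at hc0'
  rw [Nat.mul_one] at hc1'
  have hfin := nv_step (by omega) hcg hc0 hc0' hc1 hc1' hS hTh
  have e : d * (N * t * (a * w)) + C2 k * (E / C2 k) + (d * (u * w + ρ) + E % C2 k) =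
      d * v + E := by
    have h3 : d * v + E = d * v + (C2 k * (E / C2 k) + E % C2 k) := by rw [hEE]
    rw [h3, hvv]
    ring
  rw [e, ← hvv] at hfin
  exact hfin

end Pool.Agent.Helper69.QH
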